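import Pool.Agent.H87.Brt.Mn

set_option autoImplicit false

/-! Translation to Coxeter matrices. -/

namespace Pool.Agent.H87.Brt

open Pool.Agent.H482R3.EA (W inv ev)
open Pool.Agent.H482R3.EB (alt AR gR TR SolvWP)
open Pool.Agent.H482R3
open Pool.Agent.H87.Art (ev_nil ev_append ev_cons ev_inv ev_single map_ev re_ex re_and re_comp
  cp_comp re_or re_true re_false re_const re_all_fin re_ex_fin cp_eq re_case re_chain)

theorem alt_comp {S T : Type} (e : S → T) (k : ℕ) : ∀ s t : S,
    alt (e s) (e t) k = (alt s t k).map e := by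
  induction k with
  | zero => intro s t; simp [alt]
  | succ k ih =>
    intro s t
    simp only [alt, List.map_cons]
    rw [ih t s]

theorem ev_map {S T G : Type} [Group G] (f : T → G) (e : S → T) (u : W S) :
    ev f (u.map (fun x => (e x.1, x.2))) = ev (fun s => f (e s)) u := by
  induction u with
  | nil => rfl
  | cons a u ih =>
    rw [List.map_cons, ev_cons, ev_cons, ih]

section emb

variable {n a : ℕ} {ι : Type} [DecidableEq ι] {m : Fin n → Fin n → ℕ} {β : Fin n → ι}
  (hb : Blk m β) (X : ι) (e : Fin a → Fin n) (he : Function.Injective e)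
  (hX : ∀ s, (∃ i, e i = s) ↔ β s = X)

include he in
theorem emb1 (u : W (Fin a)) (h : TR (fun i j => m (e i) (e j)) u) :
    TR m (u.map (fun x => (e x.1, x.2))) := by
  obtain ⟨φ, h1, h2⟩ := EB.t_LIFTR (Fin a) (AR m) inferInstance (fun i j => m (e i) (e j))
    (fun i => gR m (e i)) (by
      intro s t hst h0
      have h3 := gen_rel (m := m) (e s) (e t) (fun h => hst (he h)) h0
      rw [alt_comp, alt_comp, List.map_map, List.map_map] at h3
      exact h3)
  unfold TR at h ⊢
  rw [ev_map, ← h2, h, map_one]

include hb hX he in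
theorem emb2 (u : W (Fin a)) (h : TR m (u.map (fun x => (e x.1, x.2)))) :
    TR (fun i j => m (e i) (e j)) u := by
  classical
  obtain ⟨f, hf1, hf2⟩ : ∃ f : Fin n → AR (fun i j => m (e i) (e j)),
      (∀ i, f (e i) = gR (fun i j => m (e i) (e j)) i) ∧ ∀ s, β s ≠ X → f s = 1 := by
    refine ⟨fun s => if h : ∃ i, e i = s then gR _ h.choose else 1, fun i => ?_, fun s hs => ?_⟩
    · have h1 : ∃ j, e j = e i := ⟨i, rfl⟩
      simp only
      rw [dif_pos h1]
      congr 1
      exact he h1.choose_spec
    · exact dif_neg (fun h => hs ((hX s).1 h))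
  obtain ⟨φ, h1, h2⟩ := EB.t_LIFTR (Fin n) (AR (fun i j => m (e i) (e j))) inferInstance m f (by
      intro s t hst h0
      by_cases hs : β s = X
      · by_cases ht : β t = X
        · obtain ⟨i, rfl⟩ := (hX s).2 hs
          obtain ⟨j, rfl⟩ := (hX t).2 ht
          have h3 := gen_rel (m := fun i j => m (e i) (e j)) i j (fun h => hst (by rw [h])) h0
          rw [alt_comp, alt_comp, List.map_map, List.map_map]
          have h4 : f ∘ e = gR (fun i j => m (e i) (e j)) := funext hf1
          rw [h4]
          exact h3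
        · exact cross_rel hb f s t (fun h => ht (h ▸ hs)) (Or.inr (hf2 t ht))
      · by_cases ht : β t = X
        · exact cross_rel hb f s t (fun h => hs (h.trans ht)) (Or.inl (hf2 s hs))
        · have e1 : f s = f t := by rw [hf2 s hs, hf2 t ht]
          rw [alt_same _ _ s t e1, alt_same _ _ t s e1.symm, e1])
  unfold TR at h ⊢
  have h3 := congrArg φ h
  rw [h2, map_one, ev_map] at h3
  rw [← h3]
  congr 1
  funext i
  exact (hf1 i).symm

/-- the word problem of a block, in the whole group -/
theorem blk_comp (hX : ∀ s, (∃ i, e i = s) ↔ β s = X) (he : Function.Injective e)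
    (hs : ComputablePred (TR (fun i j => m (e i) (e j)))) :
    ComputablePred fun u : W (Fin n) => ret hb {X} (ev (gR m) u) = 1 := by
  by_cases ha : Nonempty (Fin a)
  · obtain ⟨i0⟩ := ha
    obtain ⟨g, hg⟩ : ∃ g : Fin n → Fin a, ∀ s, β s = X → e (g s) = s := by
      classical
      refine ⟨fun s => if h : ∃ i, e i = s then h.choose else i0, fun s hs => ?_⟩
      have h1 := (hX s).2 hs
      simp only
      rw [dif_pos h1]
      exact h1.choose_spec
    have hg1 : Primrec g := Primrec.dom_finite _
    have h1 : Computable fun u : W (Fin n) =>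
        ((fl β {X} u).map (fun x => (g x.1, x.2)) : W (Fin a)) :=
      (Primrec.list_map (prim_fl β {X}) ((Primrec.pair (hg1.comp (Primrec.fst.comp Primrec.snd))
        (Primrec.snd.comp Primrec.snd)).to₂)).to_comp
    refine (cp_comp hs h1).of_eq fun u => ?_
    have h2 : ((fl β {X} u).map (fun x => (g x.1, x.2))).map (fun x => (e x.1, x.2)) =
        fl β {X} u := by
      rw [List.map_map]
      conv_rhs => rw [← List.map_id (fl β {X} u)]
      refine List.map_congr_left fun x hx => ?_
      have h3 : β x.1 = X := by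
        have := List.of_mem_filter hx
        simpa using this
      show (e (g x.1), x.2) = x
      rw [hg _ h3]
    rw [ret_ev]
    constructor
    · intro h
      have h4 := emb1 e he _ h
      rw [h2] at h4
      exact h4
    · intro h
      refine emb2 hb X e he hX _ ?_
      rw [h2]
      exact h
  · have h1 : ∀ s, β s ≠ X := by
      intro s hs
      obtain ⟨i, _⟩ := (hX s).2 hs
      exact ha ⟨i⟩
    refine ((cp_eq (α := W (Fin n)) (Computable.const true) (Computable.const true))).of_eq
      fun u => ⟨fun _ => ?_, fun _ => rfl⟩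
    rw [ret_ev]
    have h2 : fl β {X} u = [] := by
      unfold fl
      rw [List.filter_eq_nil_iff]
      intro x _
      simpa using h1 x.1
    rw [h2]
    rfl

end emb

theorem solv_iff {n : ℕ} (m : Fin n → Fin n → ℕ) (h1 : ∀ i, m i i = 1)
    (hs : ∀ i j, m i j = m j i) : SolvWP m ↔ ComputablePred (TR m) := by
  constructor
  · intro h
    exact h.of_eq fun u => EB.Asm.artr n m h1 hs u
  · intro h
    exact h.of_eq fun u => (EB.Asm.artr n m h1 hs u).symm

/-- `e` lists the generators of one block -/
def IsBlock {n a : ℕ} (β : Fin n → ℕ) (e : Fin a → Fin n) : Prop :=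
  Function.Injective e ∧ ∃ b, ∀ s, (∃ i, e i = s) ↔ β s = b

/-- reduction to the blocks -/
theorem block_solv (n : ℕ) (M : CoxeterMatrix (Fin n)) (β : Fin n → ℕ)
    (h1 : ∀ i j, β i ≠ β j → Even (M i j))
    (h2 : ∀ i j i' j', β i = β i' → β j = β j' → β i ≠ β j → M i j = 2 → M i' j' = 2) :
    SolvWP M ↔ ∀ (a : ℕ) (e : Fin a → Fin n), 3 ≤ a → IsBlock β e →
      SolvWP (fun i j => M (e i) (e j)) := by
  have hb : Blk (M : Fin n → Fin n → ℕ) β :=
    { dg := M.diagonal
      sy := fun s t => M.symmetric s t
      ne := fun s t h => M.off_diagonal s t h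
      ev := h1
      ho := h2 }
  constructor
  · rintro h a e _ ⟨he, b, hX⟩
    rw [solv_iff _ M.diagonal (fun i j => M.symmetric i j)] at h
    rw [solv_iff _ (fun i => M.diagonal (e i)) (fun i j => M.symmetric (e i) (e j))]
    have hg1 : Primrec e := Primrec.dom_finite _
    have h3 : Computable fun u : W (Fin a) => (u.map (fun x => (e x.1, x.2)) : W (Fin n)) :=
      (Primrec.list_map Primrec.id ((Primrec.pair (hg1.comp (Primrec.fst.comp Primrec.snd))
        (Primrec.snd.comp Primrec.snd)).to₂)).to_comp
    exact (cp_comp h h3).of_eq fun u => ⟨emb2 hb b e he hX u, emb1 e he u⟩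
  · intro H
    rw [solv_iff _ M.diagonal (fun i j => M.symmetric i j)]
    refine block_wp hb (fun X => ?_)
    let q := Fintype.equivFin {s : Fin n // β s = X}
    have he : Function.Injective (fun i => (q.symm i).1) := by
      intro i j hij
      exact q.symm.injective (Subtype.ext hij)
    have hX : ∀ s, (∃ i, (q.symm i).1 = s) ↔ β s = X := by
      intro s
      constructor
      · rintro ⟨i, rfl⟩
        exact (q.symm i).2
      · intro hs
        exact ⟨q ⟨s, hs⟩, by rw [Equiv.symm_apply_apply]⟩
    have h3 : SolvWP (fun i j => M ((q.symm i).1) ((q.symm j).1)) := by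
      by_cases ha : 3 ≤ Fintype.card {s : Fin n // β s = X}
      · exact H _ (fun i => (q.symm i).1) ha ⟨he, X, hX⟩
      · exact EB.Asm.dihb _ (EB.resM M (fun i => (q.symm i).1) he) (by omega)
    have h4 := (solv_iff (fun i j => M ((q.symm i).1) ((q.symm j).1)) (fun i => M.diagonal _)
      (fun i j => M.symmetric _ _)).1 h3
    exact blk_comp hb X (fun i => (q.symm i).1) hX he h4

end Pool.Agent.H87.Brt
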