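import Pool.Agent.H87.Brt.Dc

set_option autoImplicit false

/-! Geometry of the states in terms of double cosets. -/

namespace Pool.Agent.H87.Brt

open Pool.Agent.H482R3.EA (W inv ev PP xx evF cond1 cond2 Sys St Near InD Adm Act)
open Pool.Agent.H482R3.EB (alt AR gR)
open Pool.Agent.H482R3
open Pool.Agent.H87.Art (ev_nil ev_append ev_cons ev_inv ev_single map_ev re_ex re_and re_comp
  cp_comp re_or re_true re_false re_const re_all_fin re_ex_fin cp_eq re_case re_chain)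

section sem

variable {n : ℕ} {ι : Type} [DecidableEq ι] {m : Fin n → Fin n → ℕ} {β : Fin n → ι}
  (hb : Blk m β) (L : Finset ι) (x : Fin n)
  (hQ : ∀ Y ∈ L, Y ∉ com m β L (β x) → QQ hb (com m β L (β x)) Y)

theorem hQA (L : Finset ι) (x : Fin n) :
    ∀ Y ∈ L, Y ∉ com m β L (β x) → QQ hb (com m β L (β x)) Y :=
  fun Y _ h => QQ_all hb _ Y h

theorem near_pt (v' v : (dat hb L x hQ).V) (g h : AR m) :
    Near (dat hb L x hQ).sys ((v', (dat hb L x hQ).cls (pr hb L x hQ g)) : (dat hb L x hQ).P)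
      (.pt ((v, (dat hb L x hQ).cls (pr hb L x hQ h)) : (dat hb L x hQ).P)) ↔
    (dat hb L x hQ).cls (pr hb L x hQ h) = (dat hb L x hQ).cls (pr hb L x hQ g) ∨
      (v' = v ∧ ∃ z : Fin n, (dat hb L x hQ).e v z ∧
        D1 hb (com m β L (β x)) z (ret hb L (h⁻¹ * g))) := by
  constructor
  · rintro ⟨k, h1, h2⟩
    rcases k with k | k
    · left
      have h3 : (dat hb L x hQ).cls (pr hb L x hQ h) = k := h1
      have h4 : (dat hb L x hQ).cls (pr hb L x hQ g) = k := h2
      rw [h3, h4]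
    · right
      obtain ⟨v0, z, hz, b, e⟩ := (dat hb L x hQ).exists_ln k
      have h3 : (dat hb L x hQ).I (v, (dat hb L x hQ).cls (pr hb L x hQ h)) (.inr k) := h1
      have h4 : (dat hb L x hQ).I (v', (dat hb L x hQ).cls (pr hb L x hQ g)) (.inr k) := h2
      rw [e, ← pr_inc hb L x hQ b, I_pr] at h3 h4
      obtain ⟨h5, h3⟩ := h3
      obtain ⟨h6, h4⟩ := h4
      rw [Ic_ex hb L x hQ z hz.1] at h3 h4
      obtain ⟨i, ν, hν, e1⟩ := h3
      obtain ⟨j, ν', hν', e2⟩ := h4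
      refine ⟨h6.trans h5.symm, z, h5 ▸ hz, ν⁻¹, ν', j - i, (Par hb _).inv_mem hν, hν', ?_⟩
      have e3 : h⁻¹ * g = ((inc hb L x hQ b)⁻¹ * h)⁻¹ * ((inc hb L x hQ b)⁻¹ * g) := by group
      rw [e3, map_mul, map_inv, e1, e2]
      group
  · rintro (h1 | ⟨rfl, z, hz, μ, ν, j, hμ, hν, e⟩)
    · exact ⟨(dat hb L x hQ).bl ((dat hb L x hQ).cls (pr hb L x hQ h)), rfl, h1.symm⟩
    · have hμL : ret hb L μ = μ := Par_mono hb (com_sub L (β x)) hμ
      refine ⟨(dat hb L x hQ).ln v' z hz (pr hb L x hQ (h * μ)), ?_, ?_⟩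
      · refine (I_pr hb L x hQ v' v' z hz h (h * μ)).2 ⟨rfl, ?_⟩
        rw [Ic_ex hb L x hQ z hz.1]
        refine ⟨0, μ⁻¹, (Par hb _).inv_mem hμ, ?_⟩
        rw [zpow_zero, one_mul, mul_inv_rev, mul_assoc, inv_mul_cancel, mul_one, map_inv, hμL]
      · refine (I_pr hb L x hQ v' v' z hz g (h * μ)).2 ⟨rfl, ?_⟩
        rw [Ic_ex hb L x hQ z hz.1]
        refine ⟨j, ν, hν, ?_⟩
        rw [mul_inv_rev, mul_assoc, map_mul, map_inv, hμL, e]
        group

theorem D1_shift {T : Finset ι} {y z : Fin n} (hyT : β y ∉ T) (hyz : β z ≠ β y) (k : AR m) :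
    (∃ j : ℤ, D1 hb T z (k * gR m y ^ j)) ↔ D1 hb T z (k * (yp hb y k)⁻¹) := by
  unfold yp
  constructor
  · rintro ⟨j, μ, ν, i, hμ, hν, e⟩
    have h1 := congrArg (xz hb (β y)) e
    rw [xz_mul, xz_mul, xz_mul, xz_pow, xz_par hb hyT hμ, xz_par hb hyT hν,
      xz_pow_ne hb hyz] at h1
    have h3 : j = - xz hb (β y) k := by linarith
    rw [← zpow_neg, ← h3]
    exact ⟨μ, ν, i, hμ, hν, e⟩
  · intro h
    refine ⟨-(xz hb (β y) k), ?_⟩
    rw [zpow_neg]
    exact h

theorem D3_shift {T : Finset ι} {y z : Fin n} (k : AR m) :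
    (∃ j : ℤ, D1 hb T z (k * gR m y ^ j)) ↔ D3 hb T z y k := by
  constructor
  · rintro ⟨j, μ, ν, i, hμ, hν, e⟩
    exact ⟨μ, ν, i, -j, hμ, hν, by rw [← e]; group⟩
  · rintro ⟨μ, ν, i, j, hμ, hν, e⟩
    exact ⟨-j, μ, ν, i, hμ, hν, by rw [e]; group⟩

theorem ret_L_shift {y : Fin n} (hy : β y ∈ L) (u : AR m) (j : ℤ) :
    ret hb L (u * gR m y ^ j) = ret hb L u * gR m y ^ j := by
  rw [map_mul, ret_pow_mem hb hy]

theorem ret_yp {y : Fin n} (hy : β y ∈ L) (u : AR m) :
    ret hb L (u * (yp hb y u)⁻¹) = ret hb L u * (yp hb y (ret hb L u))⁻¹ := by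
  unfold yp
  rw [map_mul, map_inv, ret_pow_mem hb hy, xz_ret hb hy]

/-- no point of a dihedral line is near a point -/
theorem nmeet_pt (v' v : (dat hb L x hQ).V) (y : Fin n) (hy : (dat hb L x hQ).e v' y)
    (g h : AR m) :
    (∀ q, (dat hb L x hQ).I q ((dat hb L x hQ).ln v' y hy (pr hb L x hQ g)) →
      ¬ Near (dat hb L x hQ).sys q
        (.pt ((v, (dat hb L x hQ).cls (pr hb L x hQ h)) : (dat hb L x hQ).P))) ↔
    ¬ Ic hb L x hQ y h g ∧ (v' = v → ∀ z : Fin n, (dat hb L x hQ).e v z →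
      (if β z = β y then ¬ D3 hb (com m β L (β x)) z y (ret hb L (h⁻¹ * g)) else
      ¬ D1 hb (com m β L (β x)) z (ret hb L (h⁻¹ * g * (yp hb y (h⁻¹ * g))⁻¹)))) := by
  have hyT := notcom hb L x hQ hy
  have hyL : β y ∈ L := hy.1
  have e0 : ∀ j : ℤ, ret hb L (h⁻¹ * (g * gR m y ^ j)) = ret hb L (h⁻¹ * g) * gR m y ^ j := by
    intro j
    rw [← mul_assoc, ret_L_shift hb L hyL]
  have key : ∀ z : Fin n, (if β z = β y then
      ¬ D3 hb (com m β L (β x)) z y (ret hb L (h⁻¹ * g)) else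
      ¬ D1 hb (com m β L (β x)) z (ret hb L (h⁻¹ * g * (yp hb y (h⁻¹ * g))⁻¹))) ↔
      ∀ j : ℤ, ¬ D1 hb (com m β L (β x)) z (ret hb L (h⁻¹ * g) * gR m y ^ j) := by
    intro z
    rw [← not_exists]
    split_ifs with hzy
    · rw [D3_shift]
    · rw [D1_shift hb hyT hzy, ret_yp hb L hyL]
  simp only [key]
  constructor
  · intro H
    refine ⟨?_, ?_⟩
    · rintro ⟨j, hj⟩
      refine H _ ((dat hb L x hQ).I_mk v' y hy (pr hb L x hQ g) j) ?_
      rw [pr_t, near_pt]
      exact Or.inl hj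
    · rintro rfl z hz j hD
      refine H _ ((dat hb L x hQ).I_mk v' y hy (pr hb L x hQ g) j) ?_
      rw [pr_t, near_pt]
      refine Or.inr ⟨rfl, z, hz, ?_⟩
      rw [e0]
      exact hD
  · rintro ⟨H1, H2⟩ q hq hn
    obtain ⟨j, rfl⟩ := ((dat hb L x hQ).I_iff v' y hy _ q).1 hq
    rw [pr_t, near_pt] at hn
    rcases hn with hn | ⟨hv, z, hz, hn⟩
    · exact H1 ⟨j, hn⟩
    · rw [e0] at hn
      exact H2 hv z hz j hn

/-- no point of a dihedral line is on another dihedral line -/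
theorem nmeet_ln (v' v : (dat hb L x hQ).V) (y z : Fin n) (hy : (dat hb L x hQ).e v' y)
    (hz : (dat hb L x hQ).e v z) (g h : AR m) :
    (∀ q, (dat hb L x hQ).I q ((dat hb L x hQ).ln v' y hy (pr hb L x hQ g)) →
      ¬ (dat hb L x hQ).I q ((dat hb L x hQ).ln v z hz (pr hb L x hQ h))) ↔
    (v' = v → (if β z = β y then ¬ D2 hb (com m β L (β x)) z y (ret hb L (h⁻¹ * g)) else
      ¬ Ic hb L x hQ z (g * (yp hb y (h⁻¹ * g))⁻¹) h)) := by
  have hyT := notcom hb L x hQ hy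
  have hyL : β y ∈ L := hy.1
  have hzL : β z ∈ L := hz.1
  have e0 : ∀ j : ℤ, ret hb L (h⁻¹ * (g * gR m y ^ j)) = ret hb L (h⁻¹ * g) * gR m y ^ j := by
    intro j
    rw [← mul_assoc, ret_L_shift hb L hyL]
  have key : (if β z = β y then ¬ D2 hb (com m β L (β x)) z y (ret hb L (h⁻¹ * g)) else
      ¬ Ic hb L x hQ z (g * (yp hb y (h⁻¹ * g))⁻¹) h) ↔
      ∀ j : ℤ, ¬ Ic hb L x hQ z (g * gR m y ^ j) h := by
    rw [← not_exists]
    split_ifs with hzy
    · refine not_congr ?_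
      constructor
      · rintro ⟨ν, i, j, hν, e⟩
        refine ⟨-j, ?_⟩
        rw [Ic_ex hb L x hQ z hzL]
        refine ⟨i, ν, hν, ?_⟩
        rw [e0, e]
        group
      · rintro ⟨j, hj⟩
        rw [Ic_ex hb L x hQ z hzL] at hj
        obtain ⟨i, ν, hν, e⟩ := hj
        rw [e0] at e
        exact ⟨ν, i, -j, hν, by rw [← e]; group⟩
    · refine not_congr ?_
      constructor
      · intro hi
        refine ⟨-(xz hb (β y) (h⁻¹ * g)), ?_⟩
        rw [zpow_neg]
        exact hi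
      · rintro ⟨j, hj⟩
        have hj' := hj
        rw [Ic_ex hb L x hQ z hzL] at hj
        obtain ⟨i, ν, hν, e⟩ := hj
        rw [e0] at e
        have h1 := congrArg (xz hb (β y)) e
        rw [xz_mul, xz_mul, xz_pow, xz_par hb hyT hν, xz_pow_ne hb hzy, xz_ret hb hyL] at h1
        have h3 : j = - xz hb (β y) (h⁻¹ * g) := by linarith
        rw [h3, zpow_neg] at hj'
        exact hj'
  rw [key]
  constructor
  · rintro H rfl j hj
    refine H _ ((dat hb L x hQ).I_mk v' y hy (pr hb L x hQ g) j) ?_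
    rw [pr_t, I_pr]
    exact ⟨rfl, hj⟩
  · intro H q hq hn
    obtain ⟨j, rfl⟩ := ((dat hb L x hQ).I_iff v' y hy _ q).1 hq
    rw [pr_t, I_pr] at hn
    exact H hn.1 j hn.2

theorem HL_iff (v : (dat hb L x hQ).V) (y : Fin n) (hy : (dat hb L x hQ).e v y) (u : AR m) :
    pr hb L x hQ u ∈ (dat hb L x hQ).HL y ↔
      ret hb (com m β L (β x)) ((yp hb y u)⁻¹ * u) = ret hb L ((yp hb y u)⁻¹ * u) ∧
      ret hb L (((yp hb y u)⁻¹ * u) * gR m y) = ret hb L (gR m y * ((yp hb y u)⁻¹ * u)) := by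
  have hyL : β y ∈ L := hy.1
  have hyT := notcom hb L x hQ hy
  have ht : inc hb L x hQ ((dat hb L x hQ).t y) = gR m y := ret_gen_mem hb hyL
  constructor
  · rintro ⟨i, ν, hν, hcm, e⟩
    have e1 := congrArg (inc hb L x hQ) e
    rw [inc_pr, map_mul, map_zpow, ht] at e1
    have hν' : inc hb L x hQ ν ∈ Par hb (com m β L (β x)) := Subgroup.mem_subgroupOf.1 hν
    have h1 : yp hb y u = gR m y ^ i := by
      unfold yp
      rw [← xz_ret hb hyL, e1, xz_mul, xz_pow, xz_par hb hyT hν', add_zero]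
    have h2 : ret hb L ((yp hb y u)⁻¹ * u) = inc hb L x hQ ν := by
      rw [map_mul, map_inv, h1, ret_pow_mem hb hyL, e1, inv_mul_cancel_left]
    refine ⟨?_, ?_⟩
    · rw [← ret_sub hb (com_sub L (β x)), h2]
      exact hν'
    · rw [map_mul (ret hb L) ((yp hb y u)⁻¹ * u) (gR m y),
        map_mul (ret hb L) (gR m y) ((yp hb y u)⁻¹ * u), h2, ret_gen_mem hb hyL, ← ht,
        ← map_mul, ← map_mul, hcm.eq]
  · rintro ⟨h1, h2⟩
    refine ⟨xz hb (β y) u, pr hb L x hQ ((yp hb y u)⁻¹ * u), ?_, ?_, ?_⟩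
    · apply Subgroup.mem_subgroupOf.2
      show ret hb (com m β L (β x)) (ret hb L ((yp hb y u)⁻¹ * u)) =
        ret hb L ((yp hb y u)⁻¹ * u)
      rw [ret_sub hb (com_sub L (β x))]
      exact h1
    · show pr hb L x hQ _ * pr hb L x hQ (gR m y) = pr hb L x hQ (gR m y) * pr hb L x hQ _
      rw [← map_mul, ← map_mul]
      exact Subtype.ext h2
    · have h3 : (dat hb L x hQ).t y ^ (xz hb (β y) u) =
          pr hb L x hQ (gR m y ^ (xz hb (β y) u)) := by
        rw [map_zpow]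
        rfl
      rw [h3, ← map_mul]
      unfold yp
      rw [mul_inv_cancel_left]

end sem

section re

variable {n : ℕ} {ι : Type} [DecidableEq ι] {m : Fin n → Fin n → ℕ} {β : Fin n → ι}
  (hb : Blk m β) (hB : ∀ X, ComputablePred fun u : W (Fin n) => ret hb {X} (ev (gR m) u) = 1)
  (L : Finset ι) (x : Fin n)
  (hQ : ∀ Y ∈ L, Y ∉ com m β L (β x) → QQ hb (com m β L (β x)) Y) (hN : NN hb L)
  (hV : ∀ z : Fin n, β z ∈ L → β z ∉ com m β L (β x) →
    VR hb (com m β L (β x)) z (hQA hb (com m β L (β x)) z))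
  {α : Type} [Primcodable α]

/-- states given by computable words -/
def StF (f : α → St (dat hb L x hQ).sys) : Prop :=
  (∀ a, f a = .none) ∨
  (∃ (v : (dat hb L x hQ).V) (ψ : α → AR m), CG m ψ ∧
    ∀ a, f a = .pt ((v, (dat hb L x hQ).cls (pr hb L x hQ (ψ a))) : (dat hb L x hQ).P)) ∨
  (∃ (ψ : α → AR m), CG m ψ ∧
    ∀ a, f a = .ln ((dat hb L x hQ).bl ((dat hb L x hQ).cls (pr hb L x hQ (ψ a))))) ∨
  (∃ (v : (dat hb L x hQ).V) (z : Fin n) (hz : (dat hb L x hQ).e v z) (ψ : α → AR m),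
    CG m ψ ∧ ∀ a, f a = .ln ((dat hb L x hQ).ln v z hz (pr hb L x hQ (ψ a))))

theorem re_D1 {T : Finset ι} {z : Fin n} {φ : α → AR m} (h1 : CG m φ) :
    REPred fun a => D1 hb T z (φ a) := by
  have h2 : REPred fun a => ∃ (j : ℤ) (g1 g3 : AR m),
      φ a = ret hb T g1 * gR m z ^ j * ret hb T g3 := by
    refine re_exZ (P := fun (a : α) (j : ℤ) => ∃ (g1 g3 : AR m),
      φ a = ret hb T g1 * gR m z ^ j * ret hb T g3) ?_
    refine re_exG (P := fun (p : α × (ℕ × ℕ)) (g1 : AR m) => ∃ g3 : AR m,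
      φ p.1 = ret hb T g1 * gR m z ^ ((p.2.1 : ℤ) - (p.2.2 : ℤ)) * ret hb T g3) ?_
    refine re_exG (P := fun (p : (α × (ℕ × ℕ)) × W (Fin n)) (g3 : AR m) =>
      φ p.1.1 = ret hb T (ev (gR m) p.2) * gR m z ^ ((p.1.2.1 : ℤ) - (p.1.2.2 : ℤ)) *
        ret hb T g3) ?_
    have p0 : CG m fun p : ((α × (ℕ × ℕ)) × W (Fin n)) × W (Fin n) => φ p.1.1.1 :=
      h1.comp (Computable.fst.comp (Computable.fst.comp Computable.fst))
    have p1 : CG m fun p : ((α × (ℕ × ℕ)) × W (Fin n)) × W (Fin n) => ev (gR m) p.1.2 :=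
      CG.word (Computable.snd.comp Computable.fst)
    have p2 : CG m fun p : ((α × (ℕ × ℕ)) × W (Fin n)) × W (Fin n) =>
        gR m z ^ ((p.1.1.2.1 : ℤ) - (p.1.1.2.2 : ℤ)) :=
      (cg_zpow z).comp (Computable.snd.comp (Computable.fst.comp Computable.fst))
    have p3 : CG m fun p : ((α × (ℕ × ℕ)) × W (Fin n)) × W (Fin n) => ev (gR m) p.2 :=
      CG.word Computable.snd
    exact re_eqG p0 (((p1.ret hb T).mul p2).mul (p3.ret hb T))
  refine h2.of_eq fun a => ?_
  constructor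
  · rintro ⟨j, g1, g3, e⟩
    exact ⟨ret hb T g1, ret hb T g3, j, ret_mem hb T _, ret_mem hb T _, e⟩
  · rintro ⟨μ, ν, j, hμ, hν, e⟩
    refine ⟨j, μ, ν, ?_⟩
    have hμ' : ret hb T μ = μ := hμ
    have hν' : ret hb T ν = ν := hν
    rw [hμ', hν', e]

variable {hQ}

/-- being near is r.e. -/
theorem re_near {f : α → St (dat hb L x hQ).sys} (hf : StF hb L x hQ f)
    (v' : (dat hb L x hQ).V) {φ : α → AR m} (h1 : CG m φ) :
    REPred fun a => Near (dat hb L x hQ).sys
      ((v', (dat hb L x hQ).cls (pr hb L x hQ (φ a))) : (dat hb L x hQ).P) (f a) := by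
  rcases hf with hf | ⟨v, ψ, h2, hf⟩ | ⟨ψ, h2, hf⟩ | ⟨v, z, hz, ψ, h2, hf⟩
  · exact re_false.of_eq fun a => by rw [hf]; exact Iff.rfl
  · have e1 := re_cls hb L x hQ h2 h1
    have hv := h2.iv.mul h1
    have e2 := re_ex_fin (fun (z : Fin n) (a : α) => (dat hb L x hQ).e v z ∧
      D1 hb (com m β L (β x)) z (ret hb L ((ψ a)⁻¹ * φ a)))
      (fun z => re_and (re_const _) (re_D1 hb (hv.ret hb L)))
    refine (re_or e1 (re_and (re_const (v' = v)) e2)).of_eq fun a => ?_
    rw [hf, near_pt]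
  · refine (re_cls hb L x hQ h1 h2).of_eq fun a => ?_
    rw [hf]
    exact Iff.rfl
  · refine (re_and (re_const (v' = v)) (re_Ic hb L x hQ z hz.1 (notcom hb L x hQ hz) h1
      h2)).of_eq fun a => ?_
    rw [hf]
    exact (I_pr hb L x hQ v v' z hz (φ a) (ψ a)).symm

include hB hN hV in
/-- not being near is r.e. -/
theorem re_nnear {f : α → St (dat hb L x hQ).sys} (hf : StF hb L x hQ f)
    (v' : (dat hb L x hQ).V) {φ : α → AR m} (h1 : CG m φ) :
    REPred fun a => ¬ Near (dat hb L x hQ).sys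
      ((v', (dat hb L x hQ).cls (pr hb L x hQ (φ a))) : (dat hb L x hQ).P) (f a) := by
  rcases hf with hf | ⟨v, ψ, h2, hf⟩ | ⟨ψ, h2, hf⟩ | ⟨v, z, hz, ψ, h2, hf⟩
  · exact re_true.of_eq fun a => by rw [hf]; exact ⟨fun _ h => h, fun _ => trivial⟩
  · have e1 := re_ncls hb L x hQ hN h2 h1
    have hv := h2.iv.mul h1
    have e2 := re_all_fin (fun (z : Fin n) (a : α) => ¬ ((dat hb L x hQ).e v z ∧
      D1 hb (com m β L (β x)) z (ret hb L ((ψ a)⁻¹ * φ a)))) (fun z => by
        by_cases hz : (dat hb L x hQ).e v z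
        · have hzT := notcom hb L x hQ hz
          have h4 := re_nD1 hb hB L (com m β L (β x)) z (com_sub L (β x)) hz.1 hzT
            (hQA hb _ z) hN (hV z hz.1 hzT) (hv.ret hb L)
            (fun a => by rw [ret_ret, Finset.inter_self])
          exact h4.of_eq fun a => ⟨fun h h' => h h'.2, fun h h' => h ⟨hz, h'⟩⟩
        · exact re_true.of_eq fun a => ⟨fun _ h => hz h.1, fun _ => trivial⟩)
    refine (re_and e1 (re_or (re_const (v' ≠ v)) e2)).of_eq fun a => ?_
    rw [hf, near_pt, not_or, not_and_or, not_exists]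
  · refine (re_ncls hb L x hQ hN h1 h2).of_eq fun a => ?_
    rw [hf]
    exact Iff.rfl
  · refine (re_or (re_const (v' ≠ v)) (re_nIc hb L x hQ hN z hz.1 (notcom hb L x hQ hz) h1
      h2)).of_eq fun a => ?_
    rw [hf]
    have h3 := I_pr hb L x hQ v v' z hz (φ a) (ψ a)
    rw [← not_and_or]
    exact (not_congr h3).symm

include hN in
/-- a block line not in the state -/
theorem re_nInD_bl {f : α → St (dat hb L x hQ).sys} (hf : StF hb L x hQ f)
    {φ : α → AR m} (h1 : CG m φ) :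
    REPred fun a => ¬ InD (dat hb L x hQ).sys
      ((dat hb L x hQ).bl ((dat hb L x hQ).cls (pr hb L x hQ (φ a)))) (f a) := by
  rcases hf with hf | ⟨v, ψ, h2, hf⟩ | ⟨ψ, h2, hf⟩ | ⟨v, z, hz, ψ, h2, hf⟩
  · exact re_true.of_eq fun a => by rw [hf]; exact ⟨fun _ h => h, fun _ => trivial⟩
  · refine (re_ncls hb L x hQ hN h2 h1).of_eq fun a => ?_
    rw [hf]
    exact Iff.rfl
  · refine (re_ncls hb L x hQ hN h1 h2).of_eq fun a => ?_
    rw [hf]
    refine not_congr ⟨fun h => ?_, fun h => ?_⟩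
    · show (dat hb L x hQ).bl _ = (dat hb L x hQ).bl _
      rw [h]
    · exact Sum.inl.inj h
  · refine re_true.of_eq fun a => ?_
    rw [hf]
    refine ⟨fun _ h => ?_, fun _ => trivial⟩
    have h3 : (dat hb L x hQ).bl ((dat hb L x hQ).cls (pr hb L x hQ (φ a))) =
      (dat hb L x hQ).ln v z hz (pr hb L x hQ (ψ a)) := h
    cases h3

include hN in
/-- a dihedral line not in the state -/
theorem re_nInD_dh {f : α → St (dat hb L x hQ).sys} (hf : StF hb L x hQ f)
    (v' : (dat hb L x hQ).V) (y : Fin n) (hy : (dat hb L x hQ).e v' y)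
    {φ : α → AR m} (h1 : CG m φ) :
    REPred fun a => ¬ InD (dat hb L x hQ).sys
      ((dat hb L x hQ).ln v' y hy (pr hb L x hQ (φ a))) (f a) := by
  rcases hf with hf | ⟨v, ψ, h2, hf⟩ | ⟨ψ, h2, hf⟩ | ⟨v, z, hz, ψ, h2, hf⟩
  · exact re_true.of_eq fun a => by rw [hf]; exact ⟨fun _ h => h, fun _ => trivial⟩
  · refine (re_or (re_const (v ≠ v')) (re_nIc hb L x hQ hN y hy.1 (notcom hb L x hQ hy) h2
      h1)).of_eq fun a => ?_
    rw [hf]
    have h3 := I_pr hb L x hQ v' v y hy (ψ a) (φ a)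
    rw [← not_and_or]
    exact (not_congr h3).symm
  · refine re_true.of_eq fun a => ?_
    rw [hf]
    refine ⟨fun _ h => ?_, fun _ => trivial⟩
    have h3 : (dat hb L x hQ).ln v' y hy (pr hb L x hQ (φ a)) =
      (dat hb L x hQ).bl ((dat hb L x hQ).cls (pr hb L x hQ (ψ a))) := h
    cases h3
  · by_cases hvy : (v', y) = (v, z)
    · obtain ⟨rfl, rfl⟩ := Prod.mk.inj hvy
      have hu := h1.iv.mul h2
      have hv := ((hu.yp hb y).iv).mul hu
      have e1 := re_neG hN (hv.ret hb (com m β L (β x))) hv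
      have e2 := re_neG hN (hv.mul (CG.const (gR m y))) ((CG.const (gR m y)).mul hv)
      refine (re_or e1 e2).of_eq fun a => ?_
      rw [hf, ret_sub' hb (com_sub L (β x)), ← not_and_or]
      refine not_congr ?_
      have h4 := HL_iff hb L x hQ v' y hy ((φ a)⁻¹ * ψ a)
      refine h4.symm.trans ?_
      rw [map_mul, map_inv]
      exact ((dat hb L x hQ).ln_eq v' y hy _ _).symm
    · refine re_true.of_eq fun a => ?_
      rw [hf]
      refine ⟨fun _ h => ?_, fun _ => trivial⟩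
      have h4 : (dat hb L x hQ).ln v' y hy (pr hb L x hQ (φ a)) =
        (dat hb L x hQ).ln v z hz (pr hb L x hQ (ψ a)) := h
      unfold Dat.ln at h4
      have h5 := Sum.inr.inj h4
      rw [Sigma.mk.injEq] at h5
      exact hvy (congrArg Subtype.val h5.1)

include hB hN hV in
/-- no point of a block line is near the state -/
theorem re_nmeet_bl {f : α → St (dat hb L x hQ).sys} (hf : StF hb L x hQ f)
    {φ : α → AR m} (h1 : CG m φ) :
    REPred fun a => ∀ q, (dat hb L x hQ).I q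
      ((dat hb L x hQ).bl ((dat hb L x hQ).cls (pr hb L x hQ (φ a)))) →
      ¬ Near (dat hb L x hQ).sys q (f a) := by
  haveI : Fintype (dat hb L x hQ).V := inferInstanceAs (Fintype {s : Fin n // β s = β x})
  refine (re_all_fin (fun (v' : (dat hb L x hQ).V) (a : α) => ¬ Near (dat hb L x hQ).sys
      ((v', (dat hb L x hQ).cls (pr hb L x hQ (φ a))) : (dat hb L x hQ).P) (f a))
      (fun v' => re_nnear hb hB L x hN hV hf v' h1)).of_eq fun a => ?_
  constructor
  · rintro H ⟨v', q⟩ hq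
    have hq' : q = (dat hb L x hQ).cls (pr hb L x hQ (φ a)) := hq
    rw [hq']
    exact H v'
  · intro H v'
    exact H _ rfl

include hB hN hV in
/-- no point of a dihedral line is near the state -/
theorem re_nmeet_dh {f : α → St (dat hb L x hQ).sys} (hf : StF hb L x hQ f)
    (v' : (dat hb L x hQ).V) (y : Fin n) (hy : (dat hb L x hQ).e v' y)
    {φ : α → AR m} (h1 : CG m φ) :
    REPred fun a => ∀ q, (dat hb L x hQ).I q
      ((dat hb L x hQ).ln v' y hy (pr hb L x hQ (φ a))) →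
      ¬ Near (dat hb L x hQ).sys q (f a) := by
  have hyT := notcom hb L x hQ hy
  rcases hf with hf | ⟨v, ψ, h2, hf⟩ | ⟨ψ, h2, hf⟩ | ⟨v, z, hz, ψ, h2, hf⟩
  · exact re_true.of_eq fun a => by rw [hf]; exact ⟨fun _ q _ h => h, fun _ => trivial⟩
  · have hv := h2.iv.mul h1
    have e2 := re_all_fin (fun (z : Fin n) (a : α) => (dat hb L x hQ).e v z →
      (if β z = β y then ¬ D3 hb (com m β L (β x)) z y (ret hb L ((ψ a)⁻¹ * φ a)) else
      ¬ D1 hb (com m β L (β x)) z
        (ret hb L ((ψ a)⁻¹ * φ a * (yp hb y ((ψ a)⁻¹ * φ a))⁻¹))))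
      (fun z => by
        by_cases hz : (dat hb L x hQ).e v z
        · have hzT := notcom hb L x hQ hz
          by_cases hzy : β z = β y
          · have h4 := re_nD3 hb hB L (com m β L (β x)) z (com_sub L (β x)) hz.1 hzT
              (hQA hb _ z) hN (hV z hz.1 hzT) y hzy.symm (hv.ret hb L)
              (fun a => by rw [ret_ret, Finset.inter_self])
            exact h4.of_eq fun a => ⟨fun h _ => by rw [if_pos hzy]; exact h,
              fun h => by have h5 := h hz; rwa [if_pos hzy] at h5⟩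
          · have h4 := re_nD1 hb hB L (com m β L (β x)) z (com_sub L (β x)) hz.1 hzT
              (hQA hb _ z) hN (hV z hz.1 hzT) ((hv.mul (hv.yp hb y).iv).ret hb L)
              (fun a => by rw [ret_ret, Finset.inter_self])
            exact h4.of_eq fun a => ⟨fun h _ => by rw [if_neg hzy]; exact h,
              fun h => by have h5 := h hz; rwa [if_neg hzy] at h5⟩
        · exact re_true.of_eq fun a => ⟨fun _ h => absurd h hz, fun _ => trivial⟩)
    have e1 := re_nIc hb L x hQ hN y hy.1 hyT h2 h1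
    refine (re_and e1 (re_or (re_const (v' ≠ v)) e2)).of_eq fun a => ?_
    rw [hf, nmeet_pt]
    exact and_congr_right fun _ => ⟨fun h h' => h.resolve_left (fun h3 => h3 h'),
      fun h => by
        by_cases h' : v' = v
        · exact Or.inr (h h')
        · exact Or.inl h'⟩
  · refine (re_nIc hb L x hQ hN y hy.1 hyT h2 h1).of_eq fun a => ?_
    rw [hf]
    constructor
    · intro H q hq hn
      obtain ⟨j, rfl⟩ := ((dat hb L x hQ).I_iff v' y hy _ q).1 hq
      rw [pr_t] at hn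
      have hn' : (dat hb L x hQ).cls (pr hb L x hQ (φ a * gR m y ^ j)) =
        (dat hb L x hQ).cls (pr hb L x hQ (ψ a)) := hn
      exact H ⟨j, hn'.symm⟩
    · rintro H ⟨j, hj⟩
      refine H _ ((dat hb L x hQ).I_mk v' y hy (pr hb L x hQ (φ a)) j) ?_
      rw [pr_t]
      exact hj.symm
  · by_cases hvv : v' = v
    · by_cases hzy : β z = β y
      · have hv := h2.iv.mul h1
        have hzT := notcom hb L x hQ hz
        have h4 := re_nD2 hb hB L (com m β L (β x)) z (com_sub L (β x)) hz.1 hzT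
              (hQA hb _ z) hN (hV z hz.1 hzT) y hzy.symm (hv.ret hb L)
              (fun a => by rw [ret_ret, Finset.inter_self])
        refine h4.of_eq fun a => ?_
        rw [hf]
        have h5 := nmeet_ln hb L x hQ v' v y z hy hz (φ a) (ψ a)
        rw [if_pos hzy] at h5
        exact ⟨fun h => h5.2 (fun _ => h), fun h => h5.1 h hvv⟩
      · have hv := h2.iv.mul h1
        have hg := h1.mul (hv.yp hb y).iv
        refine (re_nIc hb L x hQ hN z hz.1 (notcom hb L x hQ hz) hg h2).of_eq fun a => ?_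
        rw [hf]
        have h5 := nmeet_ln hb L x hQ v' v y z hy hz (φ a) (ψ a)
        rw [if_neg hzy] at h5
        exact ⟨fun h => h5.2 (fun _ => h), fun h => h5.1 h hvv⟩
    · refine re_true.of_eq fun a => ?_
      rw [hf]
      have h5 := nmeet_ln hb L x hQ v' v y z hy hz (φ a) (ψ a)
      exact ⟨fun _ => h5.2 (fun h => absurd h hvv), fun _ => trivial⟩

end re

end Pool.Agent.H87.Brt
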