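import Pool.Agent.H87.Brt.Ad

set_option autoImplicit false

/-! Valid codes are recursively enumerable. -/

namespace Pool.Agent.H87.Brt

open Pool.Agent.H482R3.EA (W inv ev PP xx evF cond1 cond2 Sys St Near InD Adm Act)
open Pool.Agent.H482R3.EB (alt AR gR)
open Pool.Agent.H482R3
open Pool.Agent.H87.Art (ev_nil ev_append ev_cons ev_inv ev_single map_ev re_ex re_and re_comp
  cp_comp re_or re_true re_false re_const re_all_fin re_ex_fin cp_eq re_case re_chain)

section re

variable {n : ℕ} {ι : Type} [DecidableEq ι] {m : Fin n → Fin n → ℕ} {β : Fin n → ι}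
  (hb : Blk m β) (hB : ∀ X, ComputablePred fun u : W (Fin n) => ret hb {X} (ev (gR m) u) = 1)
  (L : Finset ι) (x : Fin n)
  (hQ : ∀ Y ∈ L, Y ∉ com m β L (β x) → QQ hb (com m β L (β x)) Y) (hN : NN hb L)
  (hV : ∀ z : Fin n, β z ∈ L → β z ∉ com m β L (β x) →
    VR hb (com m β L (β x)) z (hQA hb (com m β L (β x)) z))
  {α γ : Type} [Primcodable α] [Primcodable γ]

theorem cp_tot : ComputablePred fun w : W ℕ => EB.tot w ≠ 0 := by
  have h1 : ∀ b : Bool, Primrec fun u : W ℕ => Pool.Agent.H338R.EB.BASB.cn b u := by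
    intro b
    have h : PrimrecPred (fun a : ℕ × Bool => a.2 = b) :=
      Primrec.eq.comp Primrec.snd (Primrec.const b)
    exact Primrec.list_length.comp (Primrec.listFilter h)
  refine ((cp_eq (h1 false).to_comp (h1 true).to_comp).not).of_eq fun w => ?_
  have h2 := Pool.Agent.H338R.EB.BASB.tot_eq w
  refine not_congr ?_
  constructor
  · intro h
    omega
  · intro h
    omega

variable {hQ}

theorem StF.comp {f : α → St (dat hb L x hQ).sys} (hf : StF hb L x hQ f) {g : γ → α}
    (hg : Computable g) : StF hb L x hQ (fun c => f (g c)) := by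
  rcases hf with hf | ⟨v, ψ, h2, hf⟩ | ⟨ψ, h2, hf⟩ | ⟨v, z, hz, ψ, h2, hf⟩
  · exact Or.inl fun c => hf _
  · exact Or.inr (Or.inl ⟨v, _, h2.comp hg, fun c => hf _⟩)
  · exact Or.inr (Or.inr (Or.inl ⟨_, h2.comp hg, fun c => hf _⟩))
  · exact Or.inr (Or.inr (Or.inr ⟨v, z, hz, _, h2.comp hg, fun c => hf _⟩))

include hB hN hV in
/-- admissibility for fixed kinds -/
theorem re_AdS {f : α → St (dat hb L x hQ).sys} (hf : StF hb L x hQ f) (κ : Kw n)
    {φ : α → AR m} (hg : CG m φ) {w : α → W ℕ} (hw : Computable w) :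
    REPred fun a => (dat hb L x hQ).AdS (f a)
      (pr hb L x hQ (φ a), ck hb L x hQ κ, w a) := by
  rcases ck_cases hb L x hQ κ with ⟨h1, _⟩ | ⟨v', hv, h1, _⟩ | ⟨v', hv, y, h, h1, _⟩
  · rw [h1]
    have e1 := re_nInD_bl hb L x hN hf hg
    have e2 := re_nmeet_bl hb hB L x hN hV hf hg
    have e3 : REPred fun a : α => bc1 m β x (w a) := re_comp (cp_b1 hb hB x).to_re hw
    haveI : Fintype (dat hb L x hQ).V := inferInstanceAs (Fintype {s : Fin n // β s = β x})
    have e4 := re_ex_fin (fun (v : (dat hb L x hQ).V) (a : α) => Near (dat hb L x hQ).sys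
      ((v, (dat hb L x hQ).cls (pr hb L x hQ (φ a))) : (dat hb L x hQ).P) (f a) ∧
        bc2 m β x v.1 (w a)) (fun v => re_and (re_near hb L x hf v hg)
          (re_comp (cp_b2 hb hB x v.1 v.2).to_re hw))
    refine (re_and e1 (re_or (re_and e2 e3) e4)).of_eq fun a => ?_
    show _ ↔ (dat hb L x hQ).LAd (f a) _ _
    unfold Dat.LAd
    refine and_congr_right fun _ => or_congr (and_congr_right fun _ => ?_) ?_
    · exact (bl_c1 hb L x hQ _ _).symm
    · constructor
      · rintro ⟨v, h2, h3⟩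
        exact ⟨(v, (dat hb L x hQ).cls (pr hb L x hQ (φ a))), rfl, h2,
          (bl_c2 hb L x hQ _ _ _ _).2 h3⟩
      · rintro ⟨⟨v, q⟩, hq, h2, h3⟩
        have hq' : q = (dat hb L x hQ).cls (pr hb L x hQ (φ a)) := hq
        subst hq'
        exact ⟨v, h2, (bl_c2 hb L x hQ _ _ _ _).1 h3⟩
  · rw [h1]
    exact re_and (re_comp cp_tot.to_re hw) (re_nnear hb hB L x hN hV hf ⟨v', hv⟩ hg)
  · rw [h1]
    have e1 := re_nInD_dh hb L x hN hf ⟨v', hv⟩ y h hg
    have e2 := re_nmeet_dh hb hB L x hN hV hf ⟨v', hv⟩ y h hg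
    have e3 : REPred fun a : α => cond1 (m v' y / 2) (w a) :=
      re_comp (EB.Asm.c1 (m v' y / 2) h.2).to_re hw
    have e4 : REPred fun a : α => ∃ j : ℤ, Near (dat hb L x hQ).sys
        (((⟨v', hv⟩ : {s : Fin n // β s = β x}),
          (dat hb L x hQ).cls (pr hb L x hQ (φ a * gR m y ^ j))) : (dat hb L x hQ).P) (f a) ∧
        cond2 (m v' y / 2) j (w a) := by
      refine re_exZ (P := fun (a : α) (j : ℤ) => Near (dat hb L x hQ).sys
        (((⟨v', hv⟩ : {s : Fin n // β s = β x}),
          (dat hb L x hQ).cls (pr hb L x hQ (φ a * gR m y ^ j))) : (dat hb L x hQ).P) (f a) ∧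
        cond2 (m v' y / 2) j (w a)) (re_and ?_ ?_)
      · exact re_near hb L x (hf.comp hb L x Computable.fst) ⟨v', hv⟩
          ((hg.comp Computable.fst).mul ((cg_zpow y).comp Computable.snd))
      · exact re_comp (EB.Asm.c2 (m v' y / 2) h.2).to_re
          (f := fun q : α × (ℕ × ℕ) => (q.2, w q.1))
          (Computable.snd.pair (hw.comp Computable.fst))
    refine (re_and e1 (re_or (re_and e2 e3) e4)).of_eq fun a => ?_
    show _ ↔ (dat hb L x hQ).LAd (f a) _ _
    unfold Dat.LAd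
    refine and_congr_right fun _ => or_congr (and_congr_right fun _ => ?_) ?_
    · exact ((dat hb L x hQ).dh_c1 (⟨v', hv⟩ : {s : Fin n // β s = β x}) y h _ _).symm
    · constructor
      · rintro ⟨j, h2, h3⟩
        refine ⟨_, (dat hb L x hQ).I_mk (⟨v', hv⟩ : {s : Fin n // β s = β x}) y h _ j, ?_, ?_⟩
        · rw [pr_t]
          exact h2
        · exact ((dat hb L x hQ).dh_c2 (⟨v', hv⟩ : {s : Fin n // β s = β x}) y h _ j _).2 h3
      · rintro ⟨q, hq, h2, h3⟩
        obtain ⟨j, rfl⟩ := ((dat hb L x hQ).I_iff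
          (⟨v', hv⟩ : {s : Fin n // β s = β x}) y h _ q).1 hq
        refine ⟨j, ?_, ?_⟩
        · rw [pr_t] at h2
          exact h2
        · exact ((dat hb L x hQ).dh_c2 (⟨v', hv⟩ : {s : Fin n // β s = β x}) y h _ j _).1 h3

variable (hQ)

/-- the state of a kind of syllable -/
noncomputable def stW (κ : Option (Kw n)) (h : AR m) : St (dat hb L x hQ).sys :=
  match κ with
  | none => .none
  | some o => (dat hb L x hQ).stS (pr hb L x hQ h, ck hb L x hQ o, [])

theorem StF_stW (κ : Option (Kw n)) {φ : α → AR m} (hg : CG m φ) :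
    StF hb L x hQ (fun a => stW hb L x hQ κ (φ a)) := by
  match κ with
  | none => exact Or.inl fun a => rfl
  | some o =>
    rcases ck_cases hb L x hQ o with ⟨h1, _⟩ | ⟨v', hv, h1, _⟩ | ⟨v', hv, y, h, h1, _⟩
    · refine Or.inr (Or.inr (Or.inl ⟨φ, hg, fun a => ?_⟩))
      unfold stW
      simp only
      rw [h1]
      rfl
    · refine Or.inr (Or.inl ⟨⟨v', hv⟩, φ, hg, fun a => ?_⟩)
      unfold stW
      simp only
      rw [h1]
      rfl
    · refine Or.inr (Or.inr (Or.inr ⟨⟨v', hv⟩, y, h, φ, hg, fun a => ?_⟩))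
      unfold stW
      simp only
      rw [h1]
      rfl

theorem stS_w (b : (dat hb L x hQ).B) (o : Kd (dat hb L x hQ)) (w w' : W ℕ) :
    (dat hb L x hQ).stS (b, o, w) = (dat hb L x hQ).stS (b, o, w') := by
  cases o <;> rfl

/-- the kinds of a pair of syllables -/
def kd (p : Option (Syw n) × Syw n) : Option (Kw n) × Kw n :=
  (p.1.map fun b => b.2.1, p.2.2.1)

/-- the words of a pair of syllables -/
def wd (p : Option (Syw n) × Syw n) : (W (Fin n) × W (Fin n)) × W ℕ :=
  (((p.1.map fun b => b.1).getD [], p.2.1), p.2.2.2)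

theorem kd_comp : Computable (kd (n := n)) := by
  apply Primrec.to_comp
  exact Primrec.pair (Primrec.option_map Primrec.fst
    (Primrec.fst.comp (Primrec.snd.comp Primrec.snd)).to₂)
    (Primrec.fst.comp (Primrec.snd.comp Primrec.snd))

theorem wd_comp : Computable (wd (n := n)) := by
  apply Primrec.to_comp
  refine Primrec.pair (Primrec.pair ?_ (Primrec.fst.comp Primrec.snd))
      (Primrec.snd.comp (Primrec.snd.comp Primrec.snd))
  exact Primrec.option_getD.comp (Primrec.option_map Primrec.fst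
        (Primrec.fst.comp Primrec.snd).to₂) (Primrec.const [])

/-- admissibility with words -/
def AdK (κ : Option (Kw n)) (o : Kw n) (p : (W (Fin n) × W (Fin n)) × W ℕ) : Prop :=
  (dat hb L x hQ).AdS (stW hb L x hQ κ (ev (gR m) p.1.1))
    (pr hb L x hQ (ev (gR m) p.1.2), ck hb L x hQ o, p.2)

include hB hN hV in
/-- valid codes are recursively enumerable -/
theorem VR_all : VR hb L x hQ := by
  have h0 : ∀ k : Option (Kw n) × Kw n, REPred (AdK hb L x hQ k.1 k.2) := by
    intro k
    exact re_AdS hb hB L x hN hV (StF_stW hb L x hQ k.1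
      (CG.word (m := m) (Computable.fst.comp Computable.fst))) k.2
      (CG.word (Computable.snd.comp Computable.fst)) Computable.snd
  have h1 : REPred fun p : Option (Syw n) × Syw n =>
      AdK hb L x hQ (kd p).1 (kd p).2 (wd p) :=
    re_case kd kd_comp (fun k p => AdK hb L x hQ k.1 k.2 (wd p)) fun k =>
      re_comp (h0 k) wd_comp
  refine re_chain (fun s a => AdK hb L x hQ (kd (s, a)).1 (kd (s, a)).2 (wd (s, a))) h1 _
    trivial ?_
  intro a C
  show (dat hb L x hQ).AdS ((dat hb L x hQ).stC (C.map (conv hb L x hQ)))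
    (conv hb L x hQ a) ∧ _ ↔ _
  refine and_congr_left fun _ => ?_
  cases C with
  | nil => exact Iff.rfl
  | cons b C =>
    have h2 : (dat hb L x hQ).stC ((b :: C).map (conv hb L x hQ)) =
        stW hb L x hQ (some b.2.1) (ev (gR m) b.1) := stS_w hb L x hQ _ _ _ _
    rw [h2]
    exact Iff.rfl

end re

end Pool.Agent.H87.Brt
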