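import Pool.Agent.H87.Art.Bas

set_option autoImplicit false

/-! Artin groups with blocks of generators: retractions, exponents. -/

namespace Pool.Agent.H87.Brt

open Pool.Agent.H482R3.EA (W inv ev)
open Pool.Agent.H482R3.EB (alt AR gR)
open Pool.Agent.H482R3
open Pool.Agent.H87.Art (ev_nil ev_append ev_cons ev_inv ev_single map_ev)

section alt

variable {S G : Type} [Group G]

theorem alt_even (f : S → G) (s t : S) (k : ℕ) :
    ((alt s t (2 * k)).map f).prod = (f s * f t) ^ k := by
  induction k with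
  | zero => simp [alt]
  | succ k ih =>
    have h : 2 * (k + 1) = (2 * k + 1) + 1 := by ring
    rw [h]
    simp only [alt, List.map_cons, List.prod_cons]
    rw [ih, pow_succ', mul_assoc]

theorem alt_same (f : S → G) (n : ℕ) : ∀ s t : S, f s = f t →
    ((alt s t n).map f).prod = f s ^ n := by
  induction n with
  | zero => intro s t _; simp [alt]
  | succ n ih =>
    intro s t h
    simp only [alt, List.map_cons, List.prod_cons]
    rw [ih t s h.symm, pow_succ', h]

end alt

/-- blocks of generators: cross labels are even or infinite (`0`), and homogeneous -/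
structure Blk {S ι : Type} (m : S → S → ℕ) (β : S → ι) : Prop where
  dg : ∀ s, m s s = 1
  sy : ∀ s t, m s t = m t s
  ne : ∀ s t, s ≠ t → m s t ≠ 1
  ev : ∀ s t, β s ≠ β t → Even (m s t)
  ho : ∀ s t s' t', β s = β s' → β t = β t' → β s ≠ β t → m s t = 2 → m s' t' = 2

section ea

variable {S ι : Type} {m : S → S → ℕ} {β : S → ι}

theorem gen_rel (s t : S) (h : s ≠ t) (h0 : m s t ≠ 0) :
    ((alt s t (m s t)).map (gR m)).prod = ((alt t s (m s t)).map (gR m)).prod :=
  EB.t_RELR.1 S m s t h h0

/-- the universal property -/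
noncomputable def liftR {G : Type} [Group G] (f : S → G)
    (hf : ∀ s t, s ≠ t → m s t ≠ 0 →
      ((alt s t (m s t)).map f).prod = ((alt t s (m s t)).map f).prod) : AR m →* G :=
  (EB.t_LIFTR S G inferInstance m f hf).choose

theorem liftR_gen {G : Type} [Group G] (f : S → G)
    (hf : ∀ s t, s ≠ t → m s t ≠ 0 →
      ((alt s t (m s t)).map f).prod = ((alt t s (m s t)).map f).prod) (s : S) :
    liftR f hf (gR m s) = f s := (EB.t_LIFTR S G inferInstance m f hf).choose_spec.1 s

theorem ar_ext {G : Type} [Group G] (φ ψ : AR m →* G)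
    (h : ∀ s, φ (gR m s) = ψ (gR m s)) : φ = ψ := PresentedGroup.ext h

theorem ev_surj (g : AR m) : ∃ u : W S, ev (gR m) u = g := EB.t_SUR S m g

variable [DecidableEq ι]

omit [DecidableEq ι] in
theorem cross_rel {G : Type} [Group G] (hb : Blk m β) (f : S → G) (s t : S)
    (h : β s ≠ β t) (h1 : f s = 1 ∨ f t = 1) :
    ((alt s t (m s t)).map f).prod = ((alt t s (m s t)).map f).prod := by
  obtain ⟨k, hk⟩ := hb.ev s t h
  rw [show m s t = 2 * k by omega, alt_even, alt_even]
  rcases h1 with h1 | h1
  · rw [h1, one_mul, mul_one]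
  · rw [h1, one_mul, mul_one]

/-- the retraction onto the parabolic subgroup of the blocks in `L` -/
noncomputable def ret (hb : Blk m β) (L : Finset ι) : AR m →* AR m :=
  liftR (fun s => if β s ∈ L then gR m s else 1) (by
    intro s t h h0
    by_cases e : β s = β t
    · by_cases h1 : β s ∈ L
      · have h2 : β t ∈ L := e ▸ h1
        have key : ∀ u : List S, (∀ a ∈ u, β a ∈ L) →
            (u.map (fun s => if β s ∈ L then gR m s else 1)).prod = (u.map (gR m)).prod := by
          intro u hu
          congr 1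
          refine List.map_congr_left fun a ha => ?_
          rw [if_pos (hu a ha)]
        have hm : ∀ (n : ℕ) (s t : S), β s ∈ L → β t ∈ L → ∀ a ∈ alt s t n, β a ∈ L := by
          intro n
          induction n with
          | zero => intro s t _ _ a ha; simp [alt] at ha
          | succ n ih =>
            intro s t hs ht a ha
            simp only [alt, List.mem_cons] at ha
            rcases ha with rfl | ha
            · exact hs
            · exact ih t s ht hs a ha
        rw [key _ (hm _ s t h1 h2), key _ (hm _ t s h2 h1), gen_rel s t h h0]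
      · have h2 : β t ∉ L := fun h => h1 (e ▸ h)
        have e1 : (if β s ∈ L then gR m s else 1) = (if β t ∈ L then gR m t else 1) := by
          rw [if_neg h1, if_neg h2]
        rw [alt_same _ _ s t e1, alt_same _ _ t s e1.symm, e1]
    · by_cases h1 : β s ∈ L
      · by_cases h2 : β t ∈ L
        · obtain ⟨k, hk⟩ := hb.ev s t e
          have h3 := gen_rel s t h h0
          rw [show m s t = 2 * k by omega, alt_even, alt_even] at h3 ⊢
          rw [if_pos h1, if_pos h2, h3]
        · exact cross_rel hb _ s t e (Or.inr (if_neg h2))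
      · exact cross_rel hb _ s t e (Or.inl (if_neg h1)))

variable (hb : Blk m β)

theorem ret_gen (L : Finset ι) (s : S) :
    ret hb L (gR m s) = if β s ∈ L then gR m s else 1 := liftR_gen _ _ s

theorem ret_gen_mem {L : Finset ι} {s : S} (h : β s ∈ L) : ret hb L (gR m s) = gR m s := by
  rw [ret_gen, if_pos h]

theorem ret_gen_not {L : Finset ι} {s : S} (h : β s ∉ L) : ret hb L (gR m s) = 1 := by
  rw [ret_gen, if_neg h]

theorem ret_ret (L M : Finset ι) (g : AR m) : ret hb L (ret hb M g) = ret hb (L ∩ M) g := by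
  have h : (ret hb L).comp (ret hb M) = ret hb (L ∩ M) := by
    refine ar_ext _ _ fun s => ?_
    rw [MonoidHom.comp_apply, ret_gen, ret_gen hb (L ∩ M)]
    by_cases h1 : β s ∈ M
    · rw [if_pos h1, ret_gen]
      by_cases h2 : β s ∈ L
      · rw [if_pos h2, if_pos (Finset.mem_inter.2 ⟨h2, h1⟩)]
      · rw [if_neg h2, if_neg (fun h => h2 (Finset.mem_inter.1 h).1)]
    · rw [if_neg h1, if_neg (fun h => h1 (Finset.mem_inter.1 h).2), map_one]
  exact DFunLike.congr_fun h g

/-- the subword of the letters in the blocks of `L` -/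
def fl (β : S → ι) (L : Finset ι) (u : W S) : W S := u.filter (fun a => decide (β a.1 ∈ L))

theorem ret_ev (L : Finset ι) (u : W S) : ret hb L (ev (gR m) u) = ev (gR m) (fl β L u) := by
  induction u with
  | nil => simp [fl, ev_nil]
  | cons a u ih =>
    rw [ev_cons, map_mul, ih]
    unfold fl
    by_cases h : β a.1 ∈ L
    · rw [List.filter_cons_of_pos (by simpa using h), ev_cons]
      congr 1
      split_ifs
      · exact ret_gen_mem hb h
      · rw [map_inv, ret_gen_mem hb h]
    · rw [List.filter_cons_of_neg (by simpa using h)]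
      split_ifs
      · rw [ret_gen_not hb h, one_mul]
      · rw [map_inv, ret_gen_not hb h, inv_one, one_mul]

/-- the parabolic subgroup of `L` -/
noncomputable def Par (L : Finset ι) : Subgroup (AR m) :=
  MonoidHom.eqLocus (ret hb L) (MonoidHom.id _)

theorem mem_Par (L : Finset ι) (g : AR m) : g ∈ Par hb L ↔ ret hb L g = g := Iff.rfl

theorem ret_mem (L : Finset ι) (g : AR m) : ret hb L g ∈ Par hb L := by
  rw [mem_Par, ret_ret, Finset.inter_self]

theorem gen_mem {L : Finset ι} {s : S} (h : β s ∈ L) : gR m s ∈ Par hb L := ret_gen_mem hb h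

theorem Par_mono {L M : Finset ι} (h : L ⊆ M) : Par hb L ≤ Par hb M := by
  intro g hg
  rw [mem_Par] at hg ⊢
  rw [← hg, ret_ret, Finset.inter_eq_right.2 h]

theorem fl_mem (L : Finset ι) (u : W S) : ev (gR m) (fl β L u) ∈ Par hb L := by
  rw [← ret_ev hb]
  exact ret_mem hb L _

/-- words for the elements of a parabolic subgroup -/
theorem exists_fl (L : Finset ι) (g : AR m) (h : g ∈ Par hb L) :
    ∃ u : W S, ev (gR m) (fl β L u) = g := by
  obtain ⟨u, rfl⟩ := ev_surj g
  exact ⟨u, by rw [← ret_ev hb]; exact h⟩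

theorem Par_ind {L : Finset ι} (P : AR m → Prop) (h1 : P 1)
    (hm : ∀ s, β s ∈ L → ∀ g, P g → P (gR m s * g))
    (hi : ∀ s, β s ∈ L → ∀ g, P g → P ((gR m s)⁻¹ * g))
    (g : AR m) (h : g ∈ Par hb L) : P g := by
  obtain ⟨u, rfl⟩ := exists_fl hb L g h
  have h2 : ∀ a ∈ fl β L u, β a.1 ∈ L := by
    intro a ha
    have := List.of_mem_filter ha
    simpa using this
  clear h
  generalize fl β L u = v at h2
  induction v with
  | nil => exact h1
  | cons a v ih =>
    have ih' := ih (fun b hb => h2 b (List.mem_cons_of_mem _ hb))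
    rw [ev_cons]
    have h4 := h2 a List.mem_cons_self
    by_cases h5 : a.2
    · rw [if_pos h5]
      exact hm _ h4 _ ih'
    · rw [if_neg h5]
      exact hi _ h4 _ ih'

/-- exponent sums of a block -/
noncomputable def xh (_hb : Blk m β) (Y : ι) : AR m →* Multiplicative ℤ :=
  liftR (fun t => if β t = Y then Multiplicative.ofAdd (1 : ℤ) else 1) (by
    intro s t h _
    by_cases e : β s = β t
    · have e1 : (if β s = Y then Multiplicative.ofAdd (1 : ℤ) else 1) =
          (if β t = Y then Multiplicative.ofAdd (1 : ℤ) else 1) := by rw [e]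
      rw [alt_same _ _ s t e1, alt_same _ _ t s e1.symm, e1]
    · obtain ⟨k, hk⟩ := _hb.ev s t e
      rw [show m s t = 2 * k by omega, alt_even, alt_even, mul_comm])

theorem xh_gen (Y : ι) (t : S) :
    xh hb Y (gR m t) = if β t = Y then Multiplicative.ofAdd (1 : ℤ) else 1 := liftR_gen _ _ t

theorem xh_self (s : S) : xh hb (β s) (gR m s) = Multiplicative.ofAdd (1 : ℤ) := by
  rw [xh_gen, if_pos rfl]

theorem xh_ne {Y : ι} {t : S} (h : β t ≠ Y) : xh hb Y (gR m t) = 1 := by
  rw [xh_gen, if_neg h]

theorem xh_ret {L : Finset ι} {Y : ι} (h : Y ∈ L) (g : AR m) :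
    xh hb Y (ret hb L g) = xh hb Y g := by
  have h1 : (xh hb Y).comp (ret hb L) = xh hb Y := by
    refine ar_ext _ _ fun t => ?_
    rw [MonoidHom.comp_apply, ret_gen]
    split_ifs with h2
    · rfl
    · rw [map_one, xh_ne hb]
      rintro rfl
      exact h2 h
  exact DFunLike.congr_fun h1 g

theorem xh_ret_not {L : Finset ι} {Y : ι} (h : Y ∉ L) (g : AR m) :
    xh hb Y (ret hb L g) = 1 := by
  have h1 : (xh hb Y).comp (ret hb L) = 1 := by
    refine ar_ext _ _ fun t => ?_
    rw [MonoidHom.comp_apply, ret_gen]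
    split_ifs with h2
    · rw [xh_ne hb (fun e : β t = Y => h (e ▸ h2)), MonoidHom.one_apply]
    · rw [map_one, MonoidHom.one_apply]
  exact DFunLike.congr_fun h1 g

theorem xh_par {L : Finset ι} {Y : ι} (h : Y ∉ L) {g : AR m} (hg : g ∈ Par hb L) :
    xh hb Y g = 1 := by
  rw [mem_Par] at hg
  rw [← hg, xh_ret_not hb h]

/-- the exponent of a block -/
noncomputable def xz (Y : ι) (g : AR m) : ℤ := Multiplicative.toAdd (xh hb Y g)

theorem xz_mul (Y : ι) (g h : AR m) : xz hb Y (g * h) = xz hb Y g + xz hb Y h := by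
  unfold xz
  rw [map_mul, toAdd_mul]

theorem xz_inv (Y : ι) (g : AR m) : xz hb Y g⁻¹ = - xz hb Y g := by
  unfold xz
  rw [map_inv, toAdd_inv]

theorem xz_one (Y : ι) : xz hb Y (1 : AR m) = 0 := by
  unfold xz
  rw [map_one, toAdd_one]

theorem xz_pow (s : S) (n : ℤ) : xz hb (β s) (gR m s ^ n) = n := by
  unfold xz
  rw [map_zpow, xh_self, toAdd_zpow, toAdd_ofAdd, smul_eq_mul, mul_one]

theorem xz_pow_eq {s : S} {Y : ι} (h : β s = Y) (n : ℤ) : xz hb Y (gR m s ^ n) = n := by
  rw [← h, xz_pow]

theorem xz_pow_ne {s : S} {Y : ι} (h : β s ≠ Y) (n : ℤ) : xz hb Y (gR m s ^ n) = 0 := by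
  unfold xz
  rw [map_zpow, xh_ne hb h, one_zpow, toAdd_one]

theorem xz_par {L : Finset ι} {Y : ι} (h : Y ∉ L) {g : AR m} (hg : g ∈ Par hb L) :
    xz hb Y g = 0 := by
  unfold xz
  rw [xh_par hb h hg, toAdd_one]

theorem xz_ret {L : Finset ι} {Y : ι} (h : Y ∈ L) (g : AR m) :
    xz hb Y (ret hb L g) = xz hb Y g := by
  unfold xz
  rw [xh_ret hb h]

include hb in
theorem gen_zpow_one {z : S} {b : ℤ} (h : gR m z ^ b = 1) : b = 0 := by
  have h1 := xz_pow hb z b
  rw [h, xz_one] at h1
  exact h1.symm

open Classical in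
/-- the blocks of `L` commuting with the block `X` -/
noncomputable def com (m : S → S → ℕ) (β : S → ι) (L : Finset ι) (X : ι) : Finset ι :=
  L.filter (fun Y => ∀ s t, β s = X → β t = Y → m s t = 2)

omit [DecidableEq ι] in
theorem com_sub (L : Finset ι) (X : ι) : com m β L X ⊆ L := by
  classical
  unfold com
  exact Finset.filter_subset _ _

omit [DecidableEq ι] in
theorem mem_com {L : Finset ι} {X Y : ι} :
    Y ∈ com m β L X ↔ Y ∈ L ∧ ∀ s t, β s = X → β t = Y → m s t = 2 := by
  classical
  unfold com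
  rw [Finset.mem_filter]

omit [DecidableEq ι] in
include hb in
theorem mem_com_of {L : Finset ι} {x y : S} (h : β y ∈ L) (hn : β x ≠ β y) (h2 : m x y = 2) :
    β y ∈ com m β L (β x) :=
  mem_com.2 ⟨h, fun s t hs ht => hb.ho x y s t hs.symm ht.symm hn h2⟩

omit [DecidableEq ι] in
theorem gen_comm (s t : S) (h : m s t = 2) : Commute (gR m s) (gR m t) := by
  by_cases e : s = t
  · rw [e]
  · have h1 := gen_rel (m := m) s t e (by omega)
    rw [h] at h1
    have h2 : ((alt s t 2).map (gR m)).prod = gR m s * gR m t := by simp [alt]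
    have h3 : ((alt t s 2).map (gR m)).prod = gR m t * gR m s := by simp [alt]
    rw [h2, h3] at h1
    exact h1

theorem com_commute {L : Finset ι} {x : S} {h : AR m} (hh : h ∈ Par hb (com m β L (β x))) :
    Commute h (gR m x) := by
  refine Par_ind hb (fun h => Commute h (gR m x)) (Commute.one_left _) ?_ ?_ h hh
  · intro s hs g hg
    exact (gen_comm x s ((mem_com.1 hs).2 x s rfl rfl)).symm.mul_left hg
  · intro s hs g hg
    exact (gen_comm x s ((mem_com.1 hs).2 x s rfl rfl)).symm.inv_left.mul_left hg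

theorem ret_sub {T L : Finset ι} (h : T ⊆ L) (g : AR m) :
    ret hb T (ret hb L g) = ret hb T g := by
  rw [ret_ret, Finset.inter_eq_left.2 h]

theorem ret_sub' {T L : Finset ι} (h : T ⊆ L) (g : AR m) :
    ret hb L (ret hb T g) = ret hb T g := by
  rw [ret_ret, Finset.inter_eq_right.2 h]

theorem ret_pow_not {T : Finset ι} {y : S} (h : β y ∉ T) (j : ℤ) :
    ret hb T (gR m y ^ j) = 1 := by
  rw [map_zpow, ret_gen_not hb h, one_zpow]

theorem ret_pow_mem {T : Finset ι} {y : S} (h : β y ∈ T) (j : ℤ) :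
    ret hb T (gR m y ^ j) = gR m y ^ j := by
  rw [map_zpow, ret_gen_mem hb h]

theorem pow_mem {T : Finset ι} {y : S} (h : β y ∈ T) (j : ℤ) : gR m y ^ j ∈ Par hb T :=
  ret_pow_mem hb h j

/-- retraction to disjoint blocks -/
theorem ret_disj {T U : Finset ι} (h : Disjoint T U) {g : AR m} (hg : g ∈ Par hb T) :
    ret hb U g = 1 := by
  rw [mem_Par] at hg
  rw [← hg, ret_ret, Finset.inter_comm, Finset.disjoint_iff_inter_eq_empty.1 h]
  obtain ⟨u, rfl⟩ := ev_surj g
  rw [ret_ev]
  have : fl β (∅ : Finset ι) u = [] := by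
    unfold fl
    rw [List.filter_eq_nil_iff]
    simp
  rw [this]
  rfl

theorem ret_single_par {T : Finset ι} {Y : ι} (h : Y ∉ T) {g : AR m} (hg : g ∈ Par hb T) :
    ret hb {Y} g = 1 := ret_disj hb (Finset.disjoint_singleton_right.2 h) hg

end ea

end Pool.Agent.H87.Brt
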