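import Pool.Agent.H87.Brt.Val
import Pool.Agent.H87.Art.Re

set_option autoImplicit false

/-! Computably represented elements of an Artin group with blocks. -/

namespace Pool.Agent.H87.Brt

open Pool.Agent.H482R3.EA (W inv ev)
open Pool.Agent.H482R3.EB (alt AR gR)
open Pool.Agent.H482R3
open Pool.Agent.H87.Art (ev_nil ev_append ev_cons ev_inv ev_single map_ev re_ex re_and re_comp
  cp_comp re_or re_true re_false re_const re_all_fin re_ex_fin cp_eq re_case re_chain)

section cg

variable {n : ℕ} {ι : Type} [DecidableEq ι] {m : Fin n → Fin n → ℕ} {β : Fin n → ι}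

theorem fin_rels (m : Fin n → Fin n → ℕ) : (EB.rels m).Finite := by
  have h : EB.rels m ⊆ Set.range fun p : Fin n × Fin n =>
      ((alt p.1 p.2 (m p.1 p.2)).map FreeGroup.of).prod *
      (((alt p.2 p.1 (m p.1 p.2)).map FreeGroup.of).prod)⁻¹ := by
    rintro r ⟨s, t, _, _, rfl⟩
    exact ⟨(s, t), rfl⟩
  exact (Set.finite_range _).subset h

/-- the word problem is recursively enumerable -/
theorem re_triv (m : Fin n → Fin n → ℕ) : REPred fun u : W (Fin n) => ev (gR m) u = 1 := by
  have hfin := fin_rels m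
  obtain ⟨R, hR⟩ : ∃ R : List (W (Fin n)), EB.rels m = {r | ∃ z ∈ R, r = FreeGroup.mk z} := by
    refine ⟨hfin.toFinset.toList.map FreeGroup.toWord, ?_⟩
    ext r
    constructor
    · intro hr
      refine ⟨r.toWord, ?_, FreeGroup.mk_toWord.symm⟩
      rw [List.mem_map]
      exact ⟨r, by rw [Finset.mem_toList, Set.Finite.mem_toFinset]; exact hr, rfl⟩
    · rintro ⟨z, hz, rfl⟩
      rw [List.mem_map] at hz
      obtain ⟨r, hr, rfl⟩ := hz
      rw [Finset.mem_toList, Set.Finite.mem_toFinset] at hr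
      rw [FreeGroup.mk_toWord]
      exact hr
  have h1 := EB.Asm.fpre (Fin n) inferInstance inferInstance R
  have h2 : ∀ rels' : Set (FreeGroup (Fin n)), rels' = EB.rels m →
      (fun u : W (Fin n) => ev (PresentedGroup.of : Fin n → PresentedGroup rels') u = 1) =
        fun u : W (Fin n) => ev (gR m) u = 1 := by
    rintro _ rfl
    rfl
  rw [← h2 _ hR.symm]
  exact h1

variable {α γ : Type} [Primcodable α] [Primcodable γ]

/-- a function to the group which is given by computable words -/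
def CG (m : Fin n → Fin n → ℕ) (φ : α → AR m) : Prop :=
  ∃ f : α → W (Fin n), Computable f ∧ ∀ a, ev (gR m) (f a) = φ a

theorem CG.word {f : α → W (Fin n)} (hf : Computable f) : CG m fun a => ev (gR m) (f a) :=
  ⟨f, hf, fun _ => rfl⟩

theorem CG.one : CG m fun _ : α => (1 : AR m) := ⟨fun _ => [], Computable.const [], fun _ => rfl⟩

theorem CG.const (g : AR m) : CG m fun _ : α => g := by
  obtain ⟨u, hu⟩ := ev_surj g
  exact ⟨fun _ => u, Computable.const u, fun _ => hu⟩

theorem CG.mul {φ ψ : α → AR m} (h1 : CG m φ) (h2 : CG m ψ) : CG m fun a => φ a * ψ a := by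
  obtain ⟨f, hf, hf'⟩ := h1
  obtain ⟨g, hg, hg'⟩ := h2
  refine ⟨fun a => f a ++ g a, ?_, fun a => by rw [ev_append, hf', hg']⟩
  exact (Primrec.list_append.to_comp (α := W (Fin n))).comp hf hg

theorem CG.iv {φ : α → AR m} (h1 : CG m φ) : CG m fun a => (φ a)⁻¹ := by
  obtain ⟨f, hf, hf'⟩ := h1
  exact ⟨fun a => inv (f a), (EB.Asm.basb n).1.comp hf, fun a => by rw [ev_inv, hf']⟩

theorem prim_fl (β : Fin n → ι) (L : Finset ι) : Primrec fun u : W (Fin n) => fl β L u := by
  have h : PrimrecPred fun a : Fin n × Bool => β a.1 ∈ L := by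
    have h1 : Primrec fun i : Fin n => decide (β i ∈ L) := Primrec.dom_finite _
    have h2 : Primrec fun a : Fin n × Bool => decide (β a.1 ∈ L) := h1.comp Primrec.fst
    exact ⟨inferInstance, h2⟩
  exact Primrec.listFilter h

variable (hb : Blk m β)

theorem CG.ret {φ : α → AR m} (h1 : CG m φ) (L : Finset ι) :
    CG m fun a => ret hb L (φ a) := by
  obtain ⟨f, hf, hf'⟩ := h1
  exact ⟨fun a => fl β L (f a), (prim_fl β L).to_comp.comp hf,
    fun a => by rw [← ret_ev hb, hf']⟩

omit [DecidableEq ι] in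
theorem CG.comp {φ : γ → AR m} (h1 : CG m φ) {f : α → γ} (hf : Computable f) :
    CG m fun a => φ (f a) := by
  obtain ⟨g, hg, hg'⟩ := h1
  exact ⟨fun a => g (f a), hg.comp hf, fun a => hg' (f a)⟩

theorem re_eqG {φ ψ : α → AR m} (h1 : CG m φ) (h2 : CG m ψ) : REPred fun a => φ a = ψ a := by
  obtain ⟨f, hf, hf'⟩ := h1.mul h2.iv
  refine (re_comp (re_triv m) hf).of_eq fun a => ?_
  rw [hf', mul_inv_eq_one]

/-- nontriviality in the parabolic subgroup of `L` is recursively enumerable -/
def NN (L : Finset ι) : Prop :=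
  REPred fun u : W (Fin n) => ret hb L (ev (gR m) u) ≠ 1

variable {hb}

theorem re_neG {L : Finset ι} (hL : NN hb L) {φ ψ : α → AR m} (h1 : CG m φ) (h2 : CG m ψ) :
    REPred fun a => Brt.ret hb L (φ a) ≠ Brt.ret hb L (ψ a) := by
  obtain ⟨f, hf, hf'⟩ := h1.mul h2.iv
  refine (re_comp hL hf).of_eq fun a => ?_
  rw [hf', map_mul, map_inv, ne_eq, mul_inv_eq_one]

theorem NN.mono {L T : Finset ι} (hL : NN hb L) (h : T ⊆ L) : NN hb T := by
  have h1 := re_neG hL ((CG.word (m := m) Computable.id).ret hb T) CG.one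
  refine h1.of_eq fun u => ?_
  rw [ret_sub' hb h, map_one]
  rfl

/-- quantification over the group -/
theorem re_exG {P : α → AR m → Prop}
    (h : REPred fun p : α × W (Fin n) => P p.1 (ev (gR m) p.2)) :
    REPred fun a => ∃ g : AR m, P a g := by
  refine (re_ex (p := fun a u => P a (ev (gR m) u)) h).of_eq fun a => ?_
  constructor
  · rintro ⟨u, hu⟩
    exact ⟨_, hu⟩
  · rintro ⟨g, hg⟩
    obtain ⟨u, rfl⟩ := ev_surj g
    exact ⟨u, hg⟩

theorem cg_zpow (y : Fin n) : CG m fun p : ℕ × ℕ => gR m y ^ ((p.1 : ℤ) - (p.2 : ℤ)) := by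
  refine ⟨fun p => EB.wp y ((p.1 : ℤ) - (p.2 : ℤ)), ?_, fun p => ?_⟩
  · have h2 : Primrec fun p : ℕ × ℕ => (y, p) := Primrec.pair (Primrec.const y) Primrec.id
    have h3 : Primrec fun p : ℕ × ℕ => EB.wp y ((p.1 : ℤ) - (p.2 : ℤ)) :=
      Primrec.comp (f := fun p : Fin n × (ℕ × ℕ) => EB.wp p.1 ((p.2.1 : ℤ) - (p.2.2 : ℤ)))
        (Pool.Agent.H338R.EB.BASB.prim_wp n) h2
    exact h3.to_comp
  · exact (EB.t_WPW (Fin n) (AR m) inferInstance (gR m) y _).1

theorem int_pair (j : ℤ) : ∃ i : ℕ × ℕ, (i.1 : ℤ) - (i.2 : ℤ) = j := by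
  refine ⟨(j.toNat, (-j).toNat), ?_⟩
  show (j.toNat : ℤ) - ((-j).toNat : ℤ) = j
  omega

/-- quantification over the integers -/
theorem re_exZ {P : α → ℤ → Prop}
    (h : REPred fun p : α × (ℕ × ℕ) => P p.1 ((p.2.1 : ℤ) - (p.2.2 : ℤ))) :
    REPred fun a => ∃ j : ℤ, P a j := by
  refine (re_ex (p := fun (a : α) (i : ℕ × ℕ) => P a ((i.1 : ℤ) - (i.2 : ℤ))) h).of_eq
    fun a => ?_
  constructor
  · rintro ⟨i, hi⟩
    exact ⟨_, hi⟩
  · rintro ⟨j, hj⟩
    obtain ⟨i, rfl⟩ := int_pair j
    exact ⟨i, hj⟩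

/-- the integers of a pair -/
theorem cp_ne0 : ComputablePred fun i : ℕ × ℕ => (i.1 : ℤ) - (i.2 : ℤ) ≠ 0 := by
  refine ((cp_eq (α := ℕ × ℕ) Computable.fst Computable.snd).not).of_eq fun i => ?_
  refine not_congr ?_
  constructor
  · intro h
    omega
  · intro h
    omega

variable (hb)

theorem xz_ev (Y : ι) (u : W (Fin n)) : xz hb Y (ev (gR m) u) = EB.tot (fl β {Y} u) := by
  induction u with
  | nil => rw [ev_nil, xz_one]; rfl
  | cons a u ih =>
    rw [ev_cons, xz_mul, ih]
    unfold fl EB.tot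
    by_cases h : β a.1 = Y
    · rw [List.filter_cons_of_pos (by simpa using h), List.map_cons, List.sum_cons]
      congr 1
      split_ifs
      · have := xz_pow_eq hb h 1
        rwa [zpow_one] at this
      · rw [xz_inv]
        have := xz_pow_eq hb h 1
        rw [zpow_one] at this
        rw [this]
    · rw [List.filter_cons_of_neg (by simpa using h)]
      have h1 : xz hb Y (gR m a.1) = 0 := by
        have := xz_pow_ne hb h 1
        rwa [zpow_one] at this
      split_ifs
      · rw [h1, zero_add]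
      · rw [xz_inv, h1, neg_zero, zero_add]

/-- the power of `y` with the exponent of its block -/
theorem CG.yp {φ : α → AR m} (h1 : CG m φ) (y : Fin n) :
    CG m fun a => gR m y ^ (xz hb (β y) (φ a)) := by
  obtain ⟨f, hf, hf'⟩ := h1
  have h2 : CG m fun a : α => gR m y ^ (-(EB.tot (fl β {β y} (f a)))) := by
    refine ⟨fun a => EB.wp y (-(EB.tot (fl β {β y} (f a)))), ?_, fun a => ?_⟩
    · exact (EB.Asm.basb n).2.2.comp ((Computable.const y).pair
        ((prim_fl β {β y}).to_comp.comp hf))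
    · exact (EB.t_WPW (Fin n) (AR m) inferInstance (gR m) y _).1
  obtain ⟨g, hg, hg'⟩ := h2.iv
  refine ⟨g, hg, fun a => ?_⟩
  rw [hg']
  show (gR m y ^ (-EB.tot (fl β {β y} (f a))))⁻¹ = gR m y ^ xz hb (β y) (φ a)
  rw [zpow_neg, inv_inv, ← xz_ev hb, hf']

end cg

section bc

variable {n : ℕ} {ι : Type} [DecidableEq ι] {m : Fin n → Fin n → ℕ} {β : Fin n → ι}
  (hb : Blk m β)

/-- the word of block letters -/
def wx (β : Fin n → ι) (x : Fin n) (w : W ℕ) : W (Fin n) :=
  w.map (fun a => (nuF β x a.1, a.2))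

theorem wx_mem (x : Fin n) (w : W ℕ) : fl β {β x} (wx β x w) = wx β x w := by
  unfold fl wx
  rw [List.filter_eq_self]
  intro a ha
  rw [List.mem_map] at ha
  obtain ⟨b, _, rfl⟩ := ha
  simpa using nuF_mem x b.1

theorem wx_len (x : Fin n) (w : W ℕ) : (wx β x w).length = w.length := List.length_map _

theorem prim_wx (x : Fin n) : Primrec (wx β x) := by
  have h1 : Primrec (nuF β x) :=
    (Primrec.list_getD x).comp (Primrec.const (lst β x)) Primrec.id
  exact Primrec.list_map Primrec.id ((Primrec.pair (h1.comp (Primrec.fst.comp Primrec.snd))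
    (Primrec.snd.comp Primrec.snd)).to₂)

theorem ev_wx (x : Fin n) (w : W ℕ) :
    ev (gR m) (wx β x w) = ev (fun r => gR m (nuF β x r)) w := by
  induction w with
  | nil => rfl
  | cons a w ih =>
    have h : wx β x (a :: w) = (nuF β x a.1, a.2) :: wx β x w := rfl
    rw [h, ev_cons, ev_cons, ih]

/-- not a power of a letter of the block -/
def bc1 (m : Fin n → Fin n → ℕ) (β : Fin n → ι) (x : Fin n) (w : W ℕ) : Prop :=
  ∀ v, β v = β x → ∀ a : ℤ, ev (gR m) (wx β x w) ≠ gR m v ^ a

/-- not a product of powers of `v` and a letter of the block -/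
def bc2 (m : Fin n → Fin n → ℕ) (β : Fin n → ι) (x v : Fin n) (w : W ℕ) : Prop :=
  ∀ v', β v' = β x → ∀ a b : ℤ, ev (gR m) (wx β x w) ≠ gR m v ^ a * gR m v' ^ b

variable (hB : ∀ X, ComputablePred fun u : W (Fin n) => ret hb {X} (ev (gR m) u) = 1)

include hB in
theorem cp_eqX {α : Type} [Primcodable α] (X : ι) {φ ψ : α → AR m} (h1 : CG m φ)
    (h2 : CG m ψ) : ComputablePred fun a => ret hb {X} (φ a) = ret hb {X} (ψ a) := by
  obtain ⟨f, hf, hf'⟩ := h1.mul h2.iv
  refine (cp_comp (hB X) hf).of_eq fun a => ?_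
  rw [hf', map_mul, map_inv, mul_inv_eq_one]

theorem totg_ev (u : W (Fin n)) : EB.totg m (ev (gR m) u) = EB.tot u :=
  (EB.t_TOT (Fin n) m).1 u

theorem totg_mul (g h : AR m) : EB.totg m (g * h) = EB.totg m g + EB.totg m h :=
  (EB.t_TOT (Fin n) m).2.1 g h

theorem totg_pow (s : Fin n) (k : ℤ) : EB.totg m (gR m s ^ k) = k :=
  (EB.t_TOT (Fin n) m).2.2.2.1 s k

/-- `y ^ (- tot w)` -/
theorem cg_ntot {α : Type} [Primcodable α] (y : Fin n) {f : α → W (Fin n)}
    (hf : Computable f) : CG m fun a => gR m y ^ (-(EB.tot (f a))) :=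
  ⟨fun a => EB.wp y (-(EB.tot (f a))), (EB.Asm.basb n).2.2.comp
    ((Computable.const y).pair hf), fun _ => (EB.t_WPW (Fin n) (AR m) inferInstance (gR m) y _).1⟩

theorem cg_tot {α : Type} [Primcodable α] (y : Fin n) {f : α → W (Fin n)}
    (hf : Computable f) : CG m fun a => gR m y ^ (EB.tot (f a)) := by
  obtain ⟨g, hg, hg'⟩ := (cg_ntot (m := m) y hf).iv
  refine ⟨g, hg, fun a => ?_⟩
  rw [hg']
  show (gR m y ^ (-EB.tot (f a)))⁻¹ = _
  rw [zpow_neg, inv_inv]

theorem ret_wx (x : Fin n) (w : W ℕ) :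
    ret hb {β x} (ev (gR m) (wx β x w)) = ev (gR m) (wx β x w) := by
  rw [ret_ev, wx_mem]

include hB in
theorem cp_b1 (x : Fin n) : ComputablePred fun w : W ℕ => bc1 m β x w := by
  have h1 : ∀ v : Fin n, ComputablePred fun w : W ℕ => β v = β x →
      ∀ a : ℤ, ev (gR m) (wx β x w) ≠ gR m v ^ a := by
    intro v
    by_cases hv : β v = β x
    · have h2 := (cp_eqX hb hB (β x) (CG.word (m := m) (prim_wx (β := β) x).to_comp)
        (cg_tot (m := m) v (prim_wx (β := β) x).to_comp)).not
      refine h2.of_eq fun w => ?_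
      rw [ret_wx, ret_pow_mem hb (Finset.mem_singleton.2 hv)]
      constructor
      · intro h3 _ a e
        apply h3
        have h4 := congrArg (EB.totg m) e
        rw [totg_ev, totg_pow] at h4
        rw [h4]
        exact e
      · intro h3 e
        exact h3 hv _ e
    · exact ((cp_eq (α := W ℕ) (Computable.const true) (Computable.const true))).of_eq fun w =>
        ⟨fun _ h => absurd h hv, fun _ => rfl⟩
  exact (EB.Asm.cp (W ℕ) inferInstance n).2.2.1 _ h1

include hB in
theorem cp_b2 (x v : Fin n) (hv : β v = β x) : ComputablePred fun w : W ℕ => bc2 m β x v w := by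
  have h1 : ∀ v' : Fin n, ComputablePred fun w : W ℕ => β v' = β x →
      ∀ a b : ℤ, ev (gR m) (wx β x w) ≠ gR m v ^ a * gR m v' ^ b := by
    intro v'
    by_cases hv' : β v' = β x
    · have f1 : Computable fun p : W ℕ × ℕ => wx β x p.1 :=
        (prim_wx (β := β) x).to_comp.comp Computable.fst
      have f2 : Computable fun p : W ℕ × ℕ => p.1.length :=
        (Primrec.list_length.comp Primrec.fst).to_comp
      have g1 : CG m fun p : W ℕ × ℕ => gR m v ^ ((p.2 : ℤ) - (p.1.length : ℤ)) :=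
        (cg_zpow v).comp (Computable.snd.pair f2)
      have g2 : CG m fun p : W ℕ × ℕ => gR m v' ^ ((p.1.length : ℤ) - (p.2 : ℤ)) :=
        (cg_zpow v').comp (f2.pair Computable.snd)
      have g3 : CG m fun p : W ℕ × ℕ => gR m v' ^ (EB.tot (wx β x p.1)) :=
        cg_tot v' f1
      have h2 := cp_eqX hb hB (β x) (CG.word (m := m) f1) (g1.mul (g2.mul g3))
      have h3 := EB.Asm.bs (W ℕ) inferInstance _ (fun w => 2 * w.length) h2
        ((Primrec.nat_mul.comp (Primrec.const 2) Primrec.list_length).to_comp)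
      refine h3.not.of_eq fun w => ?_
      constructor
      · intro h4 _ a b e
        apply h4
        have h5 := congrArg (EB.totg m) e
        rw [totg_ev, totg_mul, totg_pow, totg_pow] at h5
        by_cases hvv : v' = v
        · refine ⟨w.length, by omega, ?_⟩
          show ret hb {β x} (ev (gR m) (wx β x w)) = ret hb {β x} (gR m v ^ ((w.length : ℤ) -
            (w.length : ℤ)) * (gR m v' ^ ((w.length : ℤ) - (w.length : ℤ)) *
              gR m v' ^ (EB.tot (wx β x w))))
          rw [sub_self, zpow_zero, zpow_zero, one_mul, one_mul, hvv, h5, e, hvv, ← zpow_add]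
        · have h6 := (tame hb).bd v v' a b (wx β x w) (Ne.symm hvv) e
          rw [wx_len] at h6
          have h7 : |a| ≤ (w.length : ℤ) := by
            have := abs_nonneg b
            linarith
          obtain ⟨h8, h9⟩ := abs_le.1 h7
          refine ⟨(a + w.length).toNat, by omega, ?_⟩
          show ret hb {β x} (ev (gR m) (wx β x w)) =
            ret hb {β x} (gR m v ^ (((a + w.length).toNat : ℤ) -
            (w.length : ℤ)) * (gR m v' ^ ((w.length : ℤ) - ((a + w.length).toNat : ℤ)) *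
              gR m v' ^ (EB.tot (wx β x w))))
          have h10 : (((a + w.length).toNat : ℕ) : ℤ) = a + w.length := by omega
          rw [h10, ← zpow_add, h5, show a + (w.length : ℤ) - w.length = a by ring,
            show (w.length : ℤ) - (a + w.length) + (a + b) = b by ring, e]
      · rintro h4 ⟨i, _, h5⟩
        have h6 : ret hb {β x} (ev (gR m) (wx β x w)) = ret hb {β x} (gR m v ^ ((i : ℤ) -
            (w.length : ℤ)) * (gR m v' ^ ((w.length : ℤ) - (i : ℤ)) *
              gR m v' ^ (EB.tot (wx β x w)))) := h5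
        rw [ret_wx, ← zpow_add, map_mul, ret_pow_mem hb (Finset.mem_singleton.2 hv),
          ret_pow_mem hb (Finset.mem_singleton.2 hv')] at h6
        exact h4 hv' _ _ h6
    · exact ((cp_eq (α := W ℕ) (Computable.const true) (Computable.const true))).of_eq fun w =>
        ⟨fun _ h => absurd h hv', fun _ => rfl⟩
  exact (EB.Asm.cp (W ℕ) inferInstance n).2.2.1 _ h1

end bc

end Pool.Agent.H87.Brt
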