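import Pool.Agent.H87.Brt.Lev

set_option autoImplicit false

/-! Codes of normal forms. -/

namespace Pool.Agent.H87.Brt

open Pool.Agent.H482R3.EA (W inv ev PP xx evF cond1 cond2 Sys St Near InD Adm Act)
open Pool.Agent.H482R3
open Pool.Agent.H87.Art (ev_nil ev_append ev_cons ev_inv ev_single map_ev)

/-- every element of the free group is the value of a word of positions -/
theorem evF_surj (k : ℕ) (hk : 0 < k) (z : FreeGroup (Fin k)) : ∃ w : W ℕ, evF k w = z := by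
  obtain ⟨L, rfl⟩ : ∃ L : List (Fin k × Bool), FreeGroup.mk L = z := Quot.exists_rep z
  refine ⟨L.map (fun a => ((a.1 : ℕ), a.2)), ?_⟩
  rw [← Pool.Agent.H325R.EB.FPRE_ev_mk]
  unfold evF ev
  rw [List.map_map]
  congr 1
  refine List.map_congr_left (fun a _ => ?_)
  have h1 : xx k (((a.1 : ℕ) % k : ℕ) : ℤ) = FreeGroup.of a.1 := by
    rw [Nat.mod_eq_of_lt a.1.2]
    exact (EB.Asm.xx k hk).2.2 a.1
  simp only [Function.comp_apply]
  rw [h1]

/-- kinds of syllables: points, block lines, dihedral lines -/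
inductive Kd (D : Dat) : Type
  | pt : D.V → Kd D
  | bl : Kd D
  | dh : (v : D.V) → (y : D.E) → D.e v y → Kd D

namespace Dat

variable (D : Dat) (A : Act D.sys)

/-- a word of points acting -/
noncomputable def stp (ω : A.Ω) (p : ℕ → D.P) (w : W ℕ) : A.Ω :=
  w.foldl (fun ω a => D.pa A ω (p a.1) (if a.2 then 1 else -1)) ω

theorem stp_nil (ω : A.Ω) (p : ℕ → D.P) : D.stp A ω p [] = ω := rfl

theorem stp_cons (ω : A.Ω) (p : ℕ → D.P) (a : ℕ × Bool) (w : W ℕ) :
    D.stp A ω p (a :: w) = D.stp A (D.pa A ω (p a.1) (if a.2 then 1 else -1)) p w := rfl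

theorem stp_line (l : D.Ln) (p : ℕ → D.P) (hp : ∀ r, D.I (p r) l) (w : W ℕ) :
    ∀ ω : A.Ω, D.stp A ω p w = A.act ω l (ev (fun r => D.xl l (p r)) w) := by
  induction w with
  | nil => intro ω; exact (A.act_one ω l).symm
  | cons a w ih =>
    intro ω
    rw [stp_cons, ih, D.pa_line A ω _ _ l (hp a.1), D.act_mul', ev_cons]
    congr 2
    split_ifs
    · exact zpow_one _
    · exact zpow_neg_one _

theorem stp_const (q : D.P) (w : W ℕ) : ∀ ω : A.Ω,
    D.stp A ω (fun _ => q) w = D.pa A ω q (EB.tot w) := by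
  induction w with
  | nil => intro ω; exact (D.pa_zero A ω q).symm
  | cons a w ih =>
    intro ω
    rw [stp_cons, ih, D.pa_add]
    unfold EB.tot
    rw [List.map_cons, List.sum_cons]

/-- syllables: base point, kind, word -/
abbrev Syl : Type := D.B × Kd D × W ℕ

/-- the points of a syllable -/
def pnt (b : D.B) : Kd D → ℕ → D.P
  | .pt v, _ => (v, D.cls b)
  | .bl, r => (D.nu r, D.cls b)
  | .dh v y _, r => (v, D.cls (b * D.t y ^ (((r % D.k v y : ℕ) : ℤ))))

/-- the line of a syllable -/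
def kl (b : D.B) : Kd D → D.Ln
  | .pt _ => D.bl (D.cls b)
  | .bl => D.bl (D.cls b)
  | .dh v y h => D.ln v y h b

theorem pnt_kl (b : D.B) (κ : Kd D) (r : ℕ) : D.I (D.pnt b κ r) (D.kl b κ) := by
  cases κ with
  | pt v => exact rfl
  | bl => exact rfl
  | dh v y h => exact D.I_mk v y h b _

/-- the group element of a syllable -/
noncomputable def ke (b : D.B) (κ : Kd D) (w : W ℕ) : D.Lg (D.kl b κ) :=
  ev (fun r => D.xl (D.kl b κ) (D.pnt b κ r)) w

noncomputable def actS (ω : A.Ω) (a : D.Syl) : A.Ω := D.stp A ω (D.pnt a.1 a.2.1) a.2.2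

theorem actS_kl (ω : A.Ω) (b : D.B) (κ : Kd D) (w : W ℕ) :
    D.actS A ω (b, κ, w) = A.act ω (D.kl b κ) (D.ke b κ w) :=
  D.stp_line A (D.kl b κ) (D.pnt b κ) (D.pnt_kl b κ) w ω

theorem actS_pt (ω : A.Ω) (b : D.B) (v : D.V) (w : W ℕ) :
    D.actS A ω (b, .pt v, w) = D.pa A ω (v, D.cls b) (EB.tot w) :=
  D.stp_const A (v, D.cls b) w ω

/-- the group element of a dihedral syllable, up to shift -/
theorem ke_dh (v : D.V) (y : D.E) (h : D.e v y) (b : D.B) :
    ∃ σ : FreeGroup (Fin (D.k v y)) ≃* D.Lg (D.ln v y h b),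
      (∀ j : ℤ, D.xl (D.ln v y h b) (v, D.cls (b * D.t y ^ j)) = σ (xx (D.k v y) j)) ∧
      ∀ (w : W ℕ), D.ke b (.dh v y h) w = σ (evF (D.k v y) w) := by
  have hk : 0 < D.k v y := by
    have := D.k2 v y h
    omega
  obtain ⟨σ, hσ⟩ := EB.Asm.xs (D.k v y) (D.off y b) hk
  refine ⟨σ, fun j => ?_, fun w => ?_⟩
  · rw [D.xl_mk, add_comm]
    exact (hσ j).symm
  · have h2 : σ (evF (D.k v y) w) =
      (σ : FreeGroup (Fin (D.k v y)) →* FreeGroup (Fin (D.k v y)))
      (ev (fun r => xx (D.k v y) ((r % D.k v y : ℕ) : ℤ)) w) := rfl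
    rw [map_ev] at h2
    refine Eq.trans ?_ h2.symm
    show ev (fun r => D.xl (D.ln v y h b) (v, D.cls (b * D.t y ^ (((r % D.k v y : ℕ) : ℤ))))) w
      = _
    congr 1
    funext r
    rw [D.xl_mk, add_comm]
    exact (hσ _).symm

/-- the kinds of lines -/
def isl : Kd D → Prop
  | .pt _ => False
  | .bl => True
  | .dh _ _ _ => True

/-- the state of a syllable -/
noncomputable def stS (a : D.Syl) : St D.sys :=
  match a with
  | (b, .pt v, _) => .pt ((v, D.cls b) : D.P)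
  | (b, .bl, _) => .ln (D.bl (D.cls b))
  | (b, .dh v y h, _) => .ln (D.ln v y h b)

theorem stS_pt (b : D.B) (v : D.V) (w : W ℕ) :
    D.stS (b, .pt v, w) = .pt ((v, D.cls b) : D.P) := rfl

theorem stS_isl (b : D.B) (κ : Kd D) (w : W ℕ) (h : D.isl κ) :
    D.stS (b, κ, w) = .ln (D.kl b κ) := by
  cases κ with
  | pt v => exact False.elim h
  | bl => rfl
  | dh v y h => rfl

/-- admissible elements of lines -/
def LAd (s : St D.sys) (l : D.Ln) (z : D.Lg l) : Prop :=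
  ¬ InD D.sys l s ∧
    (((∀ q, D.I q l → ¬ Near D.sys q s) ∧
      ∀ (r : D.P) (a : ℤ), D.I r l → z ≠ D.xl l r ^ a) ∨
     (∃ q, D.I q l ∧ Near D.sys q s ∧
      ∀ (r : D.P) (a b : ℤ), D.I r l → z ≠ D.xl l q ^ a * D.xl l r ^ b))

/-- admissible syllables -/
def AdS (s : St D.sys) (a : D.Syl) : Prop :=
  match a with
  | (b, .pt v, w) => EB.tot w ≠ 0 ∧ ¬ Near D.sys ((v, D.cls b) : D.P) s
  | (b, .bl, w) => D.LAd s (D.bl (D.cls b)) (D.ke b .bl w)
  | (b, .dh v y h, w) => D.LAd s (D.ln v y h b) (D.ke b (.dh v y h) w)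

theorem AdS_isl (s : St D.sys) (b : D.B) (κ : Kd D) (w : W ℕ) (h : D.isl κ) :
    D.AdS s (b, κ, w) ↔ D.LAd s (D.kl b κ) (D.ke b κ w) := by
  cases κ with
  | pt v => exact False.elim h
  | bl => exact Iff.rfl
  | dh v y h => exact Iff.rfl

/-- the state of a code; the last syllable is the head of the list -/
noncomputable def stC : List D.Syl → St D.sys
  | [] => .none
  | a :: _ => D.stS a

/-- valid codes -/
def VC : List D.Syl → Prop
  | [] => True
  | a :: C => D.AdS (D.stC C) a ∧ VC C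

noncomputable def run : List D.Syl → A.Ω
  | [] => A.one
  | a :: C => D.actS A (run C) a

theorem st_actS (ω : A.Ω) (a : D.Syl) (h : D.AdS (A.st ω) a) :
    A.st (D.actS A ω a) = D.stS a := by
  obtain ⟨b, κ, w⟩ := a
  by_cases hκ : D.isl κ
  · rw [D.AdS_isl _ _ _ _ hκ] at h
    rw [D.stS_isl _ _ _ hκ, D.actS_kl]
    obtain ⟨h1, ⟨h2, h3⟩ | ⟨q, h2, h3, h4⟩⟩ := h
    · exact A.st_ln ω _ _ h1 h2 h3
    · exact A.st_ln' ω _ _ q h1 h2 h3 h4
  · cases κ with
    | pt v =>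
      obtain ⟨h1, h2⟩ := h
      rw [D.actS_pt]
      exact D.st_pa A ω _ _ h1 h2
    | bl => exact absurd trivial hκ
    | dh v y h => exact absurd trivial hκ

theorem st_run : ∀ C : List D.Syl, D.VC C → A.st (D.run A C) = D.stC C
  | [], _ => A.st_one
  | a :: C, h => by
    have h1 := st_run C h.2
    refine D.st_actS A _ a ?_
    rw [h1]
    exact h.1

theorem stS_ne (a : D.Syl) : D.stS a ≠ .none := by
  obtain ⟨b, κ, w⟩ := a
  cases κ <;> intro e <;> cases e

theorem run_one (C : List D.Syl) (h : D.VC C) (e : D.run A C = A.one) : C = [] := by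
  cases C with
  | nil => rfl
  | cons a C =>
    exfalso
    have h1 := D.st_run A (a :: C) h
    rw [e, A.st_one] at h1
    exact D.stS_ne a h1.symm

theorem line_syl (s : St D.sys) (l : D.Ln) (z : D.Lg l) (h : D.LAd s l z) :
    ∃ a : D.Syl, D.AdS s a ∧ ∀ ω : A.Ω, D.actS A ω a = A.act ω l z := by
  rcases l with l | l
  · obtain ⟨b, rfl⟩ := QuotientGroup.mk_surjective l
    obtain ⟨w, hw⟩ := D.gs z
    have h1 : D.ke b .bl w = z := hw
    refine ⟨(b, .bl, w), ?_, fun ω => ?_⟩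
    · show D.LAd s (D.bl (D.cls b)) (D.ke b .bl w)
      rw [h1]
      exact h
    · rw [D.actS_kl, h1]
      rfl
  · obtain ⟨v, y, hy, b, e⟩ := D.exists_ln l
    have hk : 0 < D.k v y := by
      have := D.k2 v y hy
      omega
    revert z h
    rw [show (Sum.inr l : D.Ln) = D.ln v y hy b from e]
    intro z h
    obtain ⟨σ, hσ, hke⟩ := D.ke_dh v y hy b
    obtain ⟨w, hw⟩ := evF_surj (D.k v y) hk (σ.symm z)
    have hy' : D.ke b (.dh v y hy) w = z := by
      rw [hke, hw]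
      exact σ.apply_symm_apply z
    refine ⟨(b, .dh v y hy, w), ?_, fun ω => ?_⟩
    · show D.LAd s (D.ln v y hy b) (D.ke b (.dh v y hy) w)
      rw [hy']
      exact h
    · rw [D.actS_kl, hy']
      rfl

/-- every normal form has a code -/
theorem exists_code (ω : A.Ω) : ∃ C : List D.Syl, D.VC C ∧ D.run A C = ω := by
  refine A.gen (fun ω => ∃ C : List D.Syl, D.VC C ∧ D.run A C = ω) ⟨[], trivial, rfl⟩ ?_ ω
  rintro ω l y ⟨C, hC, rfl⟩ hA
  rw [D.st_run A C hC] at hA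
  have key : D.LAd (D.stC C) l y → ∃ C' : List D.Syl, D.VC C' ∧
      D.run A C' = A.act (D.run A C) l y := by
    intro h
    obtain ⟨a, h1, h2⟩ := D.line_syl A (D.stC C) l y h
    exact ⟨a :: C, ⟨h1, hC⟩, h2 _⟩
  rcases hA with ⟨p, n, hp, hn, hnear, rfl⟩ | ⟨h1, h2, h3⟩ | ⟨h1, q, hq, hnear, h3⟩
  · obtain ⟨v, q⟩ := p
    obtain ⟨b, rfl⟩ := QuotientGroup.mk_surjective q
    refine ⟨(b, .pt v, EB.wp 0 n) :: C, ⟨⟨?_, hnear⟩, hC⟩, ?_⟩
    · rw [(EB.t_WPW ℕ (Multiplicative ℤ) inferInstance (fun _ => 1) 0 n).2.1]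
      exact hn
    · show D.actS A (D.run A C) (b, .pt v, EB.wp 0 n) = _
      rw [D.actS_pt, (EB.t_WPW ℕ (Multiplicative ℤ) inferInstance (fun _ => 1) 0 n).2.1]
      exact D.pa_line A _ _ n l hp
  · exact key ⟨h1, Or.inl ⟨h2, h3⟩⟩
  · exact key ⟨h1, Or.inr ⟨q, hq, hnear, h3⟩⟩

end Dat

end Pool.Agent.H87.Brt
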