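import Pool.Agent.H87.Brt.Bas

set_option autoImplicit false

/-! The system attached to one block of generators over a base group. -/

namespace Pool.Agent.H87.Brt

open Pool.Agent.H482R3.EA (W inv ev PP xx evF cond1 cond2 Sys St Near InD Adm Act)
open Pool.Agent.H482R3

/-- base group `B`, subgroup `H` (commuting with the new block), letters `t y`;
the group `G` of the new block with generators `g v` -/
structure Dat where
  B : Type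
  gB : Group B
  H : Subgroup B
  V : Type
  v0 : V
  G : Type
  gG : Group G
  g : V → G
  i1 : ∀ (v : V) (a : ℤ), g v ^ a = 1 → a = 0
  i2 : ∀ (v w : V) (a b : ℤ), v ≠ w → g v ^ a * g w ^ b = 1 → a = 0 ∧ b = 0
  i3 : ∀ (u v w : V) (a b d : ℤ), u ≠ v → v ≠ w → u ≠ w → g u ^ a * g v ^ b * g w ^ d = 1 →
    a = 0 ∧ b = 0 ∧ d = 0
  nu : ℕ → V
  gs : ∀ y : G, ∃ w : W ℕ, ev (fun r => g (nu r)) w = y
  E : Type
  e : V → E → Prop
  t : E → B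
  k : V → E → ℕ
  k2 : ∀ v y, e v y → 2 ≤ k v y
  ex : E → B →* Multiplicative ℤ
  exH : ∀ v y, e v y → ∀ h ∈ H, ex y h = 1
  exs : ∀ v y, e v y → ex y (t y) = Multiplicative.ofAdd (1 : ℤ)
  rho : B →* B
  rhoH : ∀ h ∈ H, rho h = h
  rhot : ∀ v y, e v y → rho (t y) = 1
  Q : ∀ (v : V) (y1 y2 y3 : E) (h1 h2 : B) (a b d : ℤ), e v y1 → e v y2 → e v y3 →
    h1 ∈ H → h2 ∈ H → a ≠ 0 → b ≠ 0 →
    t y1 ^ a * (h1 * t y2 ^ b * h1⁻¹) * (h2 * t y3 ^ d * h2⁻¹) = 1 →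
    y1 = y2 ∧ Commute h1 (t y1)

attribute [instance] Dat.gB Dat.gG

namespace Dat

variable (D : Dat)

def exz (y : D.E) (b : D.B) : ℤ := Multiplicative.toAdd (D.ex y b)

theorem exz_mul (y : D.E) (a b : D.B) : D.exz y (a * b) = D.exz y a + D.exz y b := by
  unfold exz
  rw [map_mul, toAdd_mul]

theorem exz_inv (y : D.E) (a : D.B) : D.exz y a⁻¹ = - D.exz y a := by
  unfold exz
  rw [map_inv, toAdd_inv]

theorem exz_t (v : D.V) (y : D.E) (h : D.e v y) (i : ℤ) : D.exz y (D.t y ^ i) = i := by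
  unfold exz
  rw [map_zpow, D.exs v y h, toAdd_zpow, toAdd_ofAdd, smul_eq_mul, mul_one]

theorem exz_H (v : D.V) (y : D.E) (h : D.e v y) (b : D.B) (hb : b ∈ D.H) :
    D.exz y b = 0 := by
  unfold exz
  rw [D.exH v y h b hb, toAdd_one]

theorem rho_t (v : D.V) (y : D.E) (h : D.e v y) (i : ℤ) : D.rho (D.t y ^ i) = 1 := by
  rw [map_zpow, D.rhot v y h, one_zpow]

/-- the stabiliser of a line -/
def HL (y : D.E) : Subgroup D.B where
  carrier := {b | ∃ (i : ℤ) (h : D.B), h ∈ D.H ∧ Commute h (D.t y) ∧ b = D.t y ^ i * h}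
  one_mem' := ⟨0, 1, D.H.one_mem, Commute.one_left _, by simp⟩
  mul_mem' := by
    rintro _ _ ⟨i, h, hh, hc, rfl⟩ ⟨j, g, hg, hd, rfl⟩
    refine ⟨i + j, h * g, D.H.mul_mem hh hg, hc.mul_left hd, ?_⟩
    have h1 : h * D.t y ^ j = D.t y ^ j * h := (hc.zpow_right j).eq
    rw [zpow_add, mul_assoc, mul_assoc, ← mul_assoc h, h1, mul_assoc]
  inv_mem' := by
    rintro _ ⟨i, h, hh, hc, rfl⟩
    refine ⟨-i, h⁻¹, D.H.inv_mem hh, hc.inv_left, ?_⟩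
    have h1 : h⁻¹ * D.t y ^ (-i) = D.t y ^ (-i) * h⁻¹ := (hc.inv_left.zpow_right (-i)).eq
    rw [mul_inv_rev, ← zpow_neg, h1]

abbrev cls (b : D.B) : D.B ⧸ D.H := QuotientGroup.mk b

/-- points -/
abbrev P : Type := D.V × (D.B ⧸ D.H)

def Ln : Type := (D.B ⧸ D.H) ⊕ (Σ q : {p : D.V × D.E // D.e p.1 p.2}, D.B ⧸ D.HL q.1.2)

def Lg : D.Ln → Type
  | .inl _ => D.G
  | .inr q => FreeGroup (Fin (D.k q.1.1.1 q.1.1.2))

instance instGrpLg : ∀ l : D.Ln, Group (D.Lg l)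
  | .inl _ => inferInstanceAs (Group D.G)
  | .inr q => inferInstanceAs (Group (FreeGroup (Fin (D.k q.1.1.1 q.1.1.2))))

def I : D.P → D.Ln → Prop
  | p, .inl q => p.2 = q
  | p, .inr q => p.1 = q.1.1.1 ∧
      ∃ b : D.B, D.cls b = p.2 ∧ (QuotientGroup.mk b : D.B ⧸ D.HL q.1.1.2) = q.2

noncomputable def xl : (l : D.Ln) → D.P → D.Lg l
  | .inl _ => fun p => (D.g p.1 : D.G)
  | .inr q => fun p => xx (D.k q.1.1.1 q.1.1.2) (D.exz q.1.1.2 (q.2.out⁻¹ * p.2.out))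

/-- the block line through `q` -/
def bl (q : D.B ⧸ D.H) : D.Ln := .inl q

/-- the line of direction `y` through `(v, b)` -/
def ln (v : D.V) (y : D.E) (h : D.e v y) (b : D.B) : D.Ln :=
  .inr ⟨⟨(v, y), h⟩, QuotientGroup.mk b⟩

theorem cls_eq (a b : D.B) : D.cls a = D.cls b ↔ a⁻¹ * b ∈ D.H := QuotientGroup.eq

theorem cls_mul {b h : D.B} (hh : h ∈ D.H) : D.cls (b * h) = D.cls b := by
  rw [D.cls_eq, mul_inv_rev, mul_assoc, inv_mul_cancel, mul_one]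
  exact D.H.inv_mem hh

theorem ln_eq (v : D.V) (y : D.E) (h : D.e v y) (a b : D.B) :
    D.ln v y h a = D.ln v y h b ↔ a⁻¹ * b ∈ D.HL y := by
  unfold ln
  constructor
  · intro e
    have e1 := Sum.inr.inj e
    rw [Sigma.mk.injEq] at e1
    exact QuotientGroup.eq.1 (eq_of_heq e1.2)
  · intro e
    rw [QuotientGroup.eq.2 e]

theorem t_mem_HL (y : D.E) (i : ℤ) : D.t y ^ i ∈ D.HL y :=
  ⟨i, 1, D.H.one_mem, Commute.one_left _, by simp⟩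

theorem ln_t (v : D.V) (y : D.E) (h : D.e v y) (b : D.B) (i : ℤ) :
    D.ln v y h (b * D.t y ^ i) = D.ln v y h b := by
  rw [D.ln_eq, mul_inv_rev, mul_assoc, inv_mul_cancel, mul_one]
  exact (D.HL y).inv_mem (D.t_mem_HL y i)

theorem ln_h (v : D.V) (y : D.E) (h : D.e v y) (b g : D.B) (hg : g ∈ D.H)
    (hc : Commute g (D.t y)) : D.ln v y h (b * g) = D.ln v y h b := by
  rw [D.ln_eq, mul_inv_rev, mul_assoc, inv_mul_cancel, mul_one]
  exact (D.HL y).inv_mem ⟨0, g, hg, hc, by simp⟩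

theorem I_bl (p : D.P) (q : D.B ⧸ D.H) : D.I p (D.bl q) ↔ p.2 = q := Iff.rfl

theorem I_iff (v : D.V) (y : D.E) (h : D.e v y) (b : D.B) (p : D.P) :
    D.I p (D.ln v y h b) ↔ ∃ j : ℤ, p = (v, D.cls (b * D.t y ^ j)) := by
  constructor
  · rintro ⟨hv, b', hp, hb'⟩
    have h1 : b⁻¹ * b' ∈ D.HL y := QuotientGroup.eq.1 hb'.symm
    obtain ⟨i, g, hg, _, e⟩ := h1
    refine ⟨i, ?_⟩
    have e2 : b' = b * D.t y ^ i * g := by rw [mul_assoc, ← e, mul_inv_cancel_left]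
    rw [e2, D.cls_mul hg] at hp
    exact Prod.ext hv hp.symm
  · rintro ⟨j, rfl⟩
    refine ⟨rfl, b * D.t y ^ j, rfl, ?_⟩
    have := D.ln_t v y h b j
    unfold ln at this
    have e1 := Sum.inr.inj this
    rw [Sigma.mk.injEq] at e1
    exact eq_of_heq e1.2

theorem I_mk (v : D.V) (y : D.E) (h : D.e v y) (b : D.B) (j : ℤ) :
    D.I (v, D.cls (b * D.t y ^ j)) (D.ln v y h b) := (D.I_iff v y h b _).2 ⟨j, rfl⟩

theorem I_mk0 (v : D.V) (y : D.E) (h : D.e v y) (b : D.B) :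
    D.I (v, D.cls b) (D.ln v y h b) := (D.I_iff v y h b _).2 ⟨0, by simp⟩

/-- every line is a block line or of the form `ln v y h b` -/
theorem exists_ln (q : Σ q : {p : D.V × D.E // D.e p.1 p.2}, D.B ⧸ D.HL q.1.2) :
    ∃ (v : D.V) (y : D.E) (h : D.e v y) (b : D.B), (.inr q : D.Ln) = D.ln v y h b := by
  obtain ⟨⟨⟨v, y⟩, h⟩, n⟩ := q
  obtain ⟨b, rfl⟩ := QuotientGroup.mk_surjective n
  exact ⟨v, y, h, b, rfl⟩

/-- base points -/
theorem rebase (v : D.V) (y : D.E) (h : D.e v y) (b : D.B) (p : D.P)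
    (hp : D.I p (D.ln v y h b)) :
    ∃ b', D.ln v y h b = D.ln v y h b' ∧ p = (v, D.cls b') := by
  obtain ⟨j, rfl⟩ := (D.I_iff v y h b p).1 hp
  exact ⟨b * D.t y ^ j, (D.ln_t v y h b j).symm, rfl⟩

/-- offset of the chosen representative -/
noncomputable def off (y : D.E) (b : D.B) : ℤ :=
  D.exz y ((QuotientGroup.mk b : D.B ⧸ D.HL y).out⁻¹ * b)

theorem xl_mk (v : D.V) (y : D.E) (h : D.e v y) (b : D.B) (j : ℤ) :
    D.xl (D.ln v y h b) (v, D.cls (b * D.t y ^ j)) = xx (D.k v y) (D.off y b + j) := by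
  obtain ⟨g, hg⟩ := QuotientGroup.mk_out_eq_mul D.H (b * D.t y ^ j)
  show xx (D.k v y) (D.exz y ((QuotientGroup.mk b : D.B ⧸ D.HL y).out⁻¹ *
    (QuotientGroup.mk (b * D.t y ^ j) : D.B ⧸ D.H).out)) = _
  rw [hg, ← mul_assoc, ← mul_assoc, D.exz_mul, D.exz_H v y h g g.2, D.exz_mul, D.exz_t v y h,
    add_zero]
  rfl

theorem cls_t_inj (v : D.V) (y : D.E) (h : D.e v y) (b : D.B) (i j : ℤ)
    (hij : D.cls (b * D.t y ^ i) = D.cls (b * D.t y ^ j)) : i = j := by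
  rw [D.cls_eq] at hij
  have h1 := D.exz_H v y h _ hij
  rw [D.exz_mul, D.exz_inv, D.exz_mul, D.exz_mul, D.exz_t v y h, D.exz_t v y h] at h1
  linarith

theorem I_inr_two (v : D.V) (y : D.E) (h : D.e v y) (b : D.B) (p q : D.P)
    (hq : D.I q (D.ln v y h b)) (hpq : p ≠ q) (hb : p = (v, D.cls b)) :
    ∃ a : ℤ, a ≠ 0 ∧ q = (v, D.cls (b * D.t y ^ a)) := by
  obtain ⟨a, rfl⟩ := (D.I_iff v y h b q).1 hq
  refine ⟨a, ?_, rfl⟩
  rintro rfl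
  apply hpq
  rw [hb]
  simp

/-- first geometric axiom -/
theorem G1 (l m : D.Ln) (p q : D.P) (hlm : l ≠ m) (h1 : D.I p l) (h2 : D.I q l)
    (h3 : D.I p m) (h4 : D.I q m) : p = q := by
  by_contra hpq
  have hbl : ∀ (n : D.B ⧸ D.H) (r : Σ q : {p : D.V × D.E // D.e p.1 p.2}, D.B ⧸ D.HL q.1.2),
      D.I p (.inl n) → D.I q (.inl n) → D.I p (.inr r) → D.I q (.inr r) → False := by
    intro n r a1 a2 a3 a4
    have a3' : p.1 = r.1.1.1 := a3.1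
    have a4' : q.1 = r.1.1.1 := a4.1
    have a1' : p.2 = n := a1
    have a2' : q.2 = n := a2
    exact hpq (Prod.ext (a3'.trans a4'.symm) (a1'.trans a2'.symm))
  rcases l with l | l
  · rcases m with m | m
    · have a1 : p.2 = l := h1
      have a2 : p.2 = m := h3
      exact hlm (by rw [← a1, ← a2])
    · exact hbl l m h1 h2 h3 h4
  rcases m with m | m
  · exact hbl m l h3 h4 h1 h2
  obtain ⟨v, y, hy, b, e⟩ := D.exists_ln l
  rw [e] at h1 h2 hlm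
  obtain ⟨w, z, hz, b', e'⟩ := D.exists_ln m
  rw [e'] at h3 h4 hlm
  obtain ⟨b1, e1, hp1⟩ := D.rebase v y hy b p h1
  rw [e1] at h1 h2 hlm
  obtain ⟨b2, e2, hp2⟩ := D.rebase w z hz b' p h3
  rw [e2] at h3 h4 hlm
  have hvw : v = w := congrArg Prod.fst (hp1.symm.trans hp2)
  subst hvw
  obtain ⟨a, ha, hq1⟩ := D.I_inr_two v y hy b1 p q h2 hpq hp1
  obtain ⟨d, hd, hq2⟩ := D.I_inr_two v z hz b2 p q h4 hpq hp2
  have hH : b1⁻¹ * b2 ∈ D.H := (D.cls_eq b1 b2).1 (congrArg Prod.snd (hp1.symm.trans hp2))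
  obtain ⟨g, hg⟩ : ∃ g, g = b1⁻¹ * b2 := ⟨_, rfl⟩
  have hb2 : b2 = b1 * g := by rw [hg, mul_inv_cancel_left]
  rw [← hg] at hH
  have hH2 : (b1 * D.t y ^ a)⁻¹ * (b2 * D.t z ^ d) ∈ D.H :=
    (D.cls_eq _ _).1 (congrArg Prod.snd (hq1.symm.trans hq2))
  have e3 : (b1 * D.t y ^ a)⁻¹ * (b2 * D.t z ^ d) = (D.t y ^ a)⁻¹ * g * D.t z ^ d := by
    rw [hb2]; group
  rw [e3] at hH2
  have h6 := D.rhoH _ hH2
  rw [map_mul, map_mul, map_inv, D.rho_t v y hy, D.rho_t v z hz, inv_one, one_mul, mul_one,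
    D.rhoH g hH] at h6
  have h7 := D.Q v y z y g 1 (-a) d 0 hy hz hy hH D.H.one_mem (by simpa using ha) hd (by
    rw [zpow_neg, zpow_zero]
    have : (D.t y ^ a)⁻¹ * (g * D.t z ^ d * g⁻¹) * (1 * 1 * 1⁻¹) =
        ((D.t y ^ a)⁻¹ * g * D.t z ^ d) * g⁻¹ := by group
    rw [this, ← h6, mul_inv_cancel])
  obtain ⟨rfl, h7⟩ := h7
  apply hlm
  rw [hb2, D.ln_h v y hy b1 g hH h7]

/-- second geometric axiom -/
theorem G2 (l m k : D.Ln) (p q r : D.P) (hlm : l ≠ m) (hmk : m ≠ k) (hkl : k ≠ l)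
    (h1 : D.I p l) (h2 : D.I p m) (h3 : D.I q m) (h4 : D.I q k) (h5 : D.I r k)
    (h6 : D.I r l) : p = q := by
  by_contra hpq
  have hpr : p ≠ r := by
    rintro rfl
    exact hpq (D.G1 m k p q hmk h2 h3 h5 h4)
  have hqr : q ≠ r := by
    rintro rfl
    exact hpq (D.G1 l m p q hlm h1 h6 h2 h3)
  have hbl : ∀ (l m k : D.Ln) (p q r : D.P), l ≠ m → m ≠ k → k ≠ l → p ≠ q → q ≠ r → p ≠ r →
      D.I p l → D.I p m → D.I q m → D.I q k → D.I r k → D.I r l →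
      ∀ n, l ≠ .inl n := by
    intro l m k p q r hlm hmk hkl hpq hqr hpr h1 h2 h3 h4 h5 h6 n hn
    subst hn
    rcases m with m | m
    · have a1 : p.2 = n := h1
      have a2 : p.2 = m := h2
      exact hlm (by rw [← a1, ← a2])
    rcases k with k | k
    · have a1 : r.2 = n := h6
      have a2 : r.2 = k := h5
      exact hkl (by rw [← a1, ← a2])
    have a1 : p.1 = m.1.1.1 := h2.1
    have a2 : q.1 = m.1.1.1 := h3.1
    have a3 : q.1 = k.1.1.1 := h4.1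
    have a4 : r.1 = k.1.1.1 := h5.1
    have a5 : p.2 = n := h1
    have a6 : r.2 = n := h6
    exact hpr (Prod.ext (a1.trans (a2.symm.trans (a3.trans a4.symm))) (a5.trans a6.symm))
  have c1 := hbl l m k p q r hlm hmk hkl hpq hqr hpr h1 h2 h3 h4 h5 h6
  have c2 := hbl m k l q r p hmk hkl hlm hqr (Ne.symm hpr) (Ne.symm hpq) h3 h4 h5 h6 h1 h2
  have c3 := hbl k l m r p q hkl hlm hmk (Ne.symm hpr) hpq (Ne.symm hqr) h5 h6 h1 h2 h3 h4
  rcases l with l | l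
  · exact c1 l rfl
  rcases m with m | m
  · exact c2 m rfl
  rcases k with k | k
  · exact c3 k rfl
  obtain ⟨v, y1, hy1, b, e⟩ := D.exists_ln l
  rw [e] at h1 h6 hlm hkl
  obtain ⟨w, y2, hy2, b', e'⟩ := D.exists_ln m
  rw [e'] at h2 h3 hlm hmk
  obtain ⟨x, y3, hy3, b'', e''⟩ := D.exists_ln k
  rw [e''] at h4 h5 hmk hkl
  obtain ⟨b2, e2, hp2⟩ := D.rebase w y2 hy2 b' p h2
  rw [e2] at h2 h3 hlm hmk
  obtain ⟨a, ha, hq2⟩ := D.I_inr_two w y2 hy2 b2 p q h3 hpq hp2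
  obtain ⟨b3, e3, hp3⟩ := D.rebase x y3 hy3 b'' q h4
  rw [e3] at h4 h5 hmk hkl
  obtain ⟨d, hd, hr3⟩ := D.I_inr_two x y3 hy3 b3 q r h5 hqr hp3
  obtain ⟨b1, e1, hp1⟩ := D.rebase v y1 hy1 b r h6
  rw [e1] at h1 h6 hlm hkl
  obtain ⟨f, hf, hp4⟩ := D.I_inr_two v y1 hy1 b1 r p h1 (Ne.symm hpr) hp1
  have v1 : w = x := congrArg Prod.fst (hq2.symm.trans hp3)
  have v2 : x = v := congrArg Prod.fst (hr3.symm.trans hp1)
  subst v1
  subst v2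
  have k1 : (b2 * D.t y2 ^ a)⁻¹ * b3 ∈ D.H :=
    (D.cls_eq _ _).1 (congrArg Prod.snd (hq2.symm.trans hp3))
  have k2 : (b3 * D.t y3 ^ d)⁻¹ * b1 ∈ D.H :=
    (D.cls_eq _ _).1 (congrArg Prod.snd (hr3.symm.trans hp1))
  have k3 : b2⁻¹ * (b1 * D.t y1 ^ f) ∈ D.H :=
    (D.cls_eq _ _).1 (congrArg Prod.snd (hp2.symm.trans hp4))
  obtain ⟨g1, hg1⟩ : ∃ g, g = (b2 * D.t y2 ^ a)⁻¹ * b3 := ⟨_, rfl⟩
  obtain ⟨g2, hg2⟩ : ∃ g, g = (b3 * D.t y3 ^ d)⁻¹ * b1 := ⟨_, rfl⟩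
  rw [← hg1] at k1
  rw [← hg2] at k2
  have hb3 : b3 = b2 * D.t y2 ^ a * g1 := by rw [hg1, mul_inv_cancel_left]
  have hb1 : b1 = b3 * D.t y3 ^ d * g2 := by rw [hg2, mul_inv_cancel_left]
  have e4 : b2⁻¹ * (b1 * D.t y1 ^ f) =
      D.t y2 ^ a * g1 * D.t y3 ^ d * g2 * D.t y1 ^ f := by
    rw [hb1, hb3]; group
  rw [e4] at k3
  have h7 := D.rhoH _ k3
  rw [map_mul, map_mul, map_mul, map_mul, D.rho_t w y1 hy1, D.rho_t w y2 hy2, D.rho_t w y3 hy3,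
    D.rhoH g1 k1, D.rhoH g2 k2, one_mul, mul_one, mul_one] at h7
  have h8 := D.Q w y2 y3 y1 g1 (g1 * g2) a d f hy2 hy3 hy1 k1 (D.H.mul_mem k1 k2) ha hd (by
    have : D.t y2 ^ a * (g1 * D.t y3 ^ d * g1⁻¹) * (g1 * g2 * D.t y1 ^ f * (g1 * g2)⁻¹) =
        (D.t y2 ^ a * g1 * D.t y3 ^ d * g2 * D.t y1 ^ f) * (g1 * g2)⁻¹ := by group
    rw [this, ← h7, mul_inv_cancel])
  obtain ⟨rfl, h8⟩ := h8
  apply hmk
  rw [hb3, D.ln_h w y2 hy2 _ g1 k1 h8, D.ln_t]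

theorem X0 (l : D.Ln) (p : D.P) (n : ℤ) (hp : D.I p l) (h : D.xl l p ^ n = 1) : n = 0 := by
  rcases l with l | l
  · exact D.i1 p.1 n h
  · exact (EB.Asm.x3 (D.k l.1.1.1 l.1.1.2) (D.k2 _ _ l.1.2)).1 _ n h

theorem L1 (l : D.Ln) (p q : D.P) (a b : ℤ) (hp : D.I p l) (hq : D.I q l) (hpq : p ≠ q)
    (h : D.xl l p ^ a * D.xl l q ^ b = 1) : a = 0 ∧ b = 0 := by
  rcases l with l | l
  · have hp' : p.2 = l := hp
    have hq' : q.2 = l := hq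
    exact D.i2 p.1 q.1 a b (fun e => hpq (Prod.ext e (hp'.trans hq'.symm))) h
  obtain ⟨v, y, hy, b', e⟩ := D.exists_ln l
  rw [e] at hp hq h
  obtain ⟨i, rfl⟩ := (D.I_iff v y hy b' p).1 hp
  obtain ⟨j, rfl⟩ := (D.I_iff v y hy b' q).1 hq
  rw [D.xl_mk, D.xl_mk] at h
  refine (EB.Asm.x3 (D.k v y) (D.k2 _ _ hy)).2.1 _ _ a b ?_ h
  intro hij
  apply hpq
  rw [add_left_cancel hij]

theorem L2 (l : D.Ln) (p q r : D.P) (a b d : ℤ) (hp : D.I p l) (hq : D.I q l) (hr : D.I r l)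
    (hpq : p ≠ q) (hqr : q ≠ r) (hpr : p ≠ r)
    (h : D.xl l p ^ a * D.xl l q ^ b * D.xl l r ^ d = 1) : a = 0 ∧ b = 0 ∧ d = 0 := by
  rcases l with l | l
  · have hp' : p.2 = l := hp
    have hq' : q.2 = l := hq
    have hr' : r.2 = l := hr
    exact D.i3 p.1 q.1 r.1 a b d (fun e => hpq (Prod.ext e (hp'.trans hq'.symm)))
      (fun e => hqr (Prod.ext e (hq'.trans hr'.symm)))
      (fun e => hpr (Prod.ext e (hp'.trans hr'.symm))) h
  obtain ⟨v, y, hy, b', e⟩ := D.exists_ln l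
  rw [e] at hp hq hr h
  obtain ⟨i, rfl⟩ := (D.I_iff v y hy b' p).1 hp
  obtain ⟨j, rfl⟩ := (D.I_iff v y hy b' q).1 hq
  obtain ⟨m, rfl⟩ := (D.I_iff v y hy b' r).1 hr
  rw [D.xl_mk, D.xl_mk, D.xl_mk] at h
  refine (EB.Asm.x3 (D.k v y) (D.k2 _ _ hy)).2.2 _ _ _ a b d ?_ ?_ ?_ h
  · intro hij
    apply hpq
    rw [add_left_cancel hij]
  · intro hij
    apply hqr
    rw [add_left_cancel hij]
  · intro hij
    apply hpr
    rw [add_left_cancel hij]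

/-- the system -/
noncomputable def sys : Sys where
  P := D.P
  Ln := D.Ln
  I := D.I
  L := D.Lg
  grp := D.instGrpLg
  x := D.xl
  P0 := fun p => ⟨.inl p.2, rfl⟩
  Λ0 := fun l => by
    rcases l with l | l
    · exact ⟨(D.v0, l), rfl⟩
    · obtain ⟨v, y, hy, b, e⟩ := D.exists_ln l
      exact ⟨(v, D.cls b), e ▸ D.I_mk0 v y hy b⟩
  X0 := D.X0
  L1 := D.L1
  L2 := D.L2
  G1 := D.G1
  G2 := D.G2

end Dat

end Pool.Agent.H87.Brt
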