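import Pool.Agent.H87.Brt.Ng

set_option autoImplicit false

/-! Products of double cosets. -/

namespace Pool.Agent.H87.Brt

open Pool.Agent.H482R3.EA (W inv ev PP xx evF cond1 cond2 Sys St Near InD Adm Act)
open Pool.Agent.H482R3.EB (alt AR gR)
open Pool.Agent.H482R3
open Pool.Agent.H87.Art (ev_nil ev_append ev_cons ev_inv ev_single map_ev re_ex re_and re_comp
  cp_comp re_or re_true re_false re_const re_all_fin re_ex_fin cp_eq re_case re_chain)

section alg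

variable {n : ℕ} {ι : Type} [DecidableEq ι] {m : Fin n → Fin n → ℕ} {β : Fin n → ι}
  (hb : Blk m β) (T : Finset ι)

/-- `A_T ⟨z⟩ A_T` -/
def D1 (z : Fin n) (k : AR m) : Prop :=
  ∃ (μ ν : AR m) (j : ℤ), μ ∈ Par hb T ∧ ν ∈ Par hb T ∧ k = μ * gR m z ^ j * ν

/-- `⟨z⟩ A_T ⟨y⟩` -/
def D2 (z y : Fin n) (k : AR m) : Prop :=
  ∃ (ν : AR m) (i j : ℤ), ν ∈ Par hb T ∧ k = gR m z ^ i * ν * gR m y ^ j

/-- `A_T ⟨z⟩ A_T ⟨y⟩` -/
def D3 (z y : Fin n) (k : AR m) : Prop :=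
  ∃ (μ ν : AR m) (i j : ℤ), μ ∈ Par hb T ∧ ν ∈ Par hb T ∧
    k = μ * gR m z ^ i * ν * gR m y ^ j

/-- the kernel part -/
noncomputable def kap (Z : ι) (k : AR m) : AR m := ret hb (insert Z T) k * (ret hb T k)⁻¹

theorem sub_ins (Z : ι) : T ⊆ insert Z T := Finset.subset_insert Z T

theorem kap1 (Z : ι) (k : AR m) : ret hb (insert Z T) (kap hb T Z k) = kap hb T Z k := by
  unfold kap
  rw [map_mul, map_inv, ret_sub' hb (sub_ins T Z), ret_ret, Finset.inter_self]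

theorem kap2 (Z : ι) (k : AR m) : ret hb T (kap hb T Z k) = 1 := by
  unfold kap
  rw [map_mul, map_inv, ret_sub hb (sub_ins T Z), ret_ret, Finset.inter_self, mul_inv_cancel]

variable {T}

theorem par_ins {μ : AR m} (Z : ι) (h : μ ∈ Par hb T) : ret hb (insert Z T) μ = μ :=
  Par_mono hb (sub_ins T Z) h

theorem pow_ins {z : Fin n} {Z : ι} (h : β z = Z) (j : ℤ) :
    ret hb (insert Z T) (gR m z ^ j) = gR m z ^ j :=
  ret_pow_mem hb (by rw [h]; exact Finset.mem_insert_self Z T) j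

theorem D1_iff {z : Fin n} (hz : β z ∉ T) (k : AR m) :
    D1 hb T z k ↔ ret hb (insert (β z) T) k = k ∧
    ∃ (j : ℤ) (μ : AR m), μ ∈ Par hb T ∧ kap hb T (β z) k = μ * gR m z ^ j * μ⁻¹ := by
  constructor
  · rintro ⟨μ, ν, j, hμ, hν, rfl⟩
    have h1 : ret hb (insert (β z) T) (μ * gR m z ^ j * ν) = μ * gR m z ^ j * ν := by
      rw [map_mul, map_mul, par_ins hb _ hμ, par_ins hb _ hν, pow_ins hb rfl]
    refine ⟨h1, j, μ, hμ, ?_⟩
    unfold kap
    rw [h1, map_mul, map_mul, hμ, hν, ret_pow_not hb hz]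
    show μ * gR m z ^ j * ν * (μ * 1 * ν)⁻¹ = _
    group
  · rintro ⟨h1, j, μ, hμ, e⟩
    refine ⟨μ, μ⁻¹ * ret hb T k, j, hμ, (Par hb T).mul_mem ((Par hb T).inv_mem hμ)
      (ret_mem hb T k), ?_⟩
    unfold kap at e
    rw [h1] at e
    rw [← mul_assoc, ← e, inv_mul_cancel_right]

theorem D2_iff {z y : Fin n} (hz : β z ∉ T) (hy : β y = β z) (k : AR m) :
    D2 hb T z y k ↔ ret hb (insert (β z) T) k = k ∧
    ∃ (i j : ℤ), kap hb T (β z) k =
      gR m z ^ i * (ret hb T k * gR m y ^ j * (ret hb T k)⁻¹) := by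
  have hyT : β y ∉ T := by rw [hy]; exact hz
  constructor
  · rintro ⟨ν, i, j, hν, rfl⟩
    have h1 : ret hb (insert (β z) T) (gR m z ^ i * ν * gR m y ^ j) =
        gR m z ^ i * ν * gR m y ^ j := by
      rw [map_mul, map_mul, pow_ins hb rfl, pow_ins hb hy, par_ins hb _ hν]
    have h2 : ret hb T (gR m z ^ i * ν * gR m y ^ j) = ν := by
      rw [map_mul, map_mul, hν, ret_pow_not hb hz, ret_pow_not hb hyT]
      show 1 * ν * 1 = ν
      group
    refine ⟨h1, i, j, ?_⟩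
    unfold kap
    rw [h1, h2]
    group
  · rintro ⟨h1, i, j, e⟩
    refine ⟨ret hb T k, i, j, ret_mem hb T k, ?_⟩
    unfold kap at e
    rw [h1] at e
    have e2 := eq_mul_inv_iff_mul_eq.1 (e.trans (by group :
      gR m z ^ i * (ret hb T k * gR m y ^ j * (ret hb T k)⁻¹) =
        gR m z ^ i * ret hb T k * gR m y ^ j * (ret hb T k)⁻¹))
    rw [inv_mul_cancel_right] at e2
    exact e2

theorem D3_iff {z y : Fin n} (hz : β z ∉ T) (hy : β y = β z) (k : AR m) :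
    D3 hb T z y k ↔ ret hb (insert (β z) T) k = k ∧
    ∃ (b a : ℤ) (μ : AR m), μ ∈ Par hb T ∧ (kap hb T (β z) k)⁻¹ =
      ret hb T k * gR m y ^ b * (ret hb T k)⁻¹ * (μ * gR m z ^ a * μ⁻¹) := by
  have hyT : β y ∉ T := by rw [hy]; exact hz
  constructor
  · rintro ⟨μ, ν, i, j, hμ, hν, rfl⟩
    have h1 : ret hb (insert (β z) T) (μ * gR m z ^ i * ν * gR m y ^ j) =
        μ * gR m z ^ i * ν * gR m y ^ j := by
      rw [map_mul, map_mul, map_mul, pow_ins hb rfl, pow_ins hb hy, par_ins hb _ hν,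
        par_ins hb _ hμ]
    have h2 : ret hb T (μ * gR m z ^ i * ν * gR m y ^ j) = μ * ν := by
      rw [map_mul, map_mul, map_mul, hμ, hν, ret_pow_not hb hz, ret_pow_not hb hyT]
      show μ * 1 * ν * 1 = μ * ν
      group
    refine ⟨h1, -j, -i, μ, hμ, ?_⟩
    unfold kap
    rw [h1, h2]
    group
  · rintro ⟨h1, b, a, μ, hμ, e⟩
    refine ⟨μ, μ⁻¹ * ret hb T k, -a, -b, hμ, (Par hb T).mul_mem ((Par hb T).inv_mem hμ)
      (ret_mem hb T k), ?_⟩
    have e2 := congrArg (fun g => g⁻¹) e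
    simp only [inv_inv] at e2
    unfold kap at e2
    rw [h1] at e2
    have e3 : k = (k * (ret hb T k)⁻¹) * ret hb T k := by group
    rw [e3, e2]
    have e4 : ret hb T (ret hb T k) = ret hb T k := ret_mem hb T k
    have e5 : ret hb T (((ret hb T) k * gR m y ^ b * ((ret hb T) k)⁻¹ *
        (μ * gR m z ^ a * μ⁻¹))⁻¹ * (ret hb T) k) = ret hb T k := by
      rw [map_mul, map_inv, map_mul, map_mul, map_mul, map_mul, map_mul, map_inv, map_inv, e4,
        hμ, ret_pow_not hb hz, ret_pow_not hb hyT]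
      show (ret hb T k * 1 * (ret hb T k)⁻¹ * (μ * 1 * μ⁻¹))⁻¹ * ret hb T k = ret hb T k
      group
    rw [e5]
    group

/-- three conjugates -/
theorem QQ3 {Z : ι} (hq : QQ hb T Z) {v1 v2 v3 : Fin n} {l μ μ' : AR m} {a b d : ℤ}
    (e1 : β v1 = Z) (e2 : β v2 = Z) (e3 : β v3 = Z) (hl : l ∈ Par hb T) (hμ : μ ∈ Par hb T)
    (hμ' : μ' ∈ Par hb T) (ha : a ≠ 0) (hb' : b ≠ 0)
    (h : (l * gR m v1 ^ a * l⁻¹) * (μ * gR m v2 ^ b * μ⁻¹) * (μ' * gR m v3 ^ d * μ'⁻¹) = 1) :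
    v1 = v2 ∧ l⁻¹ * μ ∈ Par hb (com m β T Z) := by
  refine hq v1 v2 v3 (l⁻¹ * μ) (l⁻¹ * μ') a b d e1 e2 e3
    ((Par hb T).mul_mem ((Par hb T).inv_mem hl) hμ)
    ((Par hb T).mul_mem ((Par hb T).inv_mem hl) hμ') ha hb' ?_
  have h1 : gR m v1 ^ a * (l⁻¹ * μ * gR m v2 ^ b * (l⁻¹ * μ)⁻¹) *
      (l⁻¹ * μ' * gR m v3 ^ d * (l⁻¹ * μ')⁻¹) =
      l⁻¹ * ((l * gR m v1 ^ a * l⁻¹) * (μ * gR m v2 ^ b * μ⁻¹) *
        (μ' * gR m v3 ^ d * μ'⁻¹)) * l := by group
  rw [h1, h]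
  group

/-- two conjugates -/
theorem QQ2 {Z : ι} (hq : QQ hb T Z) {v1 v2 : Fin n} {l μ : AR m} {a b : ℤ}
    (e1 : β v1 = Z) (e2 : β v2 = Z) (hl : l ∈ Par hb T) (hμ : μ ∈ Par hb T) (ha : a ≠ 0)
    (h : (l * gR m v1 ^ a * l⁻¹) * (μ * gR m v2 ^ b * μ⁻¹) = 1) :
    v1 = v2 ∧ l⁻¹ * μ ∈ Par hb (com m β T Z) := by
  have hb' : b ≠ 0 := by
    rintro rfl
    rw [zpow_zero, mul_one, mul_inv_cancel, mul_one] at h
    apply ha
    apply gen_zpow_one hb (z := v1)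
    have h1 : gR m v1 ^ a = l⁻¹ * (l * gR m v1 ^ a * l⁻¹) * l := by group
    rw [h1, h]
    group
  refine QQ3 hb hq (v3 := v1) (μ' := 1) (d := 0) e1 e2 e1 hl hμ (Par hb T).one_mem ha hb' ?_
  rw [h]
  group

variable {z : Fin n} (hq : QQ hb T (β z))

include hq in
theorem notE1 (κ : AR m) :
    (¬ ∃ (j : ℤ) (μ : AR m), μ ∈ Par hb T ∧ κ = μ * gR m z ^ j * μ⁻¹) ↔
    ¬ ZZ hb T z κ z 1 ∨
    ∃ (b a : ℤ) (w : Fin n) (g : AR m), β w = β z ∧
      κ = gR m z ^ b * (ret hb T g * gR m w ^ a * (ret hb T g)⁻¹) ∧ a ≠ 0 ∧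
      (w ≠ z ∨ (b ≠ 0 ∧ ret hb (com m β T (β z)) (ret hb T g) ≠ ret hb T g)) := by
  constructor
  · intro h
    by_cases hZ : ZZ hb T z κ z 1
    · right
      obtain ⟨b, a, w, μ, hw, hμ, e⟩ := hZ
      have e' : κ = gR m z ^ b * (μ * gR m w ^ a * μ⁻¹) := by rw [e]; group
      have hμ' : ret hb T μ = μ := hμ
      refine ⟨b, a, w, μ, hw, by rw [hμ']; exact e', ?_, ?_⟩
      · rintro rfl
        exact h ⟨b, 1, (Par hb T).one_mem, by rw [e']; group⟩
      · by_cases hwz : w = z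
        · right
          rw [hwz] at e'
          refine ⟨?_, ?_⟩
          · rintro rfl
            exact h ⟨a, μ, hμ, by rw [e']; group⟩
          · rw [hμ']
            intro h1
            have h2 : Commute μ (gR m z) := com_commute hb h1
            rw [(h2.zpow_right a).eq, mul_inv_cancel_right, ← zpow_add] at e'
            exact h ⟨b + a, 1, (Par hb T).one_mem, by rw [e']; group⟩
        · exact Or.inl hwz
    · exact Or.inl hZ
  · rintro (h | ⟨b, a, w, g, hw, e, ha, hc⟩) ⟨j, μ', hμ', e'⟩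
    · exact h ⟨0, j, z, μ', rfl, hμ', by rw [e']; group⟩
    · have hμ := ret_mem hb T g
      generalize ret hb T g = μ at *
      by_cases hb' : b = 0
      · subst hb'
        have h1 : w ≠ z := by
          rcases hc with hc | hc
          · exact hc
          · exact absurd rfl hc.1
        have h2 := QQ2 hb hq (l := μ) (μ := μ') (a := a) (b := -j) hw rfl hμ hμ' ha (by
          rw [zpow_zero, one_mul] at e
          rw [← e, e']
          group)
        exact h1 h2.1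
      · have h2 := QQ3 hb hq (l := 1) (μ := μ) (μ' := μ') (a := b) (b := a) (d := -j)
          rfl hw rfl (Par hb T).one_mem hμ hμ' hb' ha (by
            have h3 : 1 * gR m z ^ b * 1⁻¹ * (μ * gR m w ^ a * μ⁻¹) *
              (μ' * gR m z ^ (-j) * μ'⁻¹) =
              (gR m z ^ b * (μ * gR m w ^ a * μ⁻¹)) * (μ' * gR m z ^ j * μ'⁻¹)⁻¹ := by group
            rw [h3, ← e, ← e', mul_inv_cancel])
        rcases hc with hc | hc
        · exact hc h2.1.symm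
        · apply hc.2
          have h4 := h2.2
          rw [inv_one, one_mul] at h4
          exact h4

include hq in
theorem notE2 {y : Fin n} (hy : β y = β z) (κ l : AR m) (hl : l ∈ Par hb T) :
    (¬ ∃ (i j : ℤ), κ = gR m z ^ i * (l * gR m y ^ j * l⁻¹)) ↔
    ¬ ZZ hb T z κ z 1 ∨
    ∃ (b a : ℤ) (w : Fin n) (g : AR m), β w = β z ∧
      κ = gR m z ^ b * (ret hb T g * gR m w ^ a * (ret hb T g)⁻¹) ∧ a ≠ 0 ∧
      (w ≠ z ∨ ret hb (com m β T (β z)) (ret hb T g) ≠ ret hb T g) ∧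
      (w ≠ y ∨ ret hb (com m β T (β z)) ((ret hb T g)⁻¹ * l) ≠ (ret hb T g)⁻¹ * l) := by
  constructor
  · intro h
    by_cases hZ : ZZ hb T z κ z 1
    · right
      obtain ⟨b, a, w, μ, hw, hμ, e⟩ := hZ
      have e' : κ = gR m z ^ b * (μ * gR m w ^ a * μ⁻¹) := by rw [e]; group
      have hμ' : ret hb T μ = μ := hμ
      refine ⟨b, a, w, μ, hw, by rw [hμ']; exact e', ?_, ?_, ?_⟩
      · rintro rfl
        exact h ⟨b, 0, by rw [e']; group⟩
      · by_cases hwz : w = z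
        · right
          rw [hwz] at e'
          rw [hμ']
          intro h1
          have h2 : Commute μ (gR m z) := com_commute hb h1
          rw [(h2.zpow_right a).eq, mul_inv_cancel_right, ← zpow_add] at e'
          exact h ⟨b + a, 0, by rw [e']; group⟩
        · exact Or.inl hwz
      · by_cases hwy : w = y
        · right
          rw [hwy] at e'
          rw [hμ']
          intro h1
          have h2 : Commute (μ⁻¹ * l) (gR m y) := by
            rw [← hy] at h1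
            exact com_commute hb h1
          have h3 : μ * gR m y ^ a * μ⁻¹ = l * gR m y ^ a * l⁻¹ := by
            have h4 : l = μ * (μ⁻¹ * l) := by group
            rw [h4, mul_assoc μ (μ⁻¹ * l), (h2.zpow_right a).eq]
            group
          rw [h3] at e'
          exact h ⟨b, a, e'⟩
        · exact Or.inl hwy
    · exact Or.inl hZ
  · rintro (h | ⟨b, a, w, g, hw, e, ha, hc1, hc2⟩) ⟨i, j, e'⟩
    · exact h ⟨i, j, y, l, hy, hl, by rw [e']; group⟩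
    · have hμ := ret_mem hb T g
      generalize ret hb T g = μ at *
      have e2 : (1 * gR m z ^ (b - i) * 1⁻¹) * (μ * gR m w ^ a * μ⁻¹) *
          (l * gR m y ^ (-j) * l⁻¹) = 1 := by
        have e3 : (1 * gR m z ^ (b - i) * 1⁻¹) * (μ * gR m w ^ a * μ⁻¹) *
          (l * gR m y ^ (-j) * l⁻¹) =
            gR m z ^ (-i) * (gR m z ^ b * (μ * gR m w ^ a * μ⁻¹)) *
              (l * gR m y ^ (-j) * l⁻¹) := by group
        rw [e3, ← e, e']
        group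
      by_cases hbi : b - i = 0
      · rw [hbi] at e2
        have h2 := QQ2 hb hq (l := μ) (μ := l) (a := a) (b := -j) hw hy hμ hl ha (by
          rw [← e2]
          group)
        rcases hc2 with hc | hc
        · exact hc h2.1
        · exact hc h2.2
      · have h2 := QQ3 hb hq (l := 1) (μ := μ) (μ' := l) rfl hw hy (Par hb T).one_mem hμ hl
          hbi ha e2
        rcases hc1 with hc | hc
        · exact hc h2.1.symm
        · apply hc
          have h4 := h2.2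
          rw [inv_one, one_mul] at h4
          exact h4

include hq in
theorem notE3 {y : Fin n} (hy : β y = β z) (κ l : AR m) (hl : l ∈ Par hb T) :
    (¬ ∃ (b a : ℤ) (μ : AR m), μ ∈ Par hb T ∧
      κ = l * gR m y ^ b * l⁻¹ * (μ * gR m z ^ a * μ⁻¹)) ↔
    ¬ ZZ hb T z κ y l ∨
    ∃ (b a : ℤ) (w : Fin n) (g : AR m), β w = β z ∧
      κ = l * gR m y ^ b * l⁻¹ * (ret hb T g * gR m w ^ a * (ret hb T g)⁻¹) ∧ a ≠ 0 ∧
      w ≠ z ∧ (w ≠ y ∨ ret hb (com m β T (β z)) (l⁻¹ * ret hb T g) ≠ l⁻¹ * ret hb T g) := by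
  constructor
  · intro h
    by_cases hZ : ZZ hb T z κ y l
    · right
      obtain ⟨b, a, w, μ, hw, hμ, e'⟩ := hZ
      have hμ' : ret hb T μ = μ := hμ
      refine ⟨b, a, w, μ, hw, by rw [hμ']; exact e', ?_, ?_, ?_⟩
      · rintro rfl
        exact h ⟨b, 0, 1, (Par hb T).one_mem, by rw [e']; group⟩
      · rintro rfl
        exact h ⟨b, a, μ, hμ, e'⟩
      · by_cases hwy : w = y
        · right
          rw [hwy] at e'
          rw [hμ']
          intro h1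
          have h2 : Commute (l⁻¹ * μ) (gR m y) := by
            rw [← hy] at h1
            exact com_commute hb h1
          have h3 : μ * gR m y ^ a * μ⁻¹ = l * gR m y ^ a * l⁻¹ := by
            have h4 : μ = l * (l⁻¹ * μ) := by group
            rw [h4, mul_assoc l (l⁻¹ * μ), (h2.zpow_right a).eq]
            group
          rw [h3] at e'
          exact h ⟨b + a, 0, 1, (Par hb T).one_mem, by rw [e', zpow_add]; group⟩
        · exact Or.inl hwy
    · exact Or.inl hZ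
  · rintro (h | ⟨b, a, w, g, hw, e, ha, hc1, hc2⟩) ⟨b', a', μ', hμ', e'⟩
    · exact h ⟨b', a', z, μ', rfl, hμ', e'⟩
    · have hμ := ret_mem hb T g
      generalize ret hb T g = μ at *
      have e2 : (l * gR m y ^ (b - b') * l⁻¹) * (μ * gR m w ^ a * μ⁻¹) *
          (μ' * gR m z ^ (-a') * μ'⁻¹) = 1 := by
        have e3 : (l * gR m y ^ (b - b') * l⁻¹) * (μ * gR m w ^ a * μ⁻¹) *
          (μ' * gR m z ^ (-a') * μ'⁻¹) =
            (l * gR m y ^ (-b') * l⁻¹) * (l * gR m y ^ b * l⁻¹ * (μ * gR m w ^ a * μ⁻¹)) *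
              (μ' * gR m z ^ (-a') * μ'⁻¹) := by group
        rw [e3, ← e, e']
        group
      by_cases hbi : b - b' = 0
      · rw [hbi] at e2
        have h2 := QQ2 hb hq (l := μ) (μ := μ') (a := a) (b := -a') hw rfl hμ hμ' ha (by
          rw [← e2]
          group)
        exact hc1 h2.1
      · have h2 := QQ3 hb hq (l := l) (μ := μ) (μ' := μ') hy hw rfl hl hμ hμ' hbi ha e2
        rcases hc2 with hc | hc
        · exact hc h2.1.symm
        · exact hc h2.2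

end alg

section re

variable {n : ℕ} {ι : Type} [DecidableEq ι] {m : Fin n → Fin n → ℕ} {β : Fin n → ι}
  (hb : Blk m β) (hB : ∀ X, ComputablePred fun u : W (Fin n) => ret hb {X} (ev (gR m) u) = 1)
  (L T : Finset ι) (z : Fin n) (hTL : T ⊆ L) (hzL : β z ∈ L) (hzT : β z ∉ T)
  (hQ : ∀ Y ∈ T, Y ∉ com m β T (β z) → QQ hb (com m β T (β z)) Y) (hN : NN hb L)
  (hV : VR hb T z hQ) {α : Type} [Primcodable α]

theorem re_ZP {Pz : Fin n → α → ℤ → ℤ → AR m → Prop}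
    (h : ∀ w, REPred fun q : ((α × (ℕ × ℕ)) × (ℕ × ℕ)) × W (Fin n) =>
      Pz w q.1.1.1 ((q.1.1.2.1 : ℤ) - (q.1.1.2.2 : ℤ)) ((q.1.2.1 : ℤ) - (q.1.2.2 : ℤ))
        (ev (gR m) q.2)) :
    REPred fun a => ∃ (b a' : ℤ) (w : Fin n) (g : AR m), Pz w a b a' g := by
  refine re_exZ (P := fun (a : α) (b : ℤ) => ∃ (a' : ℤ) (w : Fin n) (g : AR m), Pz w a b a' g) ?_
  refine re_exZ (P := fun (p : α × (ℕ × ℕ)) (a' : ℤ) => ∃ (w : Fin n) (g : AR m),
    Pz w p.1 ((p.2.1 : ℤ) - (p.2.2 : ℤ)) a' g) ?_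
  refine re_ex_fin (fun (w : Fin n) (p : (α × (ℕ × ℕ)) × (ℕ × ℕ)) => ∃ (g : AR m),
    Pz w p.1.1 ((p.1.2.1 : ℤ) - (p.1.2.2 : ℤ)) ((p.2.1 : ℤ) - (p.2.2 : ℤ)) g) fun w => ?_
  exact re_exG (P := fun (p : (α × (ℕ × ℕ)) × (ℕ × ℕ)) (g : AR m) =>
    Pz w p.1.1 ((p.1.2.1 : ℤ) - (p.1.2.2 : ℤ)) ((p.2.1 : ℤ) - (p.2.2 : ℤ)) g) (h w)

/-- the first integer of a tuple is not zero -/
theorem re_b0 : REPred fun q : ((α × (ℕ × ℕ)) × (ℕ × ℕ)) × W (Fin n) =>
    (q.1.1.2.1 : ℤ) - (q.1.1.2.2 : ℤ) ≠ 0 :=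
  re_comp cp_ne0.to_re (f := fun q : ((α × (ℕ × ℕ)) × (ℕ × ℕ)) × W (Fin n) => q.1.1.2)
    (Computable.snd.comp (Computable.fst.comp Computable.fst))

theorem re_a0 : REPred fun q : ((α × (ℕ × ℕ)) × (ℕ × ℕ)) × W (Fin n) =>
    (q.1.2.1 : ℤ) - (q.1.2.2 : ℤ) ≠ 0 :=
  re_comp cp_ne0.to_re (f := fun q : ((α × (ℕ × ℕ)) × (ℕ × ℕ)) × W (Fin n) => q.1.2)
    (Computable.snd.comp Computable.fst)

theorem cg_q0 {φ : α → AR m} (h : CG m φ) :
    CG m fun q : ((α × (ℕ × ℕ)) × (ℕ × ℕ)) × W (Fin n) => φ q.1.1.1 :=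
  h.comp (Computable.fst.comp (Computable.fst.comp Computable.fst))

theorem cg_qb (y : Fin n) : CG m fun q : ((α × (ℕ × ℕ)) × (ℕ × ℕ)) × W (Fin n) =>
    gR m y ^ ((q.1.1.2.1 : ℤ) - (q.1.1.2.2 : ℤ)) :=
  (cg_zpow y).comp (Computable.snd.comp (Computable.fst.comp Computable.fst))

theorem cg_qa (y : Fin n) : CG m fun q : ((α × (ℕ × ℕ)) × (ℕ × ℕ)) × W (Fin n) =>
    gR m y ^ ((q.1.2.1 : ℤ) - (q.1.2.2 : ℤ)) :=
  (cg_zpow y).comp (Computable.snd.comp Computable.fst)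

theorem cg_qg : CG m fun q : ((α × (ℕ × ℕ)) × (ℕ × ℕ)) × W (Fin n) => ev (gR m) q.2 :=
  CG.word Computable.snd

include hTL hN in
/-- an element outside the subgroup -/
theorem re_nP {U : Finset ι} (hU : U ⊆ T) {φ : α → AR m} (h : CG m φ)
    (hφ : ∀ a, ret hb T (φ a) = φ a) : REPred fun a => ret hb U (φ a) ≠ φ a := by
  refine (re_neG hN (h.ret hb U) h).of_eq fun a => ?_
  have h2 : ret hb L (φ a) = φ a := by
    rw [← hφ, ret_sub' hb hTL]
  rw [ret_sub' hb (hU.trans hTL), h2]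

include hTL hzL in
theorem ins_sub : insert (β z) T ⊆ L := Finset.insert_subset hzL hTL

include hTL hN in
theorem re_X1 {φ : α → AR m} (h1 : CG m φ) : REPred fun a =>
    ∃ (b a' : ℤ) (w : Fin n) (g : AR m), β w = β z ∧
      φ a = gR m z ^ b * (ret hb T g * gR m w ^ a' * (ret hb T g)⁻¹) ∧ a' ≠ 0 ∧
      (w ≠ z ∨ (b ≠ 0 ∧ ret hb (com m β T (β z)) (ret hb T g) ≠ ret hb T g)) := by
  refine re_ZP (Pz := fun w a b a' g => β w = β z ∧
      φ a = gR m z ^ b * (ret hb T g * gR m w ^ a' * (ret hb T g)⁻¹) ∧ a' ≠ 0 ∧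
      (w ≠ z ∨ (b ≠ 0 ∧ ret hb (com m β T (β z)) (ret hb T g) ≠ ret hb T g))) fun w => ?_
  refine re_and (re_const _) (re_and ?_ (re_and re_a0 (re_or (re_const _) (re_and re_b0 ?_))))
  · exact re_eqG (cg_q0 h1) ((cg_qb z).mul (((cg_qg.ret hb T).mul (cg_qa w)).mul
      (cg_qg.ret hb T).iv))
  · exact re_nP hb L T hTL hN (com_sub T (β z)) (cg_qg.ret hb T)
      (fun a => by rw [ret_ret, Finset.inter_self])

include hTL hN in
theorem re_X2 (y : Fin n) {φ ψ : α → AR m} (h1 : CG m φ) (h2 : CG m ψ)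
    (hψ : ∀ a, ret hb T (ψ a) = ψ a) : REPred fun a =>
    ∃ (b a' : ℤ) (w : Fin n) (g : AR m), β w = β z ∧
      φ a = gR m z ^ b * (ret hb T g * gR m w ^ a' * (ret hb T g)⁻¹) ∧ a' ≠ 0 ∧
      (w ≠ z ∨ ret hb (com m β T (β z)) (ret hb T g) ≠ ret hb T g) ∧
      (w ≠ y ∨ ret hb (com m β T (β z)) ((ret hb T g)⁻¹ * ψ a) ≠
        (ret hb T g)⁻¹ * ψ a) := by
  refine re_ZP (Pz := fun w a b a' g => β w = β z ∧
      φ a = gR m z ^ b * (ret hb T g * gR m w ^ a' * (ret hb T g)⁻¹) ∧ a' ≠ 0 ∧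
      (w ≠ z ∨ ret hb (com m β T (β z)) (ret hb T g) ≠ ret hb T g) ∧
      (w ≠ y ∨ ret hb (com m β T (β z)) ((ret hb T g)⁻¹ * ψ a) ≠
        (ret hb T g)⁻¹ * ψ a)) fun w => ?_
  refine re_and (re_const _) (re_and ?_ (re_and re_a0 (re_and (re_or (re_const _) ?_)
    (re_or (re_const _) ?_))))
  · exact re_eqG (cg_q0 h1) ((cg_qb z).mul (((cg_qg.ret hb T).mul (cg_qa w)).mul
      (cg_qg.ret hb T).iv))
  · exact re_nP hb L T hTL hN (com_sub T (β z)) (cg_qg.ret hb T)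
      (fun a => by rw [ret_ret, Finset.inter_self])
  · exact re_nP hb L T hTL hN (com_sub T (β z)) ((cg_qg.ret hb T).iv.mul (cg_q0 h2))
      (fun a => by rw [map_mul, map_inv, ret_ret, Finset.inter_self, hψ])

include hTL hN in
theorem re_X3 (y : Fin n) {φ ψ : α → AR m} (h1 : CG m φ) (h2 : CG m ψ)
    (hψ : ∀ a, ret hb T (ψ a) = ψ a) : REPred fun a =>
    ∃ (b a' : ℤ) (w : Fin n) (g : AR m), β w = β z ∧
      φ a = ψ a * gR m y ^ b * (ψ a)⁻¹ *
        (ret hb T g * gR m w ^ a' * (ret hb T g)⁻¹) ∧ a' ≠ 0 ∧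
      w ≠ z ∧ (w ≠ y ∨ ret hb (com m β T (β z)) ((ψ a)⁻¹ * ret hb T g) ≠
        (ψ a)⁻¹ * ret hb T g) := by
  refine re_ZP (Pz := fun w a b a' g => β w = β z ∧
      φ a = ψ a * gR m y ^ b * (ψ a)⁻¹ *
        (ret hb T g * gR m w ^ a' * (ret hb T g)⁻¹) ∧ a' ≠ 0 ∧
      w ≠ z ∧ (w ≠ y ∨ ret hb (com m β T (β z)) ((ψ a)⁻¹ * ret hb T g) ≠
        (ψ a)⁻¹ * ret hb T g)) fun w => ?_
  refine re_and (re_const _) (re_and ?_ (re_and re_a0 (re_and (re_const _)
    (re_or (re_const _) ?_))))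
  · exact re_eqG (cg_q0 h1) ((((cg_q0 h2).mul (cg_qb y)).mul (cg_q0 h2).iv).mul
      (((cg_qg.ret hb T).mul (cg_qa w)).mul (cg_qg.ret hb T).iv))
  · exact re_nP hb L T hTL hN (com_sub T (β z)) ((cg_q0 h2).iv.mul (cg_qg.ret hb T))
      (fun a => by rw [map_mul, map_inv, ret_ret, Finset.inter_self, hψ])

include hB hTL hzL hzT hN hV in
theorem re_nD1 {φ : α → AR m} (h1 : CG m φ) (hφ : ∀ a, ret hb L (φ a) = φ a) :
    REPred fun a => ¬ D1 hb T z (φ a) := by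
  have hq := QQ_all hb T (β z) hzT
  have hk : CG m fun a => kap hb T (β z) (φ a) :=
    (h1.ret hb (insert (β z) T)).mul (h1.ret hb T).iv
  have e1 := re_neG hN (h1.ret hb (insert (β z) T)) h1
  have e2 := re_NZ hb T z hQ hB (hN.mono hTL) hV ⟨z, rfl⟩ hk (CG.one (α := α))
  have e3 := re_X1 hb L T z hTL hN hk
  refine (re_or e1 (re_or e2 e3)).of_eq fun a => ?_
  rw [D1_iff hb hzT, not_and_or, notE1 hb hq, ret_sub' hb (ins_sub L T z hTL hzL), hφ,
    NZ_iff hb T z hQ hzT _ _ _ (kap1 hb T (β z) _) (kap2 hb T (β z) _) (Par hb T).one_mem]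

include hB hTL hzL hzT hN hV in
theorem re_nD2 (y : Fin n) (hy : β y = β z) {φ : α → AR m} (h1 : CG m φ)
    (hφ : ∀ a, ret hb L (φ a) = φ a) : REPred fun a => ¬ D2 hb T z y (φ a) := by
  have hq := QQ_all hb T (β z) hzT
  have hk : CG m fun a => kap hb T (β z) (φ a) :=
    (h1.ret hb (insert (β z) T)).mul (h1.ret hb T).iv
  have e1 := re_neG hN (h1.ret hb (insert (β z) T)) h1
  have e2 := re_NZ hb T z hQ hB (hN.mono hTL) hV ⟨z, rfl⟩ hk (CG.one (α := α))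
  have e3 := re_X2 hb L T z hTL hN y hk (h1.ret hb T) (fun a => ret_mem hb T _)
  refine (re_or e1 (re_or e2 e3)).of_eq fun a => ?_
  rw [D2_iff hb hzT hy, not_and_or, notE2 hb hq hy _ _ (ret_mem hb T _),
    ret_sub' hb (ins_sub L T z hTL hzL), hφ,
    NZ_iff hb T z hQ hzT _ _ _ (kap1 hb T (β z) _) (kap2 hb T (β z) _) (Par hb T).one_mem]

include hB hTL hzL hzT hN hV in
theorem re_nD3 (y : Fin n) (hy : β y = β z) {φ : α → AR m} (h1 : CG m φ)
    (hφ : ∀ a, ret hb L (φ a) = φ a) : REPred fun a => ¬ D3 hb T z y (φ a) := by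
  have hq := QQ_all hb T (β z) hzT
  have hk : CG m fun a => (kap hb T (β z) (φ a))⁻¹ :=
    ((h1.ret hb (insert (β z) T)).mul (h1.ret hb T).iv).iv
  have e1 := re_neG hN (h1.ret hb (insert (β z) T)) h1
  have e2 := re_NZ hb T z hQ hB (hN.mono hTL) hV ⟨y, hy⟩ hk (h1.ret hb T)
  have e3 := re_X3 hb L T z hTL hN y hk (h1.ret hb T) (fun a => ret_mem hb T _)
  refine (re_or e1 (re_or e2 e3)).of_eq fun a => ?_
  have k1 : ret hb (insert (β z) T) (kap hb T (β z) (φ a))⁻¹ = (kap hb T (β z) (φ a))⁻¹ := by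
    rw [map_inv, kap1]
  have k2 : ret hb T (kap hb T (β z) (φ a))⁻¹ = 1 := by
    rw [map_inv, kap2, inv_one]
  rw [D3_iff hb hzT hy, not_and_or, notE3 hb hq hy _ _ (ret_mem hb T _),
    ret_sub' hb (ins_sub L T z hTL hzL), hφ,
    NZ_iff hb T z hQ hzT _ _ _ k1 k2 (ret_mem hb T _)]

end re

end Pool.Agent.H87.Brt
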