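import Pool.Agent.H87.Brt.Sem

set_option autoImplicit false

/-! The systems of an Artin group with blocks, and the action of the group. -/

namespace Pool.Agent.H87.Brt

open Pool.Agent.H482R3.EA (W inv ev PP xx evF cond1 cond2 Sys St Near InD Adm Act)
open Pool.Agent.H482R3.EB (alt AR gR)
open Pool.Agent.H482R3
open Pool.Agent.H87.Art (ev_nil ev_append ev_cons ev_inv ev_single map_ev)

section lev

variable {n : ℕ} {ι : Type} [DecidableEq ι] {m : Fin n → Fin n → ℕ} {β : Fin n → ι}
  (hb : Blk m β)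

/-- no short relations between conjugates of powers of the letters of `Y` -/
def QQ (T : Finset ι) (Y : ι) : Prop :=
  ∀ (v1 v2 v3 : Fin n) (h1 h2 : AR m) (a b d : ℤ), β v1 = Y → β v2 = Y → β v3 = Y →
    h1 ∈ Par hb T → h2 ∈ Par hb T → a ≠ 0 → b ≠ 0 →
    gR m v1 ^ a * (h1 * gR m v2 ^ b * h1⁻¹) * (h2 * gR m v3 ^ d * h2⁻¹) = 1 →
    v1 = v2 ∧ h1 ∈ Par hb (com m β T Y)

/-- the retraction as a map onto the subgroup -/
noncomputable def rL (L : Finset ι) : AR m →* Par hb L :=
  (ret hb L).codRestrict (Par hb L) (ret_mem hb L)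

theorem rL_val (L : Finset ι) (g : AR m) : (rL hb L g : AR m) = ret hb L g := rfl

theorem rL_par {L : Finset ι} (b : Par hb L) : rL hb L (b : AR m) = b := Subtype.ext b.2

/-- the letters of the block of `x` -/
def lst (β : Fin n → ι) (x : Fin n) : List (Fin n) :=
  (List.finRange n).filter (fun s => decide (β s = β x))

theorem mem_lst (x s : Fin n) : s ∈ lst β x ↔ β s = β x := by
  unfold lst
  rw [List.mem_filter]
  simp

/-- enumeration of the letters of the block -/
def nuF (β : Fin n → ι) (x : Fin n) (r : ℕ) : Fin n := (lst β x).getD r x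

theorem nuF_mem (x : Fin n) (r : ℕ) : β (nuF β x r) = β x := by
  unfold nuF
  by_cases h : r < (lst β x).length
  · rw [List.getD_eq_getElem _ _ h]
    exact (mem_lst x _).1 (List.getElem_mem h)
  · rw [List.getD_eq_default _ _ (by omega)]

theorem nuF_surj (x s : Fin n) (h : β s = β x) : ∃ r, nuF β x r = s := by
  obtain ⟨r, hr, e⟩ := List.getElem_of_mem ((mem_lst x s).2 h)
  exact ⟨r, by unfold nuF; rw [List.getD_eq_getElem _ _ hr, e]⟩

omit [DecidableEq ι] in
include hb in
theorem tame : EB.Tame m := EB.t_TAME (Fin n) m hb.sy hb.ne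

omit [DecidableEq ι] in
theorem bsub (L : Finset ι) (x y v : Fin n) (hv : β v = β x)
    (h2 : 2 ≤ m v y / 2) : β y ∉ com m β L (β x) := by
  intro h
  have := (mem_com.1 h).2 v y hv rfl
  omega

/-- the datum of `L` and the block of `x` -/
noncomputable def dat (L : Finset ι) (x : Fin n)
    (hQ : ∀ Y ∈ L, Y ∉ com m β L (β x) → QQ hb (com m β L (β x)) Y) : Dat where
  B := Par hb L
  gB := inferInstance
  H := (Par hb (com m β L (β x))).subgroupOf (Par hb L)
  V := {s : Fin n // β s = β x}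
  v0 := ⟨x, rfl⟩
  G := Par hb {β x}
  gG := inferInstance
  g := fun v => ⟨gR m v.1, gen_mem hb (Finset.mem_singleton.2 v.2)⟩
  i1 := by
    intro v a h
    have h1 := congrArg Subtype.val h
    exact gen_zpow_one hb (z := v.1) (by simpa using h1)
  i2 := by
    intro v w a b hvw h
    have h1 := congrArg Subtype.val h
    exact (tame hb).i2 v.1 w.1 a b (fun e => hvw (Subtype.ext e)) (by simpa using h1)
  i3 := by
    intro u v w a b d h12 h23 h13 h
    have h1 := congrArg Subtype.val h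
    exact (tame hb).i3 u.1 v.1 w.1 a b d (fun e => h12 (Subtype.ext e))
      (fun e => h23 (Subtype.ext e)) (fun e => h13 (Subtype.ext e)) (by simpa using h1)
  nu := fun r => ⟨nuF β x r, nuF_mem x r⟩
  gs := by
    intro y
    obtain ⟨u, hu⟩ := exists_fl hb {β x} y.1 y.2
    have h2 : ∀ a ∈ fl β {β x} u, β a.1 = β x := by
      intro a ha
      have := List.of_mem_filter ha
      simpa using this
    have key : ∀ v : W (Fin n), (∀ a ∈ v, β a.1 = β x) →
        ∃ w : W ℕ, ev (fun r => gR m (nuF β x r)) w = ev (gR m) v := by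
      intro v
      induction v with
      | nil => intro _; exact ⟨[], rfl⟩
      | cons a v ih =>
        intro hv
        obtain ⟨w, hw⟩ := ih (fun b hb => hv b (List.mem_cons_of_mem _ hb))
        obtain ⟨r, hr⟩ := nuF_surj x a.1 (hv a List.mem_cons_self)
        refine ⟨(r, a.2) :: w, ?_⟩
        rw [ev_cons, ev_cons, hw, hr]
    obtain ⟨w, hw⟩ := key _ h2
    refine ⟨w, ?_⟩
    apply Subtype.ext
    have h3 := map_ev (Par hb {β x}).subtype
      (fun r => (⟨gR m (nuF β x r), gen_mem hb (Finset.mem_singleton.2 (nuF_mem x r))⟩ :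
        Par hb {β x})) w
    refine h3.trans ?_
    rw [← hu, ← hw]
    rfl
  E := Fin n
  e := fun v y => β y ∈ L ∧ 2 ≤ m v.1 y / 2
  t := fun y => rL hb L (gR m y)
  k := fun v y => m v.1 y / 2
  k2 := fun _ _ h => h.2
  ex := fun y => (xh hb (β y)).comp (Par hb L).subtype
  exH := by
    intro v y hy h hh
    exact xh_par hb (bsub L x y v.1 v.2 hy.2) (Subgroup.mem_subgroupOf.1 hh)
  exs := by
    intro v y hy
    show xh hb (β y) (ret hb L (gR m y)) = _
    rw [ret_gen_mem hb hy.1, xh_self]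
  rho := ((ret hb (com m β L (β x))).comp (Par hb L).subtype).codRestrict (Par hb L)
    (fun b => Par_mono hb (com_sub L (β x)) (ret_mem hb _ _))
  rhoH := by
    intro h hh
    exact Subtype.ext (Subgroup.mem_subgroupOf.1 hh)
  rhot := by
    intro v y hy
    apply Subtype.ext
    show ret hb (com m β L (β x)) (ret hb L (gR m y)) = 1
    rw [ret_gen_mem hb hy.1, ret_gen_not hb (bsub L x y v.1 v.2 hy.2)]
  Q := by
    intro v y1 y2 y3 h1 h2 a b d e1 e2 e3 hh1 hh2 ha hb' h
    have h3 := congrArg (Subtype.val) h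
    have ee : ∀ y, β y ∈ L → ((rL hb L (gR m y) : Par hb L) : AR m) = gR m y :=
      fun y hy => ret_gen_mem hb hy
    simp only [Subgroup.coe_mul, Subgroup.coe_inv, Subgroup.coe_zpow, Subgroup.coe_one,
      ee y1 e1.1, ee y2 e2.1, ee y3 e3.1] at h3
    have n1 := bsub (L := L) x y1 v.1 v.2 e1.2
    have n2 := bsub (L := L) x y2 v.1 v.2 e2.2
    have n3 := bsub (L := L) x y3 v.1 v.2 e3.2
    have m1 := Subgroup.mem_subgroupOf.1 hh1
    have m2 := Subgroup.mem_subgroupOf.1 hh2
    have X : ∀ Y, Y ∉ com m β L (β x) → xz hb Y (gR m y1 ^ a) + xz hb Y (gR m y2 ^ b) +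
        xz hb Y (gR m y3 ^ d) = 0 := by
      intro Y hY
      have h4 := congrArg (xz hb Y) h3
      rw [xz_mul, xz_mul, xz_mul, xz_mul, xz_mul, xz_mul, xz_inv, xz_inv, xz_one] at h4
      linarith
    have h12 : β y1 = β y2 := by
      by_contra h12
      by_cases h13 : β y3 = β y1
      · have h4 := X (β y2) n2
        rw [xz_pow_ne hb h12, xz_pow hb, xz_pow_ne hb (fun e => h12 (h13.symm.trans e))] at h4
        exact hb' (by linarith)
      · have h4 := X (β y1) n1
        rw [xz_pow hb, xz_pow_ne hb (Ne.symm h12), xz_pow_ne hb h13] at h4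
        exact ha (by linarith)
    have hq := hQ (β y1) e1.1 n1
    have fin : y1 = y2 ∧ (h1 : AR m) ∈ Par hb (com m β (com m β L (β x)) (β y1)) := by
      by_cases h13 : β y3 = β y1
      · exact hq y1 y2 y3 h1 h2 a b d rfl h12.symm h13 m1 m2 ha hb' h3
      · have h4 := X (β y3) n3
        rw [xz_pow_ne hb (fun e => h13 e.symm), xz_pow_ne hb (fun e => h13 (h12.trans e).symm),
          xz_pow hb] at h4
        have hd : d = 0 := by linarith
        rw [hd, zpow_zero] at h3
        exact hq y1 y2 y1 h1 h2 a b 0 rfl h12.symm rfl m1 m2 ha hb' (by rw [zpow_zero]; exact h3)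
    refine ⟨fin.1, ?_⟩
    apply Subtype.ext
    simp only [Subgroup.coe_mul, ee y1 e1.1]
    exact (com_commute hb fin.2).eq

end lev

namespace Dat

variable (D : Dat) (A : Act D.sys)

theorem act_ln (ω : A.Ω) (v : D.V) (y : D.E) (h : D.e v y) (b b' : D.B)
    (hb : D.ln v y h b = D.ln v y h b') (z : FreeGroup (Fin (D.k v y))) :
    A.act ω (D.ln v y h b) z = A.act ω (D.ln v y h b') z := by
  have h1 : (QuotientGroup.mk b : D.B ⧸ D.HL y) = QuotientGroup.mk b' :=
    QuotientGroup.eq.2 ((D.ln_eq v y h b b').1 hb)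
  unfold ln
  rw [h1]

theorem off_t (v : D.V) (y : D.E) (h : D.e v y) (b : D.B) (j : ℤ) :
    D.off y (b * D.t y ^ j) = D.off y b + j := by
  unfold off
  have h1 : (QuotientGroup.mk (b * D.t y ^ j) : D.B ⧸ D.HL y) = QuotientGroup.mk b :=
    QuotientGroup.eq.2 ((D.ln_eq v y h _ b).1 (D.ln_t v y h b j))
  rw [h1, ← mul_assoc, D.exz_mul, D.exz_t v y h]

/-- products of consecutive points -/
def PR (k : ℕ) (i : ℤ) (n : ℕ) : FreeGroup (Fin k) :=
  (List.ofFn fun r : Fin n => xx k (i + ((r : ℕ) : ℤ))).prod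

theorem PR_zero (k : ℕ) (i : ℤ) : PR k i 0 = 1 := by
  unfold PR
  rw [List.ofFn_zero, List.prod_nil]

theorem PR_succ (k : ℕ) (i : ℤ) (n : ℕ) : PR k i (n + 1) = xx k i * PR k (i + 1) n := by
  unfold PR
  rw [List.ofFn_succ, List.prod_cons]
  congr 1
  · congr 1
    simp
  · congr 2
    funext r
    congr 1
    rw [Fin.val_succ]
    push_cast
    ring

theorem PR_self (k : ℕ) (hk : 0 < k) (i : ℤ) : PR k i k = PP k := (EB.Asm.xx k hk).2.1 i

/-- right multiplications -/
def psi : D.B →* (Equiv.Perm (A.Ω × D.B))ᵐᵒᵖ where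
  toFun b := MulOpposite.op
    { toFun := fun p => (p.1, p.2 * b)
      invFun := fun p => (p.1, p.2 * b⁻¹)
      left_inv := fun p => by simp
      right_inv := fun p => by simp }
  map_one' := by
    rw [← MulOpposite.op_one]
    congr 1
    ext p <;> simp
  map_mul' a b := by
    rw [← MulOpposite.op_mul]
    congr 1
    ext p <;> simp [mul_assoc]

theorem act_bl_mul (ω : A.Ω) (q : D.B ⧸ D.H) (y y' : D.G) :
    A.act (A.act ω (D.bl q) y) (D.bl q) y' = A.act ω (D.bl q) (y * y' : D.G) :=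
  A.act_mul ω (D.bl q) y y'

theorem act_bl_one (ω : A.Ω) (q : D.B ⧸ D.H) : A.act ω (D.bl q) (1 : D.G) = ω :=
  A.act_one ω (D.bl q)

/-- the action of the new block group -/
noncomputable def chi : D.G →* (Equiv.Perm (A.Ω × D.B))ᵐᵒᵖ where
  toFun y := MulOpposite.op
    { toFun := fun p => (A.act p.1 (D.bl (D.cls p.2)) (y : D.G), p.2)
      invFun := fun p => (A.act p.1 (D.bl (D.cls p.2)) (y⁻¹ : D.G), p.2)
      left_inv := fun p => by
        simp only [D.act_bl_mul, mul_inv_cancel, D.act_bl_one]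
      right_inv := fun p => by
        simp only [D.act_bl_mul, inv_mul_cancel, D.act_bl_one] }
  map_one' := by
    rw [← MulOpposite.op_one]
    congr 1
    ext p
    · exact D.act_bl_one A _ _
    · rfl
  map_mul' a b := by
    rw [← MulOpposite.op_mul]
    congr 1
    ext p
    · exact (D.act_bl_mul A _ _ _ _).symm
    · rfl

theorem psi_app (b : D.B) (p : A.Ω × D.B) : (D.psi A b).unop p = (p.1, p.2 * b) := rfl

theorem chi_app (y : D.G) (p : A.Ω × D.B) :
    (D.chi A y).unop p = (A.act p.1 (D.bl (D.cls p.2)) y, p.2) := rfl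

theorem act_g (ω : A.Ω) (v : D.V) (q : D.B ⧸ D.H) :
    A.act ω (D.bl q) (D.g v) = D.pa A ω (v, q) 1 := by
  unfold pa
  rw [zpow_one]
  rfl

theorem act_gn (ω : A.Ω) (v : D.V) (q : D.B ⧸ D.H) (n : ℤ) :
    A.act ω (D.bl q) (D.g v ^ n : D.G) = D.pa A ω (v, q) n := rfl

/-- the two products of the braid relation -/
theorem iter1 (v : D.V) (y : D.E) (h : D.e v y) (n : ℕ) : ∀ (ω : A.Ω) (b : D.B),
    ((D.chi A (D.g v) * D.psi A (D.t y)) ^ n).unop (ω, b) =
      (A.act ω (D.ln v y h b) (PR (D.k v y) (D.off y b) n), b * D.t y ^ (n : ℤ)) := by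
  induction n with
  | zero =>
    intro ω b
    rw [pow_zero, PR_zero]
    have h1 : A.act ω (D.ln v y h b) (1 : FreeGroup (Fin (D.k v y))) = ω := A.act_one ω _
    rw [h1]
    simp
  | succ n ih =>
    intro ω b
    rw [pow_succ', MulOpposite.unop_mul, Equiv.Perm.mul_apply, MulOpposite.unop_mul,
      Equiv.Perm.mul_apply, D.chi_app, D.psi_app, ih]
    have e1 : D.ln v y h (b * D.t y) = D.ln v y h b := by
      have := D.ln_t v y h b 1
      rwa [zpow_one] at this
    have e2 : D.off y (b * D.t y) = D.off y b + 1 := by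
      have := D.off_t v y h b 1
      rwa [zpow_one] at this
    rw [D.act_ln A _ v y h _ _ e1, e2]
    have e3 : A.act ω (D.bl (D.cls b)) (D.g v) =
        A.act ω (D.ln v y h b) (xx (D.k v y) (D.off y b)) := by
      rw [D.act_g, D.pa_line A ω _ 1 _ (D.I_mk0 v y h b), zpow_one]
      have := D.xl_mk v y h b 0
      rw [zpow_zero, mul_one, add_zero] at this
      rw [this]
    rw [e3]
    have e4 : A.act (A.act ω (D.ln v y h b) (xx (D.k v y) (D.off y b))) (D.ln v y h b)
        (PR (D.k v y) (D.off y b + 1) n) = A.act ω (D.ln v y h b)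
          (xx (D.k v y) (D.off y b) * PR (D.k v y) (D.off y b + 1) n) := A.act_mul ω _ _ _
    rw [e4, PR_succ, mul_assoc]
    congr 2
    push_cast
    rw [add_comm, zpow_add, zpow_one]

theorem iter2 (v : D.V) (y : D.E) (h : D.e v y) (n : ℕ) : ∀ (ω : A.Ω) (b : D.B),
    ((D.psi A (D.t y) * D.chi A (D.g v)) ^ n).unop (ω, b) =
      (A.act ω (D.ln v y h b) (PR (D.k v y) (D.off y b + 1) n), b * D.t y ^ (n : ℤ)) := by
  induction n with
  | zero =>
    intro ω b
    rw [pow_zero, PR_zero]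
    have h1 : A.act ω (D.ln v y h b) (1 : FreeGroup (Fin (D.k v y))) = ω := A.act_one ω _
    rw [h1]
    simp
  | succ n ih =>
    intro ω b
    rw [pow_succ', MulOpposite.unop_mul, Equiv.Perm.mul_apply, MulOpposite.unop_mul,
      Equiv.Perm.mul_apply, D.psi_app, D.chi_app, ih]
    have e1 : D.ln v y h (b * D.t y) = D.ln v y h b := by
      have := D.ln_t v y h b 1
      rwa [zpow_one] at this
    have e2 : D.off y (b * D.t y) = D.off y b + 1 := by
      have := D.off_t v y h b 1
      rwa [zpow_one] at this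
    rw [D.act_ln A _ v y h _ _ e1, e2]
    have e3 : A.act ω (D.bl (D.cls (b * D.t y))) (D.g v) =
        A.act ω (D.ln v y h b) (xx (D.k v y) (D.off y b + 1)) := by
      have h2 := D.I_mk v y h b 1
      rw [zpow_one] at h2
      rw [D.act_g, D.pa_line A ω _ 1 _ h2, zpow_one]
      have := D.xl_mk v y h b 1
      rw [zpow_one] at this
      rw [this]
    show (A.act (A.act ω (D.bl (D.cls (b * D.t y))) (D.g v)) (D.ln v y h b) _, _) = _
    rw [e3]
    have e4 : A.act (A.act ω (D.ln v y h b) (xx (D.k v y) (D.off y b + 1))) (D.ln v y h b)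
        (PR (D.k v y) (D.off y b + 1 + 1) n) = A.act ω (D.ln v y h b)
          (xx (D.k v y) (D.off y b + 1) * PR (D.k v y) (D.off y b + 1 + 1) n) :=
      A.act_mul ω _ _ _
    rw [e4, PR_succ, mul_assoc]
    congr 2
    push_cast
    rw [add_comm, zpow_add, zpow_one]

theorem braid (v : D.V) (y : D.E) (h : D.e v y) :
    (D.chi A (D.g v) * D.psi A (D.t y)) ^ D.k v y =
      (D.psi A (D.t y) * D.chi A (D.g v)) ^ D.k v y := by
  apply MulOpposite.unop_injective
  apply Equiv.ext
  rintro ⟨ω, b⟩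
  have hk : 0 < D.k v y := by
    have := D.k2 v y h
    omega
  rw [D.iter1 A v y h, D.iter2 A v y h, PR_self _ hk, PR_self _ hk]

theorem comm_chi_psi (y : D.G) (b : D.B) (hb : b ∈ D.H) :
    D.chi A y * D.psi A b = D.psi A b * D.chi A y := by
  apply MulOpposite.unop_injective
  apply Equiv.ext
  rintro ⟨ω, g⟩
  rw [MulOpposite.unop_mul, MulOpposite.unop_mul, Equiv.Perm.mul_apply, Equiv.Perm.mul_apply,
    D.chi_app, D.psi_app, D.psi_app, D.chi_app]
  show _ = (A.act ω (D.bl (D.cls (g * b))) y, g * b)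
  rw [D.cls_mul hb]

end Dat

section act

variable {n : ℕ} {ι : Type} [DecidableEq ι] {m : Fin n → Fin n → ℕ} {β : Fin n → ι}
  (hb : Blk m β) (L : Finset ι) (x : Fin n) (hx : β x ∉ L)
  (hQ : ∀ Y ∈ L, Y ∉ com m β L (β x) → QQ hb (com m β L (β x)) Y)
  (A : Act (dat hb L x hQ).sys)

/-- the projection to the base group -/
noncomputable def pr : AR m →* (dat hb L x hQ).B := rL hb L

/-- the inclusion of the base group -/
noncomputable def inc : (dat hb L x hQ).B →* AR m := (Par hb L).subtype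

/-- the projection to the block group -/
noncomputable def prG : AR m →* (dat hb L x hQ).G := rL hb {β x}

/-- the inclusion of the block group -/
noncomputable def incG : (dat hb L x hQ).G →* AR m := (Par hb {β x}).subtype

theorem inc_pr (g : AR m) : inc hb L x hQ (pr hb L x hQ g) = ret hb L g := rfl

theorem incG_prG (g : AR m) : incG hb L x hQ (prG hb L x hQ g) = ret hb {β x} g := rfl

theorem pr_inc (b : (dat hb L x hQ).B) : pr hb L x hQ (inc hb L x hQ b) = b := rL_par hb b

theorem prG_incG (b : (dat hb L x hQ).G) : prG hb L x hQ (incG hb L x hQ b) = b :=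
  rL_par hb b

theorem pr_gen_not {s : Fin n} (h : β s ∉ L) : pr hb L x hQ (gR m s) = 1 :=
  Subtype.ext (ret_gen_not hb h)

theorem prG_gen (v : (dat hb L x hQ).V) : prG hb L x hQ (gR m v.1) = (dat hb L x hQ).g v :=
  Subtype.ext (ret_gen_mem hb (Finset.mem_singleton.2 v.2))

theorem incG_g (v : (dat hb L x hQ).V) : incG hb L x hQ ((dat hb L x hQ).g v) = gR m v.1 := rfl

/-- the action of the generators -/
noncomputable def fS (s : Fin n) : (Equiv.Perm (A.Ω × (dat hb L x hQ).B))ᵐᵒᵖ :=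
  if β s = β x then (dat hb L x hQ).chi A (prG hb L x hQ (gR m s))
  else (dat hb L x hQ).psi A (pr hb L x hQ (gR m s))

theorem alt_map {S G : Type} (f g : S → G) (k : ℕ) : ∀ s t : S, f s = g s → f t = g t →
    (alt s t k).map f = (alt s t k).map g := by
  induction k with
  | zero => intro s t _ _; simp [alt]
  | succ k ih =>
    intro s t hs ht
    simp only [alt, List.map_cons]
    rw [hs, ih t s ht hs]

theorem rel1 (s t : Fin n) (hs : β s = β x) (ht : β t ≠ β x) (h0 : m s t ≠ 0) :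
    ((alt s t (m s t)).map (fS hb L x hQ A)).prod =
      ((alt t s (m s t)).map (fS hb L x hQ A)).prod := by
  have hst : β s ≠ β t := fun e => ht (e.symm.trans hs)
  have e1 : fS hb L x hQ A s = (dat hb L x hQ).chi A (prG hb L x hQ (gR m s)) := if_pos hs
  have e2 : fS hb L x hQ A t = (dat hb L x hQ).psi A (pr hb L x hQ (gR m t)) := if_neg ht
  by_cases h1 : β t ∈ L
  · obtain ⟨k, hk⟩ := hb.ev s t hst
    by_cases h2 : m s t = 2
    · rw [h2]
      simp only [alt, List.map_cons, List.map_nil, List.prod_cons, List.prod_nil, mul_one]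
      rw [e1, e2]
      refine (dat hb L x hQ).comm_chi_psi A _ (rL hb L (gR m t)) ?_
      show _ ∈ (Par hb (com m β L (β x))).subgroupOf (Par hb L)
      rw [Subgroup.mem_subgroupOf, rL_val, ret_gen_mem hb h1]
      refine gen_mem hb ?_
      rw [← hs]
      exact mem_com_of hb h1 hst h2
    · rw [show m s t = 2 * k by omega, alt_even, alt_even, e1, e2]
      have hk2 : 2 ≤ m s t / 2 := by omega
      have h3 := (dat hb L x hQ).braid A (⟨s, hs⟩ : (dat hb L x hQ).V) t ⟨h1, hk2⟩
      have h4 : (dat hb L x hQ).k (⟨s, hs⟩ : (dat hb L x hQ).V) t = k := by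
        show m s t / 2 = k
        omega
      rw [h4] at h3
      rw [prG_gen hb L x hQ ⟨s, hs⟩]
      exact h3
  · have h3 : fS hb L x hQ A t = 1 := by
      rw [e2, pr_gen_not hb L x hQ h1, map_one]
    exact cross_rel hb _ s t hst (Or.inr h3)

theorem fS_rel (s t : Fin n) (h : s ≠ t) (h0 : m s t ≠ 0) :
    ((alt s t (m s t)).map (fS hb L x hQ A)).prod =
      ((alt t s (m s t)).map (fS hb L x hQ A)).prod := by
  by_cases h1 : β s = β x
  · by_cases h2 : β t = β x
    · have e : ∀ a, β a = β x → fS hb L x hQ A a =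
          (((dat hb L x hQ).chi A).comp (prG hb L x hQ)) (gR m a) := fun a ha => if_pos ha
      rw [alt_map (fS hb L x hQ A) (fun a => (((dat hb L x hQ).chi A).comp (prG hb L x hQ))
          (gR m a)) _ s t (e s h1) (e t h2),
        alt_map (fS hb L x hQ A) (fun a => (((dat hb L x hQ).chi A).comp (prG hb L x hQ))
          (gR m a)) _ t s (e t h2) (e s h1)]
      have h3 := congrArg (((dat hb L x hQ).chi A).comp (prG hb L x hQ)) (gen_rel s t h h0)
      rw [map_list_prod, map_list_prod, List.map_map, List.map_map] at h3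
      exact h3
    · exact rel1 hb L x hQ A s t h1 h2 h0
  · by_cases h2 : β t = β x
    · have h3 := rel1 hb L x hQ A t s h2 h1 (by rw [hb.sy]; exact h0)
      rw [hb.sy t s] at h3
      exact h3.symm
    · have e : ∀ a, β a ≠ β x → fS hb L x hQ A a =
          (((dat hb L x hQ).psi A).comp (pr hb L x hQ)) (gR m a) := fun a ha => if_neg ha
      rw [alt_map (fS hb L x hQ A) (fun a => (((dat hb L x hQ).psi A).comp (pr hb L x hQ))
          (gR m a)) _ s t (e s h1) (e t h2),
        alt_map (fS hb L x hQ A) (fun a => (((dat hb L x hQ).psi A).comp (pr hb L x hQ))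
          (gR m a)) _ t s (e t h2) (e s h1)]
      have h3 := congrArg (((dat hb L x hQ).psi A).comp (pr hb L x hQ)) (gen_rel s t h h0)
      rw [map_list_prod, map_list_prod, List.map_map, List.map_map] at h3
      exact h3

/-- the action of the group -/
noncomputable def Phi : AR m →* (Equiv.Perm (A.Ω × (dat hb L x hQ).B))ᵐᵒᵖ :=
  liftR (fS hb L x hQ A) (fS_rel hb L x hQ A)

theorem Phi_gen (s : Fin n) : Phi hb L x hQ A (gR m s) = fS hb L x hQ A s := liftR_gen _ _ s

theorem Phi_retG (g : AR m) : Phi hb L x hQ A (ret hb {β x} g) =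
    (dat hb L x hQ).chi A (prG hb L x hQ g) := by
  have h : (Phi hb L x hQ A).comp (ret hb {β x}) =
      ((dat hb L x hQ).chi A).comp (prG hb L x hQ) := by
    refine ar_ext _ _ fun s => ?_
    rw [MonoidHom.comp_apply, MonoidHom.comp_apply]
    by_cases hs : β s = β x
    · rw [ret_gen_mem hb (Finset.mem_singleton.2 hs), Phi_gen]
      exact if_pos hs
    · have h1 : β s ∉ ({β x} : Finset ι) := fun h => hs (Finset.mem_singleton.1 h)
      have h2 : prG hb L x hQ (gR m s) = 1 := Subtype.ext (ret_gen_not hb h1)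
      rw [ret_gen_not hb h1, map_one, h2, map_one]
  exact DFunLike.congr_fun h g

include hx in
theorem Phi_ret (g : AR m) : Phi hb L x hQ A (ret hb L g) =
    (dat hb L x hQ).psi A (pr hb L x hQ g) := by
  have h : (Phi hb L x hQ A).comp (ret hb L) =
      ((dat hb L x hQ).psi A).comp (pr hb L x hQ) := by
    refine ar_ext _ _ fun s => ?_
    rw [MonoidHom.comp_apply, MonoidHom.comp_apply]
    by_cases hs : β s ∈ L
    · rw [ret_gen_mem hb hs, Phi_gen]
      exact if_neg (fun e : β s = β x => hx (e ▸ hs))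
    · rw [ret_gen_not hb hs, map_one, pr_gen_not hb L x hQ hs, map_one]
  exact DFunLike.congr_fun h g

/-- the right action -/
noncomputable def R (g : AR m) (p : A.Ω × (dat hb L x hQ).B) : A.Ω × (dat hb L x hQ).B :=
  (Phi hb L x hQ A g).unop p

theorem R_one (p : A.Ω × (dat hb L x hQ).B) : R hb L x hQ A 1 p = p := by
  unfold R
  rw [map_one]
  rfl

theorem R_mul (g h : AR m) (p : A.Ω × (dat hb L x hQ).B) :
    R hb L x hQ A (g * h) p = R hb L x hQ A h (R hb L x hQ A g p) := by
  unfold R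
  rw [map_mul]
  rfl

theorem R_G (y : (dat hb L x hQ).G) (ω : A.Ω) (b : (dat hb L x hQ).B) :
    R hb L x hQ A (incG hb L x hQ y) (ω, b) =
      (A.act ω ((dat hb L x hQ).bl ((dat hb L x hQ).cls b)) y, b) := by
  have h := Phi_retG hb L x hQ A (incG hb L x hQ y)
  rw [← incG_prG hb L x hQ, prG_incG] at h
  unfold R
  rw [h]
  rfl

theorem R_x (v : (dat hb L x hQ).V) (k : ℤ) (ω : A.Ω) (b : (dat hb L x hQ).B) :
    R hb L x hQ A (gR m v.1 ^ k) (ω, b) =
      ((dat hb L x hQ).pa A ω (v, (dat hb L x hQ).cls b) k, b) := by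
  have h := R_G hb L x hQ A ((dat hb L x hQ).g v ^ k) ω b
  rw [map_zpow, incG_g] at h
  exact h

include hx in
theorem R_b (b' : (dat hb L x hQ).B) (ω : A.Ω) (b : (dat hb L x hQ).B) :
    R hb L x hQ A (inc hb L x hQ b') (ω, b) = (ω, b * b') := by
  have h := Phi_ret hb L x hx hQ A (inc hb L x hQ b')
  rw [← inc_pr hb L x hQ, pr_inc] at h
  unfold R
  rw [h]
  rfl

include hx in
theorem R_conj (b' : (dat hb L x hQ).B) (v : (dat hb L x hQ).V) (k : ℤ) (ω : A.Ω) :
    R hb L x hQ A (inc hb L x hQ b' * gR m v.1 ^ k * (inc hb L x hQ b')⁻¹) (ω, 1) =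
      ((dat hb L x hQ).pa A ω (v, (dat hb L x hQ).cls b') k, 1) := by
  rw [R_mul, R_mul, R_b hb L x hx hQ A, one_mul, R_x, ← map_inv, R_b hb L x hx hQ A,
    mul_inv_cancel]

include hx hQ in
theorem QQ_step : QQ hb L (β x) := by
  obtain ⟨A⟩ := EB.Asm.nft (dat hb L x hQ).sys
  intro v1 v2 v3 h1 h2 a b d e1 e2 e3 m1 m2 ha hb' h
  have key : ∀ (w0 w1 w2 : (dat hb L x hQ).V) (g0 g1 g2 : (dat hb L x hQ).B) (a b d : ℤ),
      (inc hb L x hQ g0 * gR m w0.1 ^ a * (inc hb L x hQ g0)⁻¹) *
        (inc hb L x hQ g1 * gR m w1.1 ^ b * (inc hb L x hQ g1)⁻¹) *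
        (inc hb L x hQ g2 * gR m w2.1 ^ d * (inc hb L x hQ g2)⁻¹) = 1 →
      (dat hb L x hQ).pa A ((dat hb L x hQ).pa A ((dat hb L x hQ).pa A A.one
        (w0, (dat hb L x hQ).cls g0) a) (w1, (dat hb L x hQ).cls g1) b)
          (w2, (dat hb L x hQ).cls g2) d = A.one := by
    intro w0 w1 w2 g0 g1 g2 a b d h
    have e := R_one hb L x hQ A (A.one, 1)
    rw [← h, R_mul _ _ _ _ _ (_ * _), R_mul _ _ _ _ _ (_ * _ * _),
      R_conj hb L x hx hQ A, R_conj hb L x hx hQ A,
      R_conj hb L x hx hQ A] at e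
    exact congrArg Prod.fst e
  have e0 : ∀ (w : Fin n) (k : ℤ),
      inc hb L x hQ 1 * gR m w ^ k * (inc hb L x hQ 1)⁻¹ = gR m w ^ k := by
    intro w k
    rw [map_one, one_mul, inv_one, mul_one]
  have k1 := key ⟨v1, e1⟩ ⟨v2, e2⟩ ⟨v3, e3⟩ 1 (⟨h1, m1⟩ : Par hb L) (⟨h2, m2⟩ : Par hb L) a b d
    (by rw [e0]; exact h)
  have k2 := key ⟨v2, e2⟩ ⟨v3, e3⟩ ⟨v1, e1⟩ (⟨h1, m1⟩ : Par hb L) (⟨h2, m2⟩ : Par hb L) 1 b d a
    (by
      rw [e0]
      rw [mul_assoc] at h
      have h3 := eq_inv_of_mul_eq_one_right h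
      show h1 * gR m v2 ^ b * h1⁻¹ * (h2 * gR m v3 ^ d * h2⁻¹) * gR m v1 ^ a = 1
      rw [h3, inv_mul_cancel])
  have k3 := key ⟨v3, e3⟩ ⟨v1, e1⟩ ⟨v2, e2⟩ (⟨h2, m2⟩ : Par hb L) 1 (⟨h1, m1⟩ : Par hb L) d a b
    (by
      rw [e0]
      have h3 := eq_inv_of_mul_eq_one_right h
      show h2 * gR m v3 ^ d * h2⁻¹ * gR m v1 ^ a * (h1 * gR m v2 ^ b * h1⁻¹) = 1
      rw [h3, mul_assoc, inv_mul_cancel])
  have k4 := (dat hb L x hQ).three A _ _ _ a b d k1 k2 k3 ha hb'
  have k7 := congrArg (fun p => (p.1 : {s : Fin n // β s = β x}).1) k4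
  have k5 := ((dat hb L x hQ).cls_eq _ _).1 (congrArg Prod.snd k4)
  have k6 : (1 : Par hb L)⁻¹ * ⟨h1, m1⟩ ∈
    (Par hb (com m β L (β x))).subgroupOf (Par hb L) := k5
  rw [inv_one, one_mul, Subgroup.mem_subgroupOf] at k6
  exact ⟨k7, k6⟩

end act

section all

variable {n : ℕ} {ι : Type} [DecidableEq ι] {m : Fin n → Fin n → ℕ} {β : Fin n → ι}
  (hb : Blk m β)

theorem QQ_all (L : Finset ι) : ∀ Y, Y ∉ L → QQ hb L Y := by
  induction L using Finset.strongInduction with
  | H L ih =>
    intro Y hY v1 v2 v3 h1 h2 a b d e1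
    subst e1
    refine QQ_step hb L v1 hY (fun Z hZ hZ2 => ?_) v1 v2 v3 h1 h2 a b d rfl
    refine ih (com m β L (β v1)) ?_ Z hZ2
    exact Finset.ssubset_iff_subset_ne.2
      ⟨com_sub L (β v1), fun e => hZ2 (by rw [e]; exact hZ)⟩

end all

end Pool.Agent.H87.Brt
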