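import Pool.Agent.H87.Brt.Ak

set_option autoImplicit false

/-! The word problem of Artin groups with blocks. -/

namespace Pool.Agent.H87.Brt

open Pool.Agent.H482R3.EA (W inv ev PP xx evF cond1 cond2 Sys St Near InD Adm Act)
open Pool.Agent.H482R3.EB (alt AR gR)
open Pool.Agent.H482R3
open Pool.Agent.H87.Art (ev_nil ev_append ev_cons ev_inv ev_single map_ev re_ex re_and re_comp
  cp_comp re_or re_true re_false re_const re_all_fin re_ex_fin cp_eq re_case re_chain)

section mn

variable {n : ℕ} {ι : Type} [DecidableEq ι] {m : Fin n → Fin n → ℕ} {β : Fin n → ι}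
  (hb : Blk m β) (hB : ∀ X, ComputablePred fun u : W (Fin n) => ret hb {X} (ev (gR m) u) = 1)

theorem ret_empty (u : W (Fin n)) : ret hb ∅ (ev (gR m) u) = 1 := by
  rw [ret_ev]
  have : fl β (∅ : Finset ι) u = [] := by
    unfold fl
    rw [List.filter_eq_nil_iff]
    simp
  rw [this]
  rfl

theorem NN_empty : NN hb ∅ :=
  re_false.of_eq fun u => ⟨False.elim, fun h' => h' (ret_empty hb u)⟩

theorem NN_step (L : Finset ι) (x : Fin n) (hx : β x ∉ L)
    (hQ : ∀ Y ∈ L, Y ∉ com m β L (β x) → QQ hb (com m β L (β x)) Y) (hN : NN hb L)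
    (hV : VR hb L x hQ) : NN hb (insert (β x) L) := by
  have hw : CG m fun p : W (Fin n) × List (Syw n) => ev (gR m) p.1 := CG.word Computable.fst
  have e1 : REPred fun p : W (Fin n) × List (Syw n) => p.2 ≠ [] :=
    (cp_eq (α := W (Fin n) × List (Syw n)) Computable.snd (Computable.const [])).not.to_re
  have e2 : REPred fun p : W (Fin n) × List (Syw n) =>
      (dat hb L x hQ).VC (p.2.map (conv hb L x hQ)) := re_comp hV Computable.snd
  have e3 : REPred fun p : W (Fin n) × List (Syw n) =>
      ret hb (insert (β x) L) (ev (gR m) p.1) =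
        val hb L x hQ (p.2.map (conv hb L x hQ)) * ret hb L (ev (gR m) p.1) :=
    re_eqG (hw.ret hb (insert (β x) L))
      (((cg_val hb L x hQ).comp Computable.snd).mul (hw.ret hb L))
  have e4 := re_ex (p := fun (u : W (Fin n)) (C : List (Syw n)) => C ≠ [] ∧
    ((dat hb L x hQ).VC (C.map (conv hb L x hQ)) ∧
      ret hb (insert (β x) L) (ev (gR m) u) =
        val hb L x hQ (C.map (conv hb L x hQ)) * ret hb L (ev (gR m) u)))
    (re_and e1 (re_and e2 e3))
  refine (re_or hN e4).of_eq fun u => ?_
  constructor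
  · rintro (h | ⟨C, h1, h2, h3⟩) h4
    · apply h
      rw [← ret_sub hb (Finset.subset_insert (β x) L), h4, map_one]
    · have h5 : ret hb L (ev (gR m) u) = 1 := by
        rw [← ret_sub hb (Finset.subset_insert (β x) L), h4, map_one]
      rw [h4, h5, mul_one] at h3
      have h6 := K2 hb L x hx hQ _ h2 h3.symm
      exact h1 (List.map_eq_nil_iff.1 h6)
  · intro h
    by_cases h0 : ret hb L (ev (gR m) u) = 1
    · right
      obtain ⟨C, hC, e⟩ := K1 hb L x hx hQ (ev (gR m) u)
      obtain ⟨C', rfl⟩ := conv_surj hb L x hQ C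
      refine ⟨C', ?_, hC, e⟩
      rintro rfl
      apply h
      rw [e, h0, mul_one]
      rfl
    · exact Or.inl h0

/-- empty blocks -/
theorem NN_skip (L : Finset ι) (X : ι) (hX : ∀ s, β s ≠ X) (hN : NN hb L) :
    NN hb (insert X L) := by
  refine hN.of_eq fun u => ?_
  have h : fl β L u = fl β (insert X L) u := by
    unfold fl
    refine List.filter_congr fun a _ => ?_
    have h1 := hX a.1
    simp [h1]
  rw [ret_ev, ret_ev, h]

include hB in
theorem main (L : Finset ι) : NN hb L ∧ ∀ x, β x ∉ L → VR hb L x (hQA hb L x) := by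
  induction L using Finset.strongInduction with
  | H L ih =>
    have hN : NN hb L := by
      by_cases hL : L = ∅
      · rw [hL]
        exact NN_empty hb
      · obtain ⟨X, hX⟩ := Finset.nonempty_iff_ne_empty.2 hL
        have h1 := ih (L.erase X) (Finset.erase_ssubset hX)
        by_cases hx : ∃ x, β x = X
        · obtain ⟨x, rfl⟩ := hx
          have h2 := NN_step hb (L.erase (β x)) x (Finset.notMem_erase (β x) L) _ h1.1
            (h1.2 x (Finset.notMem_erase (β x) L))
          rwa [Finset.insert_erase hX] at h2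
        · have h2 := NN_skip hb (L.erase X) X (fun s hs => hx ⟨s, hs⟩) h1.1
          rwa [Finset.insert_erase hX] at h2
    refine ⟨hN, fun x hx => ?_⟩
    refine VR_all hb hB L x (hQA hb L x) hN (fun z hz hz2 => ?_)
    refine (ih (com m β L (β x)) ?_).2 z hz2
    exact Finset.ssubset_iff_subset_ne.2
      ⟨com_sub L (β x), fun e => hz2 (by rw [e]; exact hz)⟩

include hb hB in
/-- the word problem is solvable -/
theorem block_wp : ComputablePred fun u : W (Fin n) => ev (gR m) u = 1 := by
  rw [ComputablePred.computable_iff_re_compl_re']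
  refine ⟨re_triv m, (main hb hB (Finset.univ.image β)).1.of_eq fun u => ?_⟩
  have h : ret hb (Finset.univ.image β) (ev (gR m) u) = ev (gR m) u := by
    rw [ret_ev]
    congr 1
    unfold fl
    simp
  rw [h]

end mn

end Pool.Agent.H87.Brt
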