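import Pool.Agent.H87.Brt.Cod

set_option autoImplicit false

/-! Codes of the products of two points. -/

namespace Pool.Agent.H87.Brt

open Pool.Agent.H482R3.EA (W inv ev PP xx evF cond1 cond2 Sys St Near InD Adm Act)
open Pool.Agent.H482R3

namespace Dat

variable (D : Dat) (A : Act D.sys)

/-- the normal forms of the products `q ^ b * p ^ a` -/
def Zp (ω : A.Ω) (q : D.P) : Prop :=
  ∃ (b : ℤ) (p : D.P) (a : ℤ), ω = D.pa A (D.pa A A.one q b) p a

/-- line syllables which are not a product `q ^ b * p ^ a` -/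
def neg1 (q : D.P) (a : D.Syl) : Prop :=
  D.isl a.2.1 ∧ (¬ D.I q (D.kl a.1 a.2.1) ∨
    ∀ (r : D.P) (c c' : ℤ), D.I r (D.kl a.1 a.2.1) →
      D.ke a.1 a.2.1 a.2.2 ≠ D.xl (D.kl a.1 a.2.1) q ^ c * D.xl (D.kl a.1 a.2.1) r ^ c')

/-- codes which are not the code of a product `q ^ b * p ^ a` -/
def neg (q : D.P) : List D.Syl → Prop
  | [] => False
  | [a] => D.neg1 q a
  | [a2, a1] => D.isl a2.2.1 ∨ D.isl a1.2.1 ∨ D.pnt a1.1 a1.2.1 0 ≠ q
  | _ :: _ :: _ :: _ => True

theorem near_self (p : D.P) : Near D.sys p (.pt p : St D.sys) := ⟨D.bl p.2, rfl, rfl⟩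

theorem run_cons (a : D.Syl) (C : List D.Syl) :
    D.run A (a :: C) = D.actS A (D.run A C) a := rfl

/-- codes ending with the state of a point -/
theorem peel_pt (C : List D.Syl) (hC : D.VC C) (p : D.P) (hst : A.st (D.run A C) = .pt p) :
    ∃ (g : D.B) (v : D.V) (w : W ℕ) (C' : List D.Syl), C = (g, .pt v, w) :: C' ∧
      (v, D.cls g) = p ∧ D.VC C' ∧
      D.run A C' = D.pa A (D.run A C) p (-EB.tot w) ∧
      ¬ Near D.sys p (A.st (D.run A C')) := by
  rw [D.st_run A C hC] at hst
  cases C with
  | nil => cases hst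
  | cons a C' =>
    obtain ⟨g, κ, w⟩ := a
    cases κ with
    | bl => cases hst
    | dh v y h => cases hst
    | pt v =>
      have h1 : (.pt ((v, D.cls g) : D.P) : St D.sys) = .pt p := hst
      have h2 : (v, D.cls g) = p := St.pt.inj h1
      refine ⟨g, v, w, C', rfl, h2, hC.2, ?_, ?_⟩
      · rw [D.run_cons, D.actS_pt, h2, D.pa_add, add_neg_cancel, D.pa_zero]
      · rw [D.st_run A C' hC.2, ← h2]
        exact hC.1.2

/-- the codes of the powers of a point -/
theorem code_single (C : List D.Syl) (hC : D.VC C) (p : D.P) (a : ℤ)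
    (h : D.run A C = D.pa A A.one p a) :
    C = [] ∨ ∃ (g : D.B) (v : D.V) (w : W ℕ), C = [(g, .pt v, w)] := by
  by_cases ha : a = 0
  · subst ha
    rw [D.pa_zero] at h
    exact Or.inl (D.run_one A C hC h)
  · right
    obtain ⟨g, v, w, C', rfl, hg, hC', e, hn⟩ :=
      D.peel_pt A C hC p (by rw [h, D.st_pa_one A p a ha])
    rw [h, D.pa_add] at e
    by_cases hb : a + -EB.tot w = 0
    · rw [hb, D.pa_zero] at e
      rw [D.run_one A C' hC' e]
      exact ⟨g, v, w, rfl⟩
    · exfalso
      apply hn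
      rw [e, D.st_pa_one A p _ hb]
      exact D.near_self p

theorem act_one_InD (l : D.Ln) (u : D.Lg l) :
    A.act A.one l u = A.one ∨ InD D.sys l (A.st (A.act A.one l u)) := by
  by_cases h1 : ∃ (r : D.P) (a : ℤ), D.I r l ∧ u = D.xl l r ^ a
  · obtain ⟨r, a, hr, rfl⟩ := h1
    by_cases ha : a = 0
    · left
      subst ha
      rw [zpow_zero]
      exact A.act_one A.one l
    · right
      have h2 := A.st_pt A.one l r a hr ha (by rw [A.st_one]; exact id)
      have h3 : A.st (A.act A.one l (D.xl l r ^ a)) = .pt r := h2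
      rw [h3]
      exact hr
  · right
    have h2 := A.st_ln A.one l u (by rw [A.st_one]; exact id)
      (fun q _ => by rw [A.st_one]; exact id) (fun r a hr e => h1 ⟨r, a, hr, e⟩)
    rw [h2]
    exact rfl

theorem neg_not (C : List D.Syl) (hC : D.VC C) (q : D.P) (hZ : D.Zp A (D.run A C) q) :
    ¬ D.neg q C := by
  obtain ⟨b, p, a, e⟩ := hZ
  have triv : ∀ (p' : D.P) (a' : ℤ), D.run A C = D.pa A A.one p' a' → ¬ D.neg q C := by
    intro p' a' e'
    rcases D.code_single A C hC p' a' e' with h | ⟨g, v, w, h⟩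
    · rw [h]; exact id
    · rw [h]
      rintro ⟨h, _⟩
      exact h
  by_cases hb : b = 0
  · subst hb
    rw [D.pa_zero] at e
    exact triv p a e
  by_cases ha : a = 0
  · subst ha
    rw [D.pa_zero] at e
    exact triv q b e
  by_cases hpq : q = p
  · subst hpq
    rw [D.pa_add] at e
    exact triv q _ e
  by_cases hn : Near D.sys p (.pt q : St D.sys)
  · obtain ⟨l, hql, hpl⟩ := hn
    replace hql : D.I q l := hql
    replace hpl : D.I p l := hpl
    have h1 := D.two_near_one A l q p hql hpl hpq b a hb ha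
    rw [← e, D.st_run A C hC] at h1
    cases C with
    | nil => cases h1
    | cons s C' =>
      obtain ⟨g, κ, w⟩ := s
      by_cases hκ : D.isl κ
      · have hA := (D.AdS_isl _ _ _ _ hκ).1 hC.1
        obtain ⟨hnd, _⟩ := hA
        have h2 : D.stC ((g, κ, w) :: C') = .ln (D.kl g κ) := D.stS_isl g κ w hκ
        rw [h2] at h1
        have h3 : D.kl g κ = l := St.ln.inj h1
        subst h3
        rw [D.run_cons, D.actS_kl, D.pa_line A _ p a _ hpl, D.pa_line A _ q b _ hql,
          D.act_mul'] at e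
        have h4 : D.run A C' = A.act A.one (D.kl g κ)
            (D.xl (D.kl g κ) q ^ b * D.xl (D.kl g κ) p ^ a * (D.ke g κ w)⁻¹) := by
          rw [← D.act_mul', ← e, D.act_mul', mul_inv_cancel]
          exact (A.act_one _ _).symm
        have h5 : D.run A C' = A.one := by
          rcases D.act_one_InD A (D.kl g κ) (D.xl (D.kl g κ) q ^ b *
            D.xl (D.kl g κ) p ^ a * (D.ke g κ w)⁻¹) with h | h
          · rw [h4, h]
          · exfalso
            rw [← h4, D.st_run A C' hC.2] at h
            exact hnd h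
        have h6 := D.run_one A C' hC.2 h5
        subst h6
        rw [h5] at h4
        have h7 := D.act_one_ne A _ _ h4.symm
        have h8 := mul_inv_eq_one.1 h7
        rintro ⟨_, h9 | h9⟩
        · exact h9 hql
        · exact h9 p b a hpl h8.symm
      · cases κ with
        | pt v => cases h1
        | bl => exact absurd trivial hκ
        | dh v y h => exact absurd trivial hκ
  · have h1 := D.st_pa A (D.pa A A.one q b) p a ha (by rw [D.st_pa_one A q b hb]; exact hn)
    rw [← e] at h1
    obtain ⟨g, v, w, C', rfl, hg, hC', e', hn'⟩ := D.peel_pt A C hC p h1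
    rw [e, D.pa_add] at e'
    by_cases hs : a + -EB.tot w = 0
    · rw [hs, D.pa_zero] at e'
      have h2 : A.st (D.run A C') = .pt q := by rw [e', D.st_pa_one A q b hb]
      obtain ⟨g1, v1, w1, C'', h4, hg1, _⟩ := D.peel_pt A C' hC' q h2
      rcases D.code_single A C' hC' q b e' with h3 | ⟨g2, v2, w2, h3⟩
      · rw [h3] at h4
        cases h4
      · rw [h3] at h4
        injection h4 with h4 h5
        have h6 : g2 = g1 := congrArg Prod.fst h4
        have h7 : Kd.pt v2 = Kd.pt v1 := congrArg (fun a => a.2.1) h4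
        have h8 : v2 = v1 := by injection h7
        subst h6
        subst h8
        rw [h3]
        rintro (h | h | h)
        · exact h
        · exact h
        · exact h hg1
    · exfalso
      apply hn'
      rw [e', D.st_pa A _ p _ hs (by rw [D.st_pa_one A q b hb]; exact hn)]
      exact D.near_self p

theorem not_neg (C : List D.Syl) (_hC : D.VC C) (q : D.P) (h : ¬ D.neg q C) :
    D.Zp A (D.run A C) q := by
  match C, h with
  | [], _ => exact ⟨0, q, 0, by rw [D.pa_zero, D.pa_zero]; rfl⟩
  | [(g, κ, w)], h =>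
    by_cases hκ : D.isl κ
    · have h1 : D.I q (D.kl g κ) := by
        by_contra h1
        exact h ⟨hκ, Or.inl h1⟩
      have h2 : ¬ ∀ (r : D.P) (c c' : ℤ), D.I r (D.kl g κ) →
          D.ke g κ w ≠ D.xl (D.kl g κ) q ^ c * D.xl (D.kl g κ) r ^ c' :=
        fun h2 => h ⟨hκ, Or.inr h2⟩
      push Not at h2
      obtain ⟨r, c, c', hr, e⟩ := h2
      refine ⟨c, r, c', ?_⟩
      rw [D.pa_line A _ r c' _ hr, D.pa_line A _ q c _ h1, D.act_mul', ← e]
      exact D.actS_kl A A.one g κ w
    · cases κ with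
      | pt v => exact ⟨0, (v, D.cls g), EB.tot w, by rw [D.pa_zero]; exact D.actS_pt A _ g v w⟩
      | bl => exact absurd trivial hκ
      | dh v y h => exact absurd trivial hκ
  | [(g2, κ2, w2), (g1, κ1, w1)], h =>
    have h1 : ¬ (D.isl κ2 ∨ D.isl κ1 ∨ D.pnt g1 κ1 0 ≠ q) := h
    push Not at h1
    obtain ⟨h2, h3, h4⟩ := h1
    cases κ2 with
    | bl => exact absurd trivial h2
    | dh v y h => exact absurd trivial h2
    | pt v2 =>
      cases κ1 with
      | bl => exact absurd trivial h3
      | dh v y h => exact absurd trivial h3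
      | pt v1 =>
        have h5 : (v1, D.cls g1) = q := h4
        refine ⟨EB.tot w1, (v2, D.cls g2), EB.tot w2, ?_⟩
        rw [D.run_cons, D.run_cons, D.actS_pt, D.actS_pt, h5]
        rfl
  | _ :: _ :: _ :: _, h => exact absurd trivial h

theorem neg_iff (C : List D.Syl) (hC : D.VC C) (q : D.P) :
    D.neg q C ↔ ¬ D.Zp A (D.run A C) q :=
  ⟨fun h hZ => D.neg_not A C hC q hZ h, fun h => by
    by_contra h1
    exact h (D.not_neg A C hC q h1)⟩

end Dat

end Pool.Agent.H87.Brt
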