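import Pool.Agent.H87.Brt.Wd

set_option autoImplicit false

/-! The negative codes are recursively enumerable. -/

namespace Pool.Agent.H87.Brt

open Pool.Agent.H482R3.EA (W inv ev PP xx evF cond1 cond2 Sys St Near InD Adm Act)
open Pool.Agent.H482R3.EB (alt AR gR)
open Pool.Agent.H482R3
open Pool.Agent.H87.Art (ev_nil ev_append ev_cons ev_inv ev_single map_ev re_ex re_and re_comp
  cp_comp re_or re_true re_false re_const re_all_fin re_ex_fin cp_eq re_case re_chain)

section alg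

variable {n : ℕ} {ι : Type} [DecidableEq ι] {m : Fin n → Fin n → ℕ} {β : Fin n → ι}
  (hb : Blk m β)

/-- the power of `y` with the exponent of its block -/
noncomputable def yp (y : Fin n) (u : AR m) : AR m := gR m y ^ (xz hb (β y) u)

/-- membership in `⟨y⟩ A_T` -/
theorem ZH_iff {T L : Finset ι} (hT : T ⊆ L) {y : Fin n} (hy : β y ∈ L) (hyT : β y ∉ T)
    (u : AR m) :
    (∃ (j : ℤ) (ν : AR m), ν ∈ Par hb T ∧ ret hb L u = gR m y ^ j * ν) ↔
      ret hb T ((yp hb y u)⁻¹ * u) = ret hb L ((yp hb y u)⁻¹ * u) := by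
  unfold yp
  constructor
  · rintro ⟨j, ν, hν, e⟩
    have h1 : xz hb (β y) u = j := by
      rw [← xz_ret hb hy u, e, xz_mul, xz_pow, xz_par hb hyT hν, add_zero]
    have h2 : ret hb L ((gR m y ^ (xz hb (β y) u))⁻¹ * u) = ν := by
      rw [map_mul, map_inv, ret_pow_mem hb hy, h1, e, inv_mul_cancel_left]
    rw [← ret_sub hb hT, h2]
    exact hν
  · intro e
    refine ⟨xz hb (β y) u, ret hb L ((gR m y ^ (xz hb (β y) u))⁻¹ * u), ?_, ?_⟩
    · rw [← e]
      exact ret_mem hb T _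
    · rw [map_mul, map_inv, ret_pow_mem hb hy, mul_inv_cancel_left]

end alg

namespace Dat

variable (D : Dat)

theorem dh_c1 (v : D.V) (y : D.E) (h : D.e v y) (b : D.B) (w : W ℕ) :
    (∀ (r : D.P) (a : ℤ), D.I r (D.ln v y h b) →
      D.ke b (.dh v y h) w ≠ D.xl (D.ln v y h b) r ^ a) ↔ cond1 (D.k v y) w := by
  obtain ⟨σ, hσ, hke⟩ := D.ke_dh v y h b
  constructor
  · intro H s a e
    refine H (v, D.cls (b * D.t y ^ s)) a (D.I_mk v y h b s) ?_
    rw [hke, e, hσ, map_zpow]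
  · intro H r a hr e
    obtain ⟨j, rfl⟩ := (D.I_iff v y h b r).1 hr
    rw [hke, hσ, ← map_zpow] at e
    exact H j a (σ.injective e)

theorem dh_c2 (v : D.V) (y : D.E) (h : D.e v y) (b : D.B) (j : ℤ) (w : W ℕ) :
    (∀ (r : D.P) (a a' : ℤ), D.I r (D.ln v y h b) →
      D.ke b (.dh v y h) w ≠ D.xl (D.ln v y h b) (v, D.cls (b * D.t y ^ j)) ^ a *
        D.xl (D.ln v y h b) r ^ a') ↔ cond2 (D.k v y) j w := by
  obtain ⟨σ, hσ, hke⟩ := D.ke_dh v y h b
  constructor
  · intro H s a a' e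
    refine H (v, D.cls (b * D.t y ^ s)) a a' (D.I_mk v y h b s) ?_
    rw [hke, e, hσ, hσ, map_mul, map_zpow, map_zpow]
  · intro H r a a' hr e
    obtain ⟨i, rfl⟩ := (D.I_iff v y h b r).1 hr
    rw [hke, hσ, hσ, ← map_zpow, ← map_zpow, ← map_mul] at e
    exact H i a a' (σ.injective e)

end Dat

section ng

variable {n : ℕ} {ι : Type} [DecidableEq ι] {m : Fin n → Fin n → ℕ} {β : Fin n → ι}
  (hb : Blk m β) (L : Finset ι) (x : Fin n)
  (hQ : ∀ Y ∈ L, Y ∉ com m β L (β x) → QQ hb (com m β L (β x)) Y)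

theorem incG_inj : Function.Injective (incG hb L x hQ) := Subtype.val_injective

theorem incG_ke (w : W ℕ) :
    incG hb L x hQ (ev (fun r => (dat hb L x hQ).g ((dat hb L x hQ).nu r)) w) =
      ev (gR m) (wx β x w) := by
  rw [map_ev, ev_wx]
  rfl

theorem bl_c1 (b : (dat hb L x hQ).B) (w : W ℕ) :
    (∀ (r : (dat hb L x hQ).P) (a : ℤ),
      (dat hb L x hQ).I r ((dat hb L x hQ).bl ((dat hb L x hQ).cls b)) →
      (dat hb L x hQ).ke b .bl w ≠
        (dat hb L x hQ).xl ((dat hb L x hQ).bl ((dat hb L x hQ).cls b)) r ^ a) ↔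
      bc1 m β x w := by
  constructor
  · intro H v hv a e
    refine H (⟨v, hv⟩, (dat hb L x hQ).cls b) a rfl ?_
    apply incG_inj hb L x hQ
    have h1 := incG_ke hb L x hQ w
    refine h1.trans (e.trans ?_)
    exact (map_zpow (incG hb L x hQ) ((dat hb L x hQ).g ⟨v, hv⟩) a).symm
  · intro H r a _ e
    refine H r.1.1 r.1.2 a ?_
    have h1 := incG_ke hb L x hQ w
    rw [← h1]
    refine (congrArg (incG hb L x hQ) e).trans ?_
    exact map_zpow (incG hb L x hQ) ((dat hb L x hQ).g r.1) a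

theorem bl_c2 (b : (dat hb L x hQ).B) (v : (dat hb L x hQ).V)
    (q : (dat hb L x hQ).B ⧸ (dat hb L x hQ).H) (w : W ℕ) :
    (∀ (r : (dat hb L x hQ).P) (a a' : ℤ),
      (dat hb L x hQ).I r ((dat hb L x hQ).bl ((dat hb L x hQ).cls b)) →
      (dat hb L x hQ).ke b .bl w ≠
        (dat hb L x hQ).xl ((dat hb L x hQ).bl ((dat hb L x hQ).cls b)) (v, q) ^ a *
        (dat hb L x hQ).xl ((dat hb L x hQ).bl ((dat hb L x hQ).cls b)) r ^ a') ↔
      bc2 m β x v.1 w := by
  have key : ∀ (v' : (dat hb L x hQ).V) (a a' : ℤ),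
      incG hb L x hQ ((dat hb L x hQ).g v ^ a * (dat hb L x hQ).g v' ^ a') =
        gR m v.1 ^ a * gR m v'.1 ^ a' := by
    intro v' a a'
    rw [map_mul, map_zpow, map_zpow]
    rfl
  constructor
  · intro H v' hv a a' e
    refine H (⟨v', hv⟩, (dat hb L x hQ).cls b) a a' rfl ?_
    apply incG_inj hb L x hQ
    have h1 := incG_ke hb L x hQ w
    exact h1.trans (e.trans (key ⟨v', hv⟩ a a').symm)
  · intro H r a a' _ e
    refine H r.1.1 r.1.2 a a' ?_
    have h1 := incG_ke hb L x hQ w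
    rw [← h1]
    exact (congrArg (incG hb L x hQ) e).trans (key r.1 a a')

theorem cls_pr (g h : AR m) :
    (dat hb L x hQ).cls (pr hb L x hQ g) = (dat hb L x hQ).cls (pr hb L x hQ h) ↔
      ret hb (com m β L (β x)) (g⁻¹ * h) = ret hb L (g⁻¹ * h) := by
  rw [(dat hb L x hQ).cls_eq, ← map_inv, ← map_mul]
  have h1 : (pr hb L x hQ (g⁻¹ * h) ∈ (dat hb L x hQ).H) ↔
      ret hb (com m β L (β x)) (ret hb L (g⁻¹ * h)) = ret hb L (g⁻¹ * h) :=
    Subgroup.mem_subgroupOf
  rw [h1, ret_sub hb (com_sub L (β x))]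

theorem pr_t (y : Fin n) (g : AR m) (j : ℤ) :
    pr hb L x hQ g * (dat hb L x hQ).t y ^ j = pr hb L x hQ (g * gR m y ^ j) := by
  rw [map_mul, map_zpow]
  rfl

theorem notcom {v : (dat hb L x hQ).V} {y : Fin n} (hy : (dat hb L x hQ).e v y) :
    β y ∉ com m β L (β x) := bsub L x y v.1 v.2 hy.2

/-- membership of a class in the line -/
def Ic (y : Fin n) (l g : AR m) : Prop :=
  ∃ j : ℤ, (dat hb L x hQ).cls (pr hb L x hQ l) =
    (dat hb L x hQ).cls (pr hb L x hQ (g * gR m y ^ j))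

theorem I_pr (v v' : (dat hb L x hQ).V) (y : Fin n) (hy : (dat hb L x hQ).e v y) (l g : AR m) :
    (dat hb L x hQ).I (v', (dat hb L x hQ).cls (pr hb L x hQ l))
      ((dat hb L x hQ).ln v y hy (pr hb L x hQ g)) ↔ v' = v ∧ Ic hb L x hQ y l g := by
  rw [(dat hb L x hQ).I_iff]
  unfold Ic
  constructor
  · rintro ⟨j, e⟩
    refine ⟨congrArg Prod.fst e, j, ?_⟩
    rw [← pr_t]
    exact congrArg Prod.snd e
  · rintro ⟨rfl, j, e⟩
    refine ⟨j, ?_⟩
    rw [pr_t, ← e]

theorem Ic_ex (y : Fin n) (hy : β y ∈ L) (l g : AR m) : Ic hb L x hQ y l g ↔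
    ∃ (j : ℤ) (ν : AR m), ν ∈ Par hb (com m β L (β x)) ∧
      ret hb L (g⁻¹ * l) = gR m y ^ j * ν := by
  unfold Ic
  constructor
  · rintro ⟨j, e⟩
    rw [eq_comm, cls_pr] at e
    refine ⟨j, ret hb (com m β L (β x)) ((g * gR m y ^ j)⁻¹ * l), ret_mem hb _ _, ?_⟩
    rw [e, ← ret_pow_mem hb (T := L) hy j, ← map_mul]
    congr 1
    rw [map_zpow, ret_gen_mem hb hy]
    group
  · rintro ⟨j, ν, hν, e⟩
    refine ⟨j, ?_⟩
    rw [eq_comm, cls_pr]
    have h1 : ret hb L ((g * gR m y ^ j)⁻¹ * l) = ν := by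
      have : (g * gR m y ^ j)⁻¹ * l = (gR m y ^ j)⁻¹ * (g⁻¹ * l) := by group
      rw [this, map_mul, map_inv, ret_pow_mem hb (T := L) hy j, e, inv_mul_cancel_left]
    rw [← ret_sub hb (com_sub L (β x)), h1]
    exact hν

theorem Ic_iff (y : Fin n) (hy : β y ∈ L) (hyT : β y ∉ com m β L (β x)) (l g : AR m) :
    Ic hb L x hQ y l g ↔
      ret hb (com m β L (β x)) ((yp hb y (g⁻¹ * l))⁻¹ * (g⁻¹ * l)) =
        ret hb L ((yp hb y (g⁻¹ * l))⁻¹ * (g⁻¹ * l)) := by
  rw [Ic_ex hb L x hQ y hy, ZH_iff hb (com_sub L (β x)) hy hyT]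

variable {α : Type} [Primcodable α]

/-- equality of classes is r.e. -/
theorem re_cls {φ ψ : α → AR m} (h1 : CG m φ) (h2 : CG m ψ) :
    REPred fun a => (dat hb L x hQ).cls (pr hb L x hQ (φ a)) =
      (dat hb L x hQ).cls (pr hb L x hQ (ψ a)) := by
  have hu := h1.iv.mul h2
  exact (re_eqG (hu.ret hb (com m β L (β x))) (hu.ret hb L)).of_eq fun a =>
    (cls_pr hb L x hQ _ _).symm

/-- inequality of classes is r.e. -/
theorem re_ncls (hN : NN hb L) {φ ψ : α → AR m} (h1 : CG m φ) (h2 : CG m ψ) :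
    REPred fun a => (dat hb L x hQ).cls (pr hb L x hQ (φ a)) ≠
      (dat hb L x hQ).cls (pr hb L x hQ (ψ a)) := by
  have hu := h1.iv.mul h2
  refine (re_neG hN (hu.ret hb (com m β L (β x))) hu).of_eq fun a => ?_
  rw [ret_sub' hb (com_sub L (β x))]
  exact (not_congr (cls_pr hb L x hQ _ _)).symm

/-- membership in lines is r.e. -/
theorem re_Ic (y : Fin n) (hy : β y ∈ L) (hyT : β y ∉ com m β L (β x)) {φ ψ : α → AR m}
    (h1 : CG m φ) (h2 : CG m ψ) : REPred fun a => Ic hb L x hQ y (φ a) (ψ a) := by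
  have hu := h2.iv.mul h1
  have hv := ((hu.yp hb y).iv).mul hu
  exact (re_eqG (hv.ret hb (com m β L (β x))) (hv.ret hb L)).of_eq fun a =>
    (Ic_iff hb L x hQ y hy hyT _ _).symm

/-- non-membership in lines is r.e. -/
theorem re_nIc (hN : NN hb L) (y : Fin n) (hy : β y ∈ L) (hyT : β y ∉ com m β L (β x))
    {φ ψ : α → AR m} (h1 : CG m φ) (h2 : CG m ψ) :
    REPred fun a => ¬ Ic hb L x hQ y (φ a) (ψ a) := by
  have hu := h2.iv.mul h1
  have hv := ((hu.yp hb y).iv).mul hu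
  refine (re_neG hN (hv.ret hb (com m β L (β x))) hv).of_eq fun a => ?_
  rw [ret_sub' hb (com_sub L (β x))]
  exact (not_congr (Ic_iff hb L x hQ y hy hyT _ _)).symm

variable (hB : ∀ X, ComputablePred fun u : W (Fin n) => ret hb {X} (ev (gR m) u) = 1)

include hB in
theorem re_neg1 (hN : NN hb L) (v : (dat hb L x hQ).V) (κ : Kw n) :
    REPred fun p : (W (Fin n) × W (Fin n)) × W ℕ =>
    (dat hb L x hQ).neg1 (v, (dat hb L x hQ).cls (pr hb L x hQ (ev (gR m) p.1.1)))
      (pr hb L x hQ (ev (gR m) p.1.2), ck hb L x hQ κ, p.2) := by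
  have hl : CG m fun p : (W (Fin n) × W (Fin n)) × W ℕ => ev (gR m) p.1.1 :=
    CG.word (Computable.fst.comp Computable.fst)
  have hg : CG m fun p : (W (Fin n) × W (Fin n)) × W ℕ => ev (gR m) p.1.2 :=
    CG.word (Computable.snd.comp Computable.fst)
  rcases ck_cases hb L x hQ κ with ⟨h1, _⟩ | ⟨v', hv, h1, _⟩ | ⟨v', hv, y, h, h1, _⟩
  · rw [h1]
    have e1 := re_ncls hb L x hQ hN hl hg
    have e2 : REPred fun p : (W (Fin n) × W (Fin n)) × W ℕ => bc2 m β x v.1 p.2 :=
      re_comp (cp_b2 hb hB x v.1 v.2).to_re Computable.snd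
    refine (re_or e1 e2).of_eq fun p => ?_
    unfold Dat.neg1
    constructor
    · rintro (h2 | h2)
      · exact ⟨trivial, Or.inl h2⟩
      · exact ⟨trivial, Or.inr ((bl_c2 hb L x hQ _ _ _ _).2 h2)⟩
    · rintro ⟨_, h2 | h2⟩
      · exact Or.inl h2
      · exact Or.inr ((bl_c2 hb L x hQ _ _ _ _).1 h2)
  · rw [h1]
    exact re_false.of_eq fun p => ⟨False.elim, fun h => h.1⟩
  · rw [h1]
    by_cases hvv : v = ⟨v', hv⟩
    · subst hvv
      have e1 := re_nIc hb L x hQ hN y h.1 (bsub L x y v' hv h.2) hl hg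
      have e2 : REPred fun p : (W (Fin n) × W (Fin n)) × W ℕ =>
          ∃ j : ℤ, (dat hb L x hQ).cls (pr hb L x hQ (ev (gR m) p.1.1)) =
            (dat hb L x hQ).cls (pr hb L x hQ (ev (gR m) p.1.2 * gR m y ^ j)) ∧
            cond2 (m v' y / 2) j p.2 := by
        refine re_exZ (P := fun (p : (W (Fin n) × W (Fin n)) × W ℕ) (j : ℤ) =>
          (dat hb L x hQ).cls (pr hb L x hQ (ev (gR m) p.1.1)) =
            (dat hb L x hQ).cls (pr hb L x hQ (ev (gR m) p.1.2 * gR m y ^ j)) ∧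
            cond2 (m v' y / 2) j p.2) (re_and ?_ ?_)
        · exact re_cls hb L x hQ (hl.comp Computable.fst)
            ((hg.comp Computable.fst).mul ((cg_zpow y).comp Computable.snd))
        · exact re_comp (EB.Asm.c2 (m v' y / 2) h.2).to_re
            (f := fun q : ((W (Fin n) × W (Fin n)) × W ℕ) × (ℕ × ℕ) => (q.2, q.1.2))
            (Computable.snd.pair (Computable.snd.comp Computable.fst))
      refine (re_or e1 e2).of_eq fun p => ?_
      have hI := I_pr hb L x hQ ⟨v', hv⟩ ⟨v', hv⟩ y h (ev (gR m) p.1.1) (ev (gR m) p.1.2)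
      unfold Dat.neg1
      constructor
      · rintro (h2 | ⟨j, h2, h3⟩)
        · exact ⟨trivial, Or.inl (fun h3 => h2 (hI.1 h3).2)⟩
        · refine ⟨trivial, Or.inr ?_⟩
          rw [h2, ← pr_t]
          exact ((dat hb L x hQ).dh_c2 ⟨v', hv⟩ y h _ j p.2).2 h3
      · rintro ⟨_, h2 | h2⟩
        · exact Or.inl (fun h3 => h2 (hI.2 ⟨rfl, h3⟩))
        · by_cases h3 : Ic hb L x hQ y (ev (gR m) p.1.1) (ev (gR m) p.1.2)
          · right
            obtain ⟨j, hj⟩ := h3
            refine ⟨j, hj, ?_⟩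
            rw [hj, ← pr_t] at h2
            exact ((dat hb L x hQ).dh_c2 ⟨v', hv⟩ y h _ j p.2).1 h2
          · exact Or.inl h3
    · refine re_true.of_eq fun p => ⟨fun _ => ⟨trivial, Or.inl ?_⟩, fun _ => trivial⟩
      intro h2
      exact hvv ((I_pr hb L x hQ ⟨v', hv⟩ v y h _ _).1 h2).1

theorem isl_ck (κ : Kw n) : (dat hb L x hQ).isl (ck hb L x hQ κ) ∨
    ∃ v, ck hb L x hQ κ = .pt v := by
  cases ck hb L x hQ κ with
  | pt v => exact Or.inr ⟨v, rfl⟩
  | bl => exact Or.inl trivial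
  | dh v y h => exact Or.inl trivial

/-- words of two syllables -/
theorem re_neg2 (hN : NN hb L) (v : (dat hb L x hQ).V) (κ2 κ1 : Kw n) :
    REPred fun p : W (Fin n) × W (Fin n) =>
      ((dat hb L x hQ).isl (ck hb L x hQ κ2) ∨ (dat hb L x hQ).isl (ck hb L x hQ κ1) ∨
        (dat hb L x hQ).pnt (pr hb L x hQ (ev (gR m) p.2)) (ck hb L x hQ κ1) 0 ≠
          (v, (dat hb L x hQ).cls (pr hb L x hQ (ev (gR m) p.1)))) := by
  have hl : CG m fun p : W (Fin n) × W (Fin n) => ev (gR m) p.1 := CG.word Computable.fst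
  have hg : CG m fun p : W (Fin n) × W (Fin n) => ev (gR m) p.2 := CG.word Computable.snd
  rcases isl_ck hb L x hQ κ2 with h2 | ⟨v2, h2⟩
  · exact re_true.of_eq fun p => ⟨fun _ => Or.inl h2, fun _ => trivial⟩
  rcases isl_ck hb L x hQ κ1 with h1 | ⟨v1, h1⟩
  · exact re_true.of_eq fun p => ⟨fun _ => Or.inr (Or.inl h1), fun _ => trivial⟩
  rw [h1, h2]
  by_cases hv : v1 = v
  · subst hv
    refine (re_ncls hb L x hQ hN hg hl).of_eq fun p => ?_
    constructor
    · intro h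
      refine Or.inr (Or.inr fun e => h ?_)
      exact congrArg Prod.snd e
    · rintro (h | h | h)
      · exact False.elim h
      · exact False.elim h
      · intro e
        apply h
        show (v1, _) = (v1, _)
        rw [e]
  · refine re_true.of_eq fun p => ⟨fun _ => Or.inr (Or.inr fun e => ?_), fun _ => trivial⟩
    exact hv (congrArg Prod.fst e)

include hB in
theorem re_neg (hN : NN hb L) (v : (dat hb L x hQ).V) :
    REPred fun p : W (Fin n) × List (Syw n) =>
    (dat hb L x hQ).neg (v, (dat hb L x hQ).cls (pr hb L x hQ (ev (gR m) p.1)))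
      (p.2.map (conv hb L x hQ)) := by
  have a1 : REPred fun p : W (Fin n) × List (Syw n) => ∃ a : Syw n, p.2 = [a] ∧
      (dat hb L x hQ).neg1 (v, (dat hb L x hQ).cls (pr hb L x hQ (ev (gR m) p.1)))
        (conv hb L x hQ a) := by
    refine re_ex (p := fun (p : W (Fin n) × List (Syw n)) (a : Syw n) => p.2 = [a] ∧
      (dat hb L x hQ).neg1 (v, (dat hb L x hQ).cls (pr hb L x hQ (ev (gR m) p.1)))
        (conv hb L x hQ a)) (re_and ?_ ?_)
    · exact (cp_eq (Computable.snd.comp Computable.fst) ((Primrec.list_cons.comp Primrec.snd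
        (Primrec.const [])).to_comp :
          Computable fun q : (W (Fin n) × List (Syw n)) × Syw n => [q.2])).to_re
    · refine re_case (fun q : (W (Fin n) × List (Syw n)) × Syw n => q.2.2.1)
        (Computable.fst.comp (Computable.snd.comp Computable.snd))
        (fun κ q => (dat hb L x hQ).neg1
          (v, (dat hb L x hQ).cls (pr hb L x hQ (ev (gR m) q.1.1)))
          (pr hb L x hQ (ev (gR m) q.2.1), ck hb L x hQ κ, q.2.2.2)) fun κ => ?_
      exact re_comp (re_neg1 hb L x hQ hB hN v κ)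
        (f := fun q : (W (Fin n) × List (Syw n)) × Syw n => ((q.1.1, q.2.1), q.2.2.2))
        (((Computable.fst.comp Computable.fst).pair (Computable.fst.comp Computable.snd)).pair
          (Computable.snd.comp (Computable.snd.comp Computable.snd)))
  have a2 : REPred fun p : W (Fin n) × List (Syw n) => ∃ b : Syw n × Syw n,
      p.2 = [b.1, b.2] ∧
      ((dat hb L x hQ).isl (conv hb L x hQ b.1).2.1 ∨
        (dat hb L x hQ).isl (conv hb L x hQ b.2).2.1 ∨
        (dat hb L x hQ).pnt (conv hb L x hQ b.2).1 (conv hb L x hQ b.2).2.1 0 ≠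
          (v, (dat hb L x hQ).cls (pr hb L x hQ (ev (gR m) p.1)))) := by
    refine re_ex (p := fun (p : W (Fin n) × List (Syw n)) (b : Syw n × Syw n) =>
      p.2 = [b.1, b.2] ∧
      ((dat hb L x hQ).isl (conv hb L x hQ b.1).2.1 ∨
        (dat hb L x hQ).isl (conv hb L x hQ b.2).2.1 ∨
        (dat hb L x hQ).pnt (conv hb L x hQ b.2).1 (conv hb L x hQ b.2).2.1 0 ≠
          (v, (dat hb L x hQ).cls (pr hb L x hQ (ev (gR m) p.1))))) (re_and ?_ ?_)
    · refine (cp_eq (Computable.snd.comp Computable.fst) ?_).to_re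
      exact (Primrec.list_cons.comp (Primrec.fst.comp Primrec.snd)
        (Primrec.list_cons.comp (Primrec.snd.comp Primrec.snd)
        (Primrec.const []))).to_comp
    · refine re_case (fun q : (W (Fin n) × List (Syw n)) × (Syw n × Syw n) =>
          (q.2.1.2.1, q.2.2.2.1))
        ((Computable.fst.comp (Computable.snd.comp (Computable.fst.comp Computable.snd))).pair
          (Computable.fst.comp (Computable.snd.comp (Computable.snd.comp Computable.snd))))
        (fun κ q => (dat hb L x hQ).isl (ck hb L x hQ κ.1) ∨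
          (dat hb L x hQ).isl (ck hb L x hQ κ.2) ∨
          (dat hb L x hQ).pnt (pr hb L x hQ (ev (gR m) q.2.2.1)) (ck hb L x hQ κ.2) 0 ≠
          (v, (dat hb L x hQ).cls (pr hb L x hQ (ev (gR m) q.1.1)))) fun κ => ?_
      exact re_comp (re_neg2 hb L x hQ hN v κ.1 κ.2)
        (f := fun q : (W (Fin n) × List (Syw n)) × (Syw n × Syw n) => (q.1.1, q.2.2.1))
        ((Computable.fst.comp Computable.fst).pair
          (Computable.fst.comp (Computable.snd.comp Computable.snd)))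
  have a3 : REPred fun p : W (Fin n) × List (Syw n) => 3 ≤ p.2.length := by
    have h1 : PrimrecPred fun p : W (Fin n) × List (Syw n) => 3 ≤ p.2.length :=
      Primrec.nat_le.comp (Primrec.const 3) (Primrec.list_length.comp Primrec.snd)
    exact h1.computablePred.to_re
  refine (re_or a1 (re_or a2 a3)).of_eq ?_
  rintro ⟨l, C⟩
  match C with
  | [] => simp [Dat.neg]
  | [a] =>
    constructor
    · rintro (⟨b, h1, h2⟩ | ⟨b, h1, _⟩ | h)
      · have h3 : a = b := by simpa using h1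
        subst h3
        exact h2
      · simp at h1
      · simp at h
    · intro h
      exact Or.inl ⟨a, rfl, h⟩
  | [a2, a1] =>
    constructor
    · rintro (⟨b, h1, h2⟩ | ⟨b, h1, h2⟩ | h)
      · simp at h1
      · have h3 : a2 = b.1 ∧ a1 = b.2 := by simpa using h1
        rw [h3.1, h3.2]
        exact h2
      · simp at h
    · intro h
      exact Or.inr (Or.inl ⟨(a2, a1), rfl, h⟩)
  | a3 :: a2 :: a1 :: C =>
    constructor
    · intro _
      exact trivial
    · intro _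
      refine Or.inr (Or.inr ?_)
      simp

/-- not a product `λ v ^ b λ⁻¹ · μ w ^ a μ⁻¹` -/
def NZ (κ : AR m) (v : (dat hb L x hQ).V) (l : AR m) : Prop :=
  ∃ C : List (dat hb L x hQ).Syl, (dat hb L x hQ).VC C ∧
  κ = val hb L x hQ C ∧
    (dat hb L x hQ).neg (v, (dat hb L x hQ).cls (pr hb L x hQ l)) C

/-- valid codes are recursively enumerable -/
def VR : Prop :=
  REPred fun C : List (Syw n) => (dat hb L x hQ).VC (C.map (conv hb L x hQ))

include hB in
theorem re_NZ (hN : NN hb L) (hV : VR hb L x hQ) (v : (dat hb L x hQ).V) {φ ψ : α → AR m}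
    (h1 : CG m φ) (h2 : CG m ψ) : REPred fun a => NZ hb L x hQ (φ a) v (ψ a) := by
  obtain ⟨g, hg, hg'⟩ := h2
  have h3 : REPred fun p : α × List (Syw n) =>
      (dat hb L x hQ).VC (p.2.map (conv hb L x hQ)) := re_comp hV Computable.snd
  have h4 : REPred fun p : α × List (Syw n) =>
      φ p.1 = val hb L x hQ (p.2.map (conv hb L x hQ)) :=
    re_eqG (h1.comp Computable.fst) ((cg_val hb L x hQ).comp Computable.snd)
  have h5 : REPred fun p : α × List (Syw n) =>
      (dat hb L x hQ).neg (v, (dat hb L x hQ).cls (pr hb L x hQ (ψ p.1)))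
        (p.2.map (conv hb L x hQ)) := by
    refine (re_comp (re_neg hb L x hQ hB hN v) (f := fun p : α × List (Syw n) => (g p.1, p.2))
      ((hg.comp Computable.fst).pair Computable.snd)).of_eq fun p => ?_
    rw [hg']
  refine (re_ex (p := fun (a : α) (C : List (Syw n)) =>
    (dat hb L x hQ).VC (C.map (conv hb L x hQ)) ∧
      φ a = val hb L x hQ (C.map (conv hb L x hQ)) ∧
      (dat hb L x hQ).neg (v, (dat hb L x hQ).cls (pr hb L x hQ (ψ a)))
        (C.map (conv hb L x hQ)))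
    (re_and h3 (re_and h4 h5))).of_eq fun a => ?_
  constructor
  · rintro ⟨C, h⟩
    exact ⟨_, h⟩
  · rintro ⟨C, h⟩
    obtain ⟨C', rfl⟩ := conv_surj hb L x hQ C
    exact ⟨C', h⟩

/-- products of two conjugates -/
def ZZ (κ : AR m) (v : Fin n) (l : AR m) : Prop :=
  ∃ (b a : ℤ) (w : Fin n) (μ : AR m), β w = β x ∧ μ ∈ Par hb L ∧
  κ = l * gR m v ^ b * l⁻¹ * (μ * gR m w ^ a * μ⁻¹)

theorem NZ_iff (hx : β x ∉ L) (κ : AR m) (v : (dat hb L x hQ).V) (l : AR m)
    (h1 : ret hb (insert (β x) L) κ = κ) (h2 : ret hb L κ = 1) (hl : l ∈ Par hb L) :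
    NZ hb L x hQ κ v l ↔ ¬ ZZ hb L x κ v.1 l := by
  have hl' : inc hb L x hQ (pr hb L x hQ l) = l := by
    rw [inc_pr]
    exact hl
  have key : ∀ κ' : AR m, (∃ (b a : ℤ) (w : (dat hb L x hQ).V) (μ : (dat hb L x hQ).B),
        κ' = px hb L x hQ v (pr hb L x hQ l) ^ b * px hb L x hQ w μ ^ a) ↔
        ZZ hb L x κ' v.1 l := by
    intro κ'
    constructor
    · rintro ⟨b, a, w, μ, e⟩
      refine ⟨b, a, w.1, inc hb L x hQ μ, w.2, ?_, ?_⟩
      · exact (μ : Par hb L).2
      · rw [e, px_pow, px_pow, hl']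
    · rintro ⟨b, a, w, μ, hw, hμ, e⟩
      refine ⟨b, a, ⟨w, hw⟩, pr hb L x hQ μ, ?_⟩
      have hμ' : inc hb L x hQ (pr hb L x hQ μ) = μ := by
        rw [inc_pr]
        exact hμ
      rw [e, px_pow, px_pow, hl', hμ']
  rw [← key]
  constructor
  · rintro ⟨C, hC, rfl, hn⟩
    exact (K3 hb L x hx hQ C hC v _).1 hn
  · intro h
    obtain ⟨C, hC, e⟩ := K1 hb L x hx hQ κ
    rw [h1, h2, mul_one] at e
    refine ⟨C, hC, e, (K3 hb L x hx hQ C hC v _).2 ?_⟩
    rw [← e]
    exact h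

end ng

end Pool.Agent.H87.Brt
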