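import Pool.Agent.H87.Brt.Dat

set_option autoImplicit false

/-! Consequences of the action on normal forms. -/

namespace Pool.Agent.H87.Brt

open Pool.Agent.H482R3.EA (W inv ev PP xx evF cond1 cond2 Sys St Near InD Adm Act)
open Pool.Agent.H482R3

namespace Dat

variable (D : Dat) (A : Act D.sys)

/-- multiplication by a power of a point -/
noncomputable def pa (ω : A.Ω) (p : D.P) (n : ℤ) : A.Ω :=
  A.act ω (D.bl p.2) (D.xl (D.bl p.2) p ^ n)

theorem pa_line (ω : A.Ω) (p : D.P) (n : ℤ) (l : D.Ln) (h : D.I p l) :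
    D.pa A ω p n = A.act ω l (D.xl l p ^ n) := A.act_pt ω (D.bl p.2) l p n rfl h

theorem pa_add (ω : A.Ω) (p : D.P) (m n : ℤ) :
    D.pa A (D.pa A ω p m) p n = D.pa A ω p (m + n) := by
  unfold pa
  rw [zpow_add]
  exact A.act_mul ω _ _ _

theorem pa_zero (ω : A.Ω) (p : D.P) : D.pa A ω p 0 = ω := by
  unfold pa
  rw [zpow_zero]
  exact A.act_one ω _

theorem st_pa (ω : A.Ω) (p : D.P) (n : ℤ) (hn : n ≠ 0) (h : ¬ Near D.sys p (A.st ω)) :
    A.st (D.pa A ω p n) = .pt p := A.st_pt ω (D.bl p.2) p n rfl hn h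

theorem act_mul' (ω : A.Ω) (l : D.Ln) (y y' : D.Lg l) :
    A.act (A.act ω l y) l y' = A.act ω l (y * y') := A.act_mul ω l y y'

/-- the action of a line group on the base point is free -/
theorem act_one_ne (l : D.Ln) (y : D.Lg l) (h : A.act A.one l y = A.one) : y = 1 := by
  by_contra hy
  have h0 : A.st A.one = .none := A.st_one
  by_cases h1 : ∃ (r : D.P) (a : ℤ), D.I r l ∧ y = D.xl l r ^ a
  · obtain ⟨r, a, hr, rfl⟩ := h1
    have ha : a ≠ 0 := by
      rintro rfl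
      exact hy (zpow_zero _)
    have h2 := A.st_pt A.one l r a hr ha (by rw [h0]; exact id)
    have h3 : A.act A.one l (D.sys.x l r ^ a) = A.one := h
    rw [h3, h0] at h2
    cases h2
  · have h2 := A.st_ln A.one l y (by rw [h0]; exact id) (fun q _ => by rw [h0]; exact id)
      (fun r a hr e => h1 ⟨r, a, hr, e⟩)
    have h3 : A.act A.one l y = A.one := h
    rw [h3, h0] at h2
    cases h2

/-- products of two points are not powers of a point -/
theorem two_ne (l : D.Ln) (p q : D.P) (hp : D.I p l) (hq : D.I q l) (hpq : p ≠ q) (a b : ℤ)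
    (ha : a ≠ 0) (hb : b ≠ 0) (r : D.P) (d : ℤ) (hr : D.I r l) :
    D.xl l p ^ a * D.xl l q ^ b ≠ D.xl l r ^ d := by
  intro e
  by_cases h1 : r = p
  · subst h1
    have : D.xl l r ^ (a - d) * D.xl l q ^ b = 1 := by
      have h2 : D.xl l r ^ (a - d) * D.xl l q ^ b =
          (D.xl l r ^ d)⁻¹ * (D.xl l r ^ a * D.xl l q ^ b) := by group
      rw [h2, e, inv_mul_cancel]
    exact hb (D.L1 l r q _ _ hp hq hpq this).2
  by_cases h2 : r = q
  · subst h2
    have : D.xl l p ^ a * D.xl l r ^ (b - d) = 1 := by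
      have h2 : D.xl l p ^ a * D.xl l r ^ (b - d) =
          (D.xl l p ^ a * D.xl l r ^ b) * (D.xl l r ^ d)⁻¹ := by group
      rw [h2, e, mul_inv_cancel]
    exact ha (D.L1 l p r _ _ hp hq hpq this).1
  · have : D.xl l p ^ a * D.xl l q ^ b * D.xl l r ^ (-d) = 1 := by
      rw [e, zpow_neg, mul_inv_cancel]
    exact ha (D.L2 l p q r _ _ _ hp hq hr hpq (Ne.symm h2) (Ne.symm h1) this).1

/-- state after two near points -/
theorem two_near (ω : A.Ω) (l : D.Ln) (h1 : ¬ InD D.sys l (A.st ω))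
    (h2 : ∀ q, D.I q l → ¬ Near D.sys q (A.st ω)) (p q : D.P) (hp : D.I p l) (hq : D.I q l)
    (hpq : p ≠ q) (a b : ℤ) (ha : a ≠ 0) (hb : b ≠ 0) :
    A.st (D.pa A (D.pa A ω p a) q b) = .ln l := by
  rw [D.pa_line A _ q b l hq, D.pa_line A _ p a l hp, D.act_mul']
  exact A.st_ln ω l _ h1 h2 (fun r d hr e => D.two_ne l p q hp hq hpq a b ha hb r d hr e)

theorem two_near_one (l : D.Ln) (p q : D.P) (hp : D.I p l) (hq : D.I q l)
    (hpq : p ≠ q) (a b : ℤ) (ha : a ≠ 0) (hb : b ≠ 0) :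
    A.st (D.pa A (D.pa A A.one p a) q b) = .ln l :=
  D.two_near A A.one l (by rw [A.st_one]; exact id) (fun q _ => by rw [A.st_one]; exact id)
    p q hp hq hpq a b ha hb

theorem st_pa_one (p : D.P) (n : ℤ) (hn : n ≠ 0) : A.st (D.pa A A.one p n) = .pt p :=
  D.st_pa A A.one p n hn (by rw [A.st_one]; exact id)

theorem single (p : D.P) (n : ℤ) (h : D.pa A A.one p n = A.one) : n = 0 := by
  by_contra hn
  have h1 := D.st_pa_one A p n hn
  rw [h, A.st_one] at h1
  cases h1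

theorem two (p q : D.P) (a b : ℤ) (hpq : p ≠ q) (h : D.pa A (D.pa A A.one p a) q b = A.one) :
    a = 0 ∧ b = 0 := by
  by_cases ha : a = 0
  · subst ha
    rw [pa_zero] at h
    exact ⟨rfl, D.single A q b h⟩
  by_cases hb : b = 0
  · subst hb
    rw [pa_zero] at h
    exact ⟨D.single A p a h, rfl⟩
  exfalso
  by_cases hn : Near D.sys q (A.st (D.pa A A.one p a))
  · rw [D.st_pa_one A p a ha] at hn
    obtain ⟨l, hp, hq⟩ := hn
    have h1 := D.two_near_one A l p q hp hq hpq a b ha hb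
    rw [h, A.st_one] at h1
    cases h1
  · have h1 := D.st_pa A _ q b hb hn
    rw [h, A.st_one] at h1
    cases h1

theorem three_near (l : D.Ln) (p0 p1 p2 : D.P) (a b d : ℤ) (h0 : D.I p0 l) (h1 : D.I p1 l)
    (h01 : p0 ≠ p1) (h12 : p1 ≠ p2) (h02 : p0 ≠ p2) (ha : a ≠ 0) (hb : b ≠ 0) (hd : d ≠ 0) :
    D.pa A (D.pa A (D.pa A A.one p0 a) p1 b) p2 d ≠ A.one := by
  intro h
  by_cases h2 : D.I p2 l
  · rw [D.pa_line A _ p2 d l h2, D.pa_line A _ p1 b l h1, D.pa_line A _ p0 a l h0, D.act_mul',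
      D.act_mul'] at h
    have h3 := D.act_one_ne A l _ h
    rw [← mul_assoc] at h3
    exact ha (D.L2 l p0 p1 p2 a b d h0 h1 h2 h01 h12 h02 h3).1
  · have h3 := D.two_near_one A l p0 p1 h0 h1 h01 a b ha hb
    have h4 := D.st_pa A _ p2 d hd (by rw [h3]; exact h2)
    rw [h, A.st_one] at h4
    cases h4

theorem three_dist (p0 p1 p2 : D.P) (a b d : ℤ)
    (h : D.pa A (D.pa A (D.pa A A.one p0 a) p1 b) p2 d = A.one)
    (h' : D.pa A (D.pa A (D.pa A A.one p1 b) p2 d) p0 a = A.one)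
    (h01 : p0 ≠ p1) (h12 : p1 ≠ p2) (h02 : p0 ≠ p2) (ha : a ≠ 0) (hb : b ≠ 0) (hd : d ≠ 0) :
    False := by
  by_cases hn : Near D.sys p1 (.pt p0)
  · obtain ⟨l, hp, hq⟩ := hn
    exact D.three_near A l p0 p1 p2 a b d hp hq h01 h12 h02 ha hb hd h
  by_cases hn2 : Near D.sys p2 (.pt p1)
  · obtain ⟨l, hp, hq⟩ := hn2
    exact D.three_near A l p1 p2 p0 b d a hp hq h12 (Ne.symm h02) (Ne.symm h01) hb hd ha h'
  · have e1 := D.st_pa_one A p0 a ha
    have e2 := D.st_pa A _ p1 b hb (by rw [e1]; exact hn)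
    have e3 := D.st_pa A _ p2 d hd (by rw [e2]; exact hn2)
    rw [h, A.st_one] at e3
    cases e3

/-- no relation with three points -/
theorem three (p0 p1 p2 : D.P) (a b d : ℤ)
    (h : D.pa A (D.pa A (D.pa A A.one p0 a) p1 b) p2 d = A.one)
    (h' : D.pa A (D.pa A (D.pa A A.one p1 b) p2 d) p0 a = A.one)
    (h'' : D.pa A (D.pa A (D.pa A A.one p2 d) p0 a) p1 b = A.one)
    (ha : a ≠ 0) (hb : b ≠ 0) : p0 = p1 := by
  by_contra h01
  by_cases hd : d = 0
  · subst hd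
    rw [pa_zero] at h
    exact ha (D.two A p0 p1 a b h01 h).1
  by_cases h12 : p1 = p2
  · subst h12
    rw [pa_add] at h
    exact ha (D.two A p0 p1 _ _ h01 h).1
  by_cases h02 : p0 = p2
  · subst h02
    rw [pa_add] at h''
    exact hb (D.two A p0 p1 _ _ h01 h'').2
  exact D.three_dist A p0 p1 p2 a b d h h' h01 h12 h02 ha hb hd

end Dat

end Pool.Agent.H87.Brt
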