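import Pool.Agent.H87.Brt.Neg

set_option autoImplicit false

/-! Values of codes. -/

namespace Pool.Agent.H87.Brt

open Pool.Agent.H482R3.EA (W inv ev PP xx evF cond1 cond2 Sys St Near InD Adm Act)
open Pool.Agent.H482R3.EB (alt AR gR)
open Pool.Agent.H482R3
open Pool.Agent.H87.Art (ev_nil ev_append ev_cons ev_inv ev_single map_ev)

section act

variable {n : ℕ} {ι : Type} [DecidableEq ι] {m : Fin n → Fin n → ℕ} {β : Fin n → ι}
  (hb : Blk m β) (L : Finset ι) (x : Fin n) (hx : β x ∉ L)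
  (hQ : ∀ Y ∈ L, Y ∉ com m β L (β x) → QQ hb (com m β L (β x)) Y)
  (A : Act (dat hb L x hQ).sys)

/-- conjugates of the new generators -/
noncomputable def px (v : (dat hb L x hQ).V) (b : (dat hb L x hQ).B) : AR m :=
  inc hb L x hQ b * gR m v.1 * (inc hb L x hQ b)⁻¹

theorem px_pow (v : (dat hb L x hQ).V) (b : (dat hb L x hQ).B) (k : ℤ) :
    px hb L x hQ v b ^ k = inc hb L x hQ b * gR m v.1 ^ k * (inc hb L x hQ b)⁻¹ := by
  unfold px
  rw [conj_zpow]

theorem H_comm (v : (dat hb L x hQ).V) (h : (dat hb L x hQ).B) (hh : h ∈ (dat hb L x hQ).H) :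
    Commute (inc hb L x hQ h) (gR m v.1) := by
  have h1 : (inc hb L x hQ h) ∈ Par hb (com m β L (β v.1)) := by
    have h2 : β v.1 = β x := v.2
    rw [h2]
    exact Subgroup.mem_subgroupOf.1 hh
  exact com_commute hb h1

theorem px_H (v : (dat hb L x hQ).V) (b h : (dat hb L x hQ).B) (hh : h ∈ (dat hb L x hQ).H) :
    px hb L x hQ v (b * h) = px hb L x hQ v b := by
  have h1 := H_comm hb L x hQ v h hh
  unfold px
  rw [map_mul, mul_assoc (inc hb L x hQ b), h1.eq, mul_inv_rev]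
  group

/-- the values of the points -/
noncomputable def XP (p : (dat hb L x hQ).P) : AR m := px hb L x hQ p.1 p.2.out

theorem XP_cls (v : (dat hb L x hQ).V) (b : (dat hb L x hQ).B) :
    XP hb L x hQ (v, (dat hb L x hQ).cls b) = px hb L x hQ v b := by
  obtain ⟨h, hh⟩ := QuotientGroup.mk_out_eq_mul (dat hb L x hQ).H b
  unfold XP
  simp only
  rw [hh, px_H hb L x hQ v b h h.2]

noncomputable def phL : (l : (dat hb L x hQ).Ln) → (dat hb L x hQ).Lg l →* AR m
  | .inl q => (MulAut.conj (inc hb L x hQ q.out)).toMonoidHom.comp (incG hb L x hQ)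
  | .inr q => FreeGroup.lift (fun r : Fin (m q.1.1.1.1 q.1.1.2 / 2) =>
      inc hb L x hQ q.2.out * gR m q.1.1.2 ^ (r : ℕ) * gR m q.1.1.1.1 *
        gR m q.1.1.2 ^ (-((r : ℕ) : ℤ)) * (inc hb L x hQ q.2.out)⁻¹)

include hx in
theorem phL_x (l : (dat hb L x hQ).Ln) (p : (dat hb L x hQ).P) (hp : (dat hb L x hQ).I p l) :
    phL hb L x hQ l ((dat hb L x hQ).xl l p) = XP hb L x hQ p := by
  rcases l with l | ⟨⟨⟨v, y⟩, hy⟩, q⟩
  · have h1 : p.2 = l := hp
    subst h1
    rfl
  · obtain ⟨hv, b, hpb, hb'⟩ := hp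
    have hy1 : β y ∈ L := hy.1
    have hy2 : 2 ≤ m v.1 y / 2 := hy.2
    have hvx : β v.1 = β x := v.2
    have hq' : (QuotientGroup.mk b : (dat hb L x hQ).B ⧸ (dat hb L x hQ).HL y) = q := hb'
    subst hq'
    have hne : β v.1 ≠ β y := fun e => hx (by rw [← hvx, e]; exact hy1)
    have hrel : (gR m v.1 * gR m y) ^ (m v.1 y / 2) = (gR m y * gR m v.1) ^ (m v.1 y / 2) := by
      obtain ⟨k, hk⟩ := hb.ev v.1 y hne
      have h2 := gen_rel (m := m) v.1 y (fun e => hne (by rw [e])) (by omega)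
      rw [show m v.1 y = 2 * (m v.1 y / 2) by omega, alt_even, alt_even] at h2
      exact h2
    have hp1 : p = (v, (dat hb L x hQ).cls b) := Prod.ext hv hpb.symm
    subst hp1
    have h1 := EB.Asm.xh (AR m) inferInstance (gR m v.1) (gR m y)
      (inc hb L x hQ (QuotientGroup.mk b : (dat hb L x hQ).B ⧸ (dat hb L x hQ).HL y).out)
      (m v.1 y / 2) (by omega) hrel
      ((dat hb L x hQ).exz y ((QuotientGroup.mk b : (dat hb L x hQ).B ⧸
        (dat hb L x hQ).HL y).out⁻¹ * (QuotientGroup.mk b :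
          (dat hb L x hQ).B ⧸ (dat hb L x hQ).H).out))
    refine Eq.trans h1 ?_
    rw [XP_cls]
    obtain ⟨h, hh⟩ := QuotientGroup.mk_out_eq_mul (dat hb L x hQ).H b
    obtain ⟨h', hh'⟩ := QuotientGroup.mk_out_eq_mul ((dat hb L x hQ).HL y) b
    obtain ⟨j, g, hg, hgc, e⟩ := h'.2
    rw [hh, hh', e]
    have e1 : (dat hb L x hQ).exz y ((b * ((dat hb L x hQ).t y ^ j * g))⁻¹ * (b * h)) = -j := by
      rw [(dat hb L x hQ).exz_mul, (dat hb L x hQ).exz_inv, (dat hb L x hQ).exz_mul,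
        (dat hb L x hQ).exz_mul, (dat hb L x hQ).exz_mul,
        (dat hb L x hQ).exz_t v y ⟨hy1, hy2⟩,
        (dat hb L x hQ).exz_H v y ⟨hy1, hy2⟩ g hg,
        (dat hb L x hQ).exz_H v y ⟨hy1, hy2⟩ h h.2]
      ring
    rw [e1]
    have e2 : inc hb L x hQ ((dat hb L x hQ).t y) = gR m y := ret_gen_mem hb hy1
    have e3 : Commute (inc hb L x hQ g) (gR m v.1) := H_comm hb L x hQ v g hg
    have e4 : Commute (inc hb L x hQ g) (gR m y) := by
      have := congrArg (inc hb L x hQ) hgc.eq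
      rw [map_mul, map_mul, e2] at this
      exact this
    rw [map_mul, map_mul, map_zpow, e2]
    have e5 : gR m y ^ j * inc hb L x hQ g * gR m y ^ (-j) = inc hb L x hQ g := by
      rw [← (e4.zpow_right j).eq, mul_assoc, ← zpow_add, add_neg_cancel, zpow_zero, mul_one]
    have e6 : inc hb L x hQ b * (gR m y ^ j * inc hb L x hQ g) * gR m y ^ (-j) =
        inc hb L x hQ b * inc hb L x hQ g := by
      rw [mul_assoc, e5]
    have e7 : gR m y ^ (-(-j)) * (inc hb L x hQ b * (gR m y ^ j * inc hb L x hQ g))⁻¹ =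
        (inc hb L x hQ b * inc hb L x hQ g)⁻¹ := by
      rw [← e6, mul_inv_rev (inc hb L x hQ b * (gR m y ^ j * inc hb L x hQ g)), ← zpow_neg]
    rw [e6, mul_assoc (inc hb L x hQ b * inc hb L x hQ g * gR m v.1), e7]
    unfold px
    rw [mul_assoc (inc hb L x hQ b), e3.eq, mul_inv_rev]
    group

include hx in
theorem exists_val : ∃ v : A.Ω → AR m, v A.one = 1 ∧
    ∀ (ω : A.Ω) (w : (dat hb L x hQ).V) (b : (dat hb L x hQ).B) (k : ℤ),
      v ((dat hb L x hQ).pa A ω (w, (dat hb L x hQ).cls b) k) =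
        v ω * px hb L x hQ w b ^ k := by
  obtain ⟨v, h1, h2⟩ := A.val (AR m) (phL hb L x hQ) (XP hb L x hQ) (phL_x hb L x hx hQ)
  refine ⟨v, h1, fun ω w b k => ?_⟩
  have h3 := h2 ω ((dat hb L x hQ).bl ((dat hb L x hQ).cls b))
    ((dat hb L x hQ).xl ((dat hb L x hQ).bl ((dat hb L x hQ).cls b))
      (w, (dat hb L x hQ).cls b) ^ k)
  refine h3.trans ?_
  congr 1
  have h4 : phL hb L x hQ ((dat hb L x hQ).bl ((dat hb L x hQ).cls b))
      ((dat hb L x hQ).xl ((dat hb L x hQ).bl ((dat hb L x hQ).cls b))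
        (w, (dat hb L x hQ).cls b) ^ k) =
      (phL hb L x hQ ((dat hb L x hQ).bl ((dat hb L x hQ).cls b))
      ((dat hb L x hQ).xl ((dat hb L x hQ).bl ((dat hb L x hQ).cls b))
        (w, (dat hb L x hQ).cls b))) ^ k :=
    map_zpow _ _ k
  rw [phL_x hb L x hx hQ ((dat hb L x hQ).bl ((dat hb L x hQ).cls b))
    (w, (dat hb L x hQ).cls b) rfl, XP_cls] at h4
  exact h4

/-- the letters and base group elements of the points of a syllable -/
noncomputable def pb (b : (dat hb L x hQ).B) : Kd (dat hb L x hQ) → ℕ →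
    (dat hb L x hQ).V × (dat hb L x hQ).B
  | .pt v, _ => (v, b)
  | .bl, r => ((dat hb L x hQ).nu r, b)
  | .dh v y _, r => (v, b * (dat hb L x hQ).t y ^ (((r % (dat hb L x hQ).k v y : ℕ) : ℤ)))

theorem pnt_pb (b : (dat hb L x hQ).B) (κ : Kd (dat hb L x hQ)) :
    (dat hb L x hQ).pnt b κ = fun r => ((pb hb L x hQ b κ r).1,
      (dat hb L x hQ).cls (pb hb L x hQ b κ r).2) := by
  funext r
  cases κ <;> rfl

/-- the value of a syllable -/
noncomputable def valS (a : (dat hb L x hQ).Syl) : AR m :=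
  ev (fun r => px hb L x hQ (pb hb L x hQ a.1 a.2.1 r).1 (pb hb L x hQ a.1 a.2.1 r).2) a.2.2

/-- the value of a code -/
noncomputable def val : List (dat hb L x hQ).Syl → AR m
  | [] => 1
  | a :: C => val C * valS hb L x hQ a

theorem val_cons (a : (dat hb L x hQ).Syl) (C : List (dat hb L x hQ).Syl) :
    val hb L x hQ (a :: C) = val hb L x hQ C * valS hb L x hQ a := rfl

include hx in
theorem R_px (v : (dat hb L x hQ).V) (b : (dat hb L x hQ).B) (k : ℤ) (ω : A.Ω) :
    R hb L x hQ A (px hb L x hQ v b ^ k) (ω, 1) =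
      ((dat hb L x hQ).pa A ω (v, (dat hb L x hQ).cls b) k, 1) := by
  rw [px_pow]
  exact R_conj hb L x hx hQ A b v k ω

include hx in
theorem R_stp (p : ℕ → (dat hb L x hQ).V × (dat hb L x hQ).B) (w : W ℕ) : ∀ ω : A.Ω,
    R hb L x hQ A (ev (fun r => px hb L x hQ (p r).1 (p r).2) w) (ω, 1) =
      ((dat hb L x hQ).stp A ω (fun r => ((p r).1, (dat hb L x hQ).cls (p r).2)) w, 1) := by
  induction w with
  | nil => intro ω; exact R_one hb L x hQ A _
  | cons a w ih =>
    intro ω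
    rw [ev_cons, R_mul, Dat.stp_cons]
    have h1 := R_px hb L x hx hQ A (p a.1).1 (p a.1).2 (if a.2 then 1 else -1) ω
    have h2 : (if a.2 = true then px hb L x hQ (p a.1).1 (p a.1).2 else
        (px hb L x hQ (p a.1).1 (p a.1).2)⁻¹) =
        px hb L x hQ (p a.1).1 (p a.1).2 ^ (if a.2 then 1 else -1 : ℤ) := by
      split_ifs
      · rw [zpow_one]
      · rw [zpow_neg_one]
    rw [h2, h1, ih]

include hx in
theorem R_val (C : List (dat hb L x hQ).Syl) :
    R hb L x hQ A (val hb L x hQ C) (A.one, 1) = ((dat hb L x hQ).run A C, 1) := by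
  induction C with
  | nil => exact R_one hb L x hQ A _
  | cons a C ih =>
    rw [val_cons, R_mul, ih]
    have h := R_stp hb L x hx hQ A (pb hb L x hQ a.1 a.2.1) a.2.2 ((dat hb L x hQ).run A C)
    refine h.trans ?_
    rw [← pnt_pb]
    rfl

theorem v_stp (v : A.Ω → AR m)
    (hv : ∀ (ω : A.Ω) (w : (dat hb L x hQ).V) (b : (dat hb L x hQ).B) (k : ℤ),
      v ((dat hb L x hQ).pa A ω (w, (dat hb L x hQ).cls b) k) = v ω * px hb L x hQ w b ^ k)
    (p : ℕ → (dat hb L x hQ).V × (dat hb L x hQ).B) (w : W ℕ) : ∀ ω : A.Ω,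
    v ((dat hb L x hQ).stp A ω (fun r => ((p r).1, (dat hb L x hQ).cls (p r).2)) w) =
      v ω * ev (fun r => px hb L x hQ (p r).1 (p r).2) w := by
  induction w with
  | nil => intro ω; rw [ev_nil, mul_one]; rfl
  | cons a w ih =>
    intro ω
    rw [Dat.stp_cons, ih, hv, ev_cons, mul_assoc]
    congr 2
    split_ifs
    · rw [zpow_one]
    · rw [zpow_neg_one]

theorem v_run (v : A.Ω → AR m) (h1 : v A.one = 1)
    (hv : ∀ (ω : A.Ω) (w : (dat hb L x hQ).V) (b : (dat hb L x hQ).B) (k : ℤ),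
      v ((dat hb L x hQ).pa A ω (w, (dat hb L x hQ).cls b) k) = v ω * px hb L x hQ w b ^ k)
    (C : List (dat hb L x hQ).Syl) : v ((dat hb L x hQ).run A C) = val hb L x hQ C := by
  induction C with
  | nil => exact h1
  | cons a C ih =>
    rw [Dat.run_cons, val_cons, ← ih]
    have h := v_stp hb L x hQ A v hv (pb hb L x hQ a.1 a.2.1) a.2.2 ((dat hb L x hQ).run A C)
    rw [← pnt_pb] at h
    exact h

include hx in
theorem v_R (v : A.Ω → AR m)
    (hv : ∀ (ω : A.Ω) (w : (dat hb L x hQ).V) (b : (dat hb L x hQ).B) (k : ℤ),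
      v ((dat hb L x hQ).pa A ω (w, (dat hb L x hQ).cls b) k) = v ω * px hb L x hQ w b ^ k)
    (u : W (Fin n)) : ∀ (ω : A.Ω) (b : (dat hb L x hQ).B),
    v (R hb L x hQ A (ev (gR m) u) (ω, b)).1 *
      inc hb L x hQ (R hb L x hQ A (ev (gR m) u) (ω, b)).2 =
      v ω * inc hb L x hQ b * ret hb (insert (β x) L) (ev (gR m) u) ∧
    (R hb L x hQ A (ev (gR m) u) (ω, b)).2 = b * pr hb L x hQ (ev (gR m) u) := by
  induction u with
  | nil =>
    intro ω b
    rw [ev_nil, R_one, map_one, map_one, mul_one, mul_one]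
    exact ⟨rfl, rfl⟩
  | cons a u ih =>
    intro ω b
    rw [ev_cons, R_mul, map_mul, map_mul]
    have key : ∃ ω' b', R hb L x hQ A (if a.2 then gR m a.1 else (gR m a.1)⁻¹) (ω, b) =
        (ω', b') ∧ v ω' * inc hb L x hQ b' = v ω * inc hb L x hQ b *
          ret hb (insert (β x) L) (if a.2 then gR m a.1 else (gR m a.1)⁻¹) ∧
        b' = b * pr hb L x hQ (if a.2 then gR m a.1 else (gR m a.1)⁻¹) := by
      by_cases hs : β a.1 = β x
      · have h1 : (if a.2 then gR m a.1 else (gR m a.1)⁻¹) =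
            gR m a.1 ^ (if a.2 then 1 else -1 : ℤ) := by
          split_ifs
          · rw [zpow_one]
          · rw [zpow_neg_one]
        have h2 := R_x hb L x hQ A ⟨a.1, hs⟩ (if a.2 then 1 else -1 : ℤ) ω b
        rw [h1]
        refine ⟨_, _, h2, ?_, ?_⟩
        · rw [hv, px_pow, map_zpow, ret_gen_mem hb (by rw [hs]; exact Finset.mem_insert_self _ L)]
          group
        · rw [map_zpow, pr_gen_not hb L x hQ (by rw [hs]; exact hx), one_zpow, mul_one]
      · have h1 : Phi hb L x hQ A (gR m a.1) =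
            (dat hb L x hQ).psi A (pr hb L x hQ (gR m a.1)) := by
          rw [Phi_gen, fS, if_neg hs]
        have h2 : ret hb (insert (β x) L) (gR m a.1) = ret hb L (gR m a.1) := by
          by_cases h : β a.1 ∈ L
          · rw [ret_gen_mem hb h, ret_gen_mem hb (Finset.mem_insert_of_mem h)]
          · rw [ret_gen_not hb h, ret_gen_not hb]
            rw [Finset.mem_insert]
            rintro (h3 | h3)
            · exact hs h3
            · exact h h3
        have h3 : R hb L x hQ A (if a.2 then gR m a.1 else (gR m a.1)⁻¹) (ω, b) =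
            (ω, b * pr hb L x hQ (if a.2 then gR m a.1 else (gR m a.1)⁻¹)) := by
          unfold R
          split_ifs
          · rw [h1]
            rfl
          · rw [map_inv, h1, ← map_inv, ← map_inv]
            rfl
        refine ⟨_, _, h3, ?_, rfl⟩
        rw [map_mul, inc_pr, mul_assoc]
        congr 2
        split_ifs
        · rw [h2]
        · rw [map_inv, map_inv, h2]
    obtain ⟨ω', b', e1, e2, e3⟩ := key
    rw [e1]
    obtain ⟨i1, i2⟩ := ih ω' b'
    refine ⟨?_, ?_⟩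
    · rw [i1, e2, mul_assoc]
    · rw [i2, e3, mul_assoc]

include hx in
/-- completeness of the codes -/
theorem K1 (g : AR m) : ∃ C : List (dat hb L x hQ).Syl, (dat hb L x hQ).VC C ∧
    ret hb (insert (β x) L) g = val hb L x hQ C * ret hb L g := by
  obtain ⟨A⟩ := EB.Asm.nft (dat hb L x hQ).sys
  obtain ⟨v, h1, hv⟩ := exists_val hb L x hx hQ A
  obtain ⟨u, rfl⟩ := ev_surj g
  obtain ⟨e1, e2⟩ := v_R hb L x hx hQ A v hv u A.one 1
  obtain ⟨C, hC, hr⟩ :=
    (dat hb L x hQ).exists_code A (R hb L x hQ A (ev (gR m) u) (A.one, 1)).1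
  refine ⟨C, hC, ?_⟩
  rw [e2, ← hr, v_run hb L x hQ A v h1 hv, h1, map_one, one_mul, one_mul, one_mul, inc_pr] at e1
  exact e1.symm

include hx in
/-- only the empty code has value one -/
theorem K2 (C : List (dat hb L x hQ).Syl) (hC : (dat hb L x hQ).VC C)
    (h : val hb L x hQ C = 1) : C = [] := by
  obtain ⟨A⟩ := EB.Asm.nft (dat hb L x hQ).sys
  refine (dat hb L x hQ).run_one A C hC ?_
  have h1 := R_val hb L x hx hQ A C
  rw [h, R_one] at h1
  exact (congrArg Prod.fst h1).symm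

include hx in
/-- negative codes -/
theorem K3 (C : List (dat hb L x hQ).Syl) (hC : (dat hb L x hQ).VC C)
    (v : (dat hb L x hQ).V) (l : (dat hb L x hQ).B) :
    (dat hb L x hQ).neg (v, (dat hb L x hQ).cls l) C ↔
      ¬ ∃ (b a : ℤ) (w : (dat hb L x hQ).V) (μ : (dat hb L x hQ).B),
        val hb L x hQ C = px hb L x hQ v l ^ b * px hb L x hQ w μ ^ a := by
  obtain ⟨A⟩ := EB.Asm.nft (dat hb L x hQ).sys
  rw [(dat hb L x hQ).neg_iff A C hC]
  refine not_congr ?_
  constructor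
  · rintro ⟨b, ⟨w, p⟩, a, e⟩
    obtain ⟨μ, rfl⟩ := QuotientGroup.mk_surjective p
    obtain ⟨f, h1, hv⟩ := exists_val hb L x hx hQ A
    refine ⟨b, a, w, μ, ?_⟩
    have h2 := hv ((dat hb L x hQ).pa A A.one (v, (dat hb L x hQ).cls l) b) w μ a
    have h3 := hv A.one v l b
    rw [h1, one_mul] at h3
    rw [← v_run hb L x hQ A f h1 hv, e, ← h3]
    exact h2
  · rintro ⟨b, a, w, μ, e⟩
    refine ⟨b, (w, (dat hb L x hQ).cls μ), a, ?_⟩
    have h1 := R_val hb L x hx hQ A C
    rw [e, R_mul, R_px hb L x hx hQ A, R_px hb L x hx hQ A] at h1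
    exact (congrArg Prod.fst h1).symm

end act

end Pool.Agent.H87.Brt
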