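import Pool.Agent.H87.Brt.Cg

set_option autoImplicit false

/-! Codes as words. -/

namespace Pool.Agent.H87.Brt

open Pool.Agent.H482R3.EA (W inv ev PP xx evF cond1 cond2 Sys St Near InD Adm Act)
open Pool.Agent.H482R3.EB (alt AR gR)
open Pool.Agent.H482R3
open Pool.Agent.H87.Art (ev_nil ev_append ev_cons ev_inv ev_single map_ev re_ex re_and re_comp
  cp_comp re_or re_true re_false re_const re_all_fin re_ex_fin cp_eq re_case re_chain)

/-- kinds of syllables with words: block line, point, dihedral line -/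
abbrev Kw (n : ℕ) : Type := Option (Fin n × Option (Fin n))

/-- syllables with words -/
abbrev Syw (n : ℕ) : Type := W (Fin n) × Kw n × W ℕ

section nk

variable {n : ℕ} {ι : Type} [DecidableEq ι] (m : Fin n → Fin n → ℕ) (β : Fin n → ι)
  (L : Finset ι) (x : Fin n)

/-- normalised kinds -/
def nk : Kw n → Kw n
  | none => none
  | some (v, none) => if β v = β x then some (v, none) else none
  | some (v, some y) =>
      if β v = β x then (if β y ∈ L ∧ 2 ≤ m v y / 2 then some (v, some y) else none) else none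

/-- the modulus -/
def kk (κ : Kw n) : ℕ :=
  match nk m β L x κ with
  | some (v, some y) => m v y / 2
  | _ => 1

/-- the direction -/
def yy (κ : Kw n) : Fin n :=
  match nk m β L x κ with
  | some (_, some y) => y
  | _ => x

/-- block lines -/
def isb (κ : Kw n) : Bool :=
  match nk m β L x κ with
  | none => true
  | some _ => false

/-- the letter of the block -/
def vv (κ : Kw n) : Fin n :=
  match nk m β L x κ with
  | none => x
  | some (v, _) => v

/-- the word `y ^ (r mod k)` -/
def rep (κ : Kw n) (r : ℕ) : W (Fin n) :=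
  (List.range (r % kk m β L x κ)).map (fun _ => (yy m β L x κ, true))

/-- the letter -/
def lt (κ : Kw n) (r : ℕ) : Fin n := bif isb m β L x κ then nuF β x r else vv m β L x κ

theorem rep_prim : Primrec fun p : Kw n × ℕ => rep m β L x p.1 p.2 := by
  have h1 : Primrec fun κ : Kw n => kk m β L x κ := Primrec.dom_finite _
  have h2 : Primrec fun κ : Kw n => yy m β L x κ := Primrec.dom_finite _
  refine Primrec.list_map (Primrec.list_range.comp
    (Primrec.nat_mod.comp Primrec.snd (h1.comp Primrec.fst))) ?_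
  exact (Primrec.pair (h2.comp (Primrec.fst.comp Primrec.fst)) (Primrec.const true)).to₂

theorem lt_prim : Primrec fun p : Kw n × ℕ => lt m β L x p.1 p.2 := by
  have h1 : Primrec fun κ : Kw n => isb m β L x κ := Primrec.dom_finite _
  have h2 : Primrec fun κ : Kw n => vv m β L x κ := Primrec.dom_finite _
  have h3 : Primrec (nuF β x) :=
    (Primrec.list_getD x).comp (Primrec.const (lst β x)) Primrec.id
  exact Primrec.cond (h1.comp Primrec.fst) (h3.comp Primrec.snd) (h2.comp Primrec.fst)

end nk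

section wd

variable {n : ℕ} {ι : Type} [DecidableEq ι] {m : Fin n → Fin n → ℕ} {β : Fin n → ι}
  (hb : Blk m β) (L : Finset ι) (x : Fin n)
  (hQ : ∀ Y ∈ L, Y ∉ com m β L (β x) → QQ hb (com m β L (β x)) Y)

/-- the kind of a kind with words -/
noncomputable def ck : Kw n → Kd (dat hb L x hQ)
  | none => .bl
  | some (v, none) => if hv : β v = β x then .pt (⟨v, hv⟩ : {s : Fin n // β s = β x}) else .bl
  | some (v, some y) => if hv : β v = β x then
      (if h : β y ∈ L ∧ 2 ≤ m v y / 2 then
        .dh (⟨v, hv⟩ : {s : Fin n // β s = β x}) y h else .bl) else .bl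

/-- the syllable of a syllable with words -/
noncomputable def conv (a : Syw n) : (dat hb L x hQ).Syl :=
  (pr hb L x hQ (ev (gR m) a.1), ck hb L x hQ a.2.1, a.2.2)

theorem ev_rep (κ : Kw n) (r : ℕ) : ev (gR m) (rep m β L x κ r) =
    gR m (yy m β L x κ) ^ (r % kk m β L x κ) := by
  unfold rep ev
  simp

theorem ck_cases (κ : Kw n) :
    (ck hb L x hQ κ = .bl ∧ nk m β L x κ = none) ∨
    (∃ (v : Fin n) (hv : β v = β x), ck hb L x hQ κ =
      .pt (⟨v, hv⟩ : {s : Fin n // β s = β x}) ∧ nk m β L x κ = some (v, none)) ∨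
    (∃ (v : Fin n) (hv : β v = β x) (y : Fin n) (h : β y ∈ L ∧ 2 ≤ m v y / 2),
      ck hb L x hQ κ = .dh (⟨v, hv⟩ : {s : Fin n // β s = β x}) y h ∧
        nk m β L x κ = some (v, some y)) := by
  match κ with
  | none => exact Or.inl ⟨rfl, rfl⟩
  | some (v, none) =>
    by_cases hv : β v = β x
    · refine Or.inr (Or.inl ⟨v, hv, ?_, ?_⟩)
      · unfold ck
        exact dif_pos hv
      · unfold nk
        exact if_pos hv
    · refine Or.inl ⟨?_, ?_⟩
      · unfold ck
        exact dif_neg hv
      · unfold nk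
        exact if_neg hv
  | some (v, some y) =>
    by_cases hv : β v = β x
    · by_cases h : β y ∈ L ∧ 2 ≤ m v y / 2
      · refine Or.inr (Or.inr ⟨v, hv, y, h, ?_, ?_⟩)
        · unfold ck
          simp only
          rw [dif_pos hv]
          exact dif_pos h
        · unfold nk
          simp only
          rw [if_pos hv]
          exact if_pos h
      · refine Or.inl ⟨?_, ?_⟩
        · unfold ck
          simp only
          rw [dif_pos hv]
          exact dif_neg h
        · unfold nk
          simp only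
          rw [if_pos hv]
          exact if_neg h
    · refine Or.inl ⟨?_, ?_⟩
      · unfold ck
        exact dif_neg hv
      · unfold nk
        exact if_neg hv

theorem pb1 (κ : Kw n) (b : (dat hb L x hQ).B) (r : ℕ) :
    ((pb hb L x hQ b (ck hb L x hQ κ) r).1 : {s : Fin n // β s = β x}).1 =
      lt m β L x κ r := by
  unfold lt isb vv
  rcases ck_cases hb L x hQ κ with ⟨h1, h2⟩ | ⟨v, hv, h1, h2⟩ | ⟨v, hv, y, h, h1, h2⟩
  · rw [h1, h2]
    rfl
  · rw [h1, h2]
    rfl
  · rw [h1, h2]
    rfl

theorem pb2 (κ : Kw n) (g : AR m) (r : ℕ) :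
    inc hb L x hQ (pb hb L x hQ (pr hb L x hQ g) (ck hb L x hQ κ) r).2 =
      ret hb L (g * ev (gR m) (rep m β L x κ r)) := by
  rw [ev_rep L x]
  unfold yy kk
  rcases ck_cases hb L x hQ κ with ⟨h1, h2⟩ | ⟨v, hv, h1, h2⟩ | ⟨v, hv, y, h, h1, h2⟩
  · rw [h1, h2]
    show inc hb L x hQ (pr hb L x hQ g) = ret hb L (g * gR m x ^ (r % 1))
    rw [Nat.mod_one, pow_zero, mul_one]
    rfl
  · rw [h1, h2]
    show inc hb L x hQ (pr hb L x hQ g) = ret hb L (g * gR m x ^ (r % 1))
    rw [Nat.mod_one, pow_zero, mul_one]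
    rfl
  · rw [h1, h2]
    show inc hb L x hQ (pr hb L x hQ g * (dat hb L x hQ).t y ^ (((r % (m v y / 2) : ℕ) : ℤ))) =
        ret hb L (g * gR m y ^ (r % (m v y / 2)))
    rw [map_mul, map_zpow, zpow_natCast, map_mul, map_pow]
    rfl

/-- the word of one signed letter -/
def lw (m : Fin n → Fin n → ℕ) (β : Fin n → ι) (L : Finset ι) (x : Fin n) (g : W (Fin n))
    (κ : Kw n) (a : ℕ × Bool) : W (Fin n) :=
  fl β L (g ++ rep m β L x κ a.1) ++
    ((lt m β L x κ a.1, a.2) :: inv (fl β L (g ++ rep m β L x κ a.1)))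

/-- the word of a syllable -/
def sw (m : Fin n → Fin n → ℕ) (β : Fin n → ι) (L : Finset ι) (x : Fin n) (a : Syw n) :
    W (Fin n) := a.2.2.flatMap (lw m β L x a.1 a.2.1)

/-- the word of a code -/
def cw (m : Fin n → Fin n → ℕ) (β : Fin n → ι) (L : Finset ι) (x : Fin n)
    (C : List (Syw n)) : W (Fin n) := C.reverse.flatMap (sw m β L x)

theorem ev_lw (g : W (Fin n)) (κ : Kw n) (a : ℕ × Bool) :
    ev (gR m) (lw m β L x g κ a) =
      (if a.2 then px hb L x hQ
        (pb hb L x hQ (pr hb L x hQ (ev (gR m) g)) (ck hb L x hQ κ) a.1).1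
        (pb hb L x hQ (pr hb L x hQ (ev (gR m) g)) (ck hb L x hQ κ) a.1).2
        else (px hb L x hQ
        (pb hb L x hQ (pr hb L x hQ (ev (gR m) g)) (ck hb L x hQ κ) a.1).1
        (pb hb L x hQ (pr hb L x hQ (ev (gR m) g)) (ck hb L x hQ κ) a.1).2)⁻¹) := by
  unfold lw px
  rw [pb1 hb L x hQ κ, pb2 hb L x hQ κ, ← ev_append, ret_ev, ev_append (gR m) (fl β L _),
    ev_cons, ev_inv]
  split_ifs <;> group

theorem ev_sw (a : Syw n) :
    ev (gR m) (sw m β L x a) = valS hb L x hQ (conv hb L x hQ a) := by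
  obtain ⟨g, κ, w⟩ := a
  unfold sw valS conv
  simp only
  induction w with
  | nil => rfl
  | cons a w ih =>
    rw [List.flatMap_cons, ev_append, ev_cons, ih, ev_lw hb L x hQ]

theorem ev_cw (C : List (Syw n)) :
    ev (gR m) (cw m β L x C) = val hb L x hQ (C.map (conv hb L x hQ)) := by
  induction C with
  | nil => rfl
  | cons a C ih =>
    rw [List.map_cons, val_cons, ← ih, ← ev_sw]
    unfold cw
    rw [List.reverse_cons, List.flatMap_append, ev_append, List.flatMap_singleton]

theorem cw_prim : Primrec fun C : List (Syw n) => cw m β L x C := by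
  have h0 : Primrec fun p : Syw n × (ℕ × Bool) =>
      fl β L (p.1.1 ++ rep m β L x p.1.2.1 p.2.1) :=
    (prim_fl β L).comp (Primrec.list_append.comp (Primrec.fst.comp Primrec.fst)
      ((rep_prim m β L x).comp (Primrec.pair (Primrec.fst.comp (Primrec.snd.comp Primrec.fst))
        (Primrec.fst.comp Primrec.snd))))
  have h4 : Primrec fun p : Syw n × (ℕ × Bool) => lt m β L x p.1.2.1 p.2.1 :=
    (lt_prim m β L x).comp (Primrec.pair (Primrec.fst.comp (Primrec.snd.comp Primrec.fst))
        (Primrec.fst.comp Primrec.snd))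
  have h1 : Primrec₂ fun (a : Syw n) (b : ℕ × Bool) => lw m β L x a.1 a.2.1 b := by
    refine Primrec₂.mk ?_
    exact Primrec.list_append.comp h0 (Primrec.list_cons.comp
      (Primrec.pair h4 (Primrec.snd.comp Primrec.snd))
      ((Pool.Agent.H338R.EB.BASB.prim_inv n).comp h0))
  have h2 : Primrec fun a : Syw n => sw m β L x a :=
    Primrec.list_flatMap (Primrec.snd.comp Primrec.snd) h1
  exact Primrec.list_flatMap Primrec.list_reverse (h2.comp Primrec.snd).to₂

theorem cg_val : CG m fun C : List (Syw n) => val hb L x hQ (C.map (conv hb L x hQ)) :=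
  ⟨fun C => cw m β L x C, (cw_prim L x).to_comp, ev_cw hb L x hQ⟩

theorem ck_surj (κ : Kd (dat hb L x hQ)) : ∃ κ' : Kw n, ck hb L x hQ κ' = κ := by
  cases κ with
  | pt v =>
    refine ⟨some (v.1, none), ?_⟩
    unfold ck
    exact dif_pos v.2
  | bl => exact ⟨none, rfl⟩
  | dh v y h =>
    refine ⟨some (v.1, some y), ?_⟩
    unfold ck
    simp only
    rw [dif_pos v.2]
    exact dif_pos h

theorem conv_surj (C : List (dat hb L x hQ).Syl) :
    ∃ C' : List (Syw n), C'.map (conv hb L x hQ) = C := by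
  induction C with
  | nil => exact ⟨[], rfl⟩
  | cons a C ih =>
    obtain ⟨C', rfl⟩ := ih
    obtain ⟨b, κ, w⟩ := a
    obtain ⟨g, hg⟩ := ev_surj (inc hb L x hQ b)
    obtain ⟨κ', hκ⟩ := ck_surj hb L x hQ κ
    refine ⟨(g, κ', w) :: C', ?_⟩
    rw [List.map_cons]
    congr 1
    unfold conv
    simp only
    rw [hg, pr_inc, hκ]

end wd

end Pool.Agent.H87.Brt
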